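import Pool.Agent.Helper8.PL.Basic

/-! PL-J: every pair of lines meets in exactly one vertex; the area of a vertex. -/

namespace Pool.Agent.Helper8.PL

open Wiring Finset

variable {d : ℕ} (W : Wiring d)

private lemma pair_mem {k : ℕ} {i : Fin d} :
    i ∈ W.B k ↔ W.lo k ≤ W.pos k i ∧ W.pos k i < W.hi k := by
  unfold Wiring.B
  simp

/-- two lines of the block are in the original order before the vertex -/
private lemma pair_lt_iff {k : ℕ} (hk : k < W.M) {i j : Fin d} (hi : i ∈ W.B k)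
    (hj : j ∈ W.B k) : i < j ↔ W.pos k i < W.pos k j := by
  rw [pair_mem] at hi hj
  constructor
  · intro h
    rcases lt_trichotomy (W.pos k i) (W.pos k j) with h1 | h1 | h1
    · exact h1
    · exact absurd (pos_inj W hk.le h1) h.ne
    · exact absurd (W.sorted k hk j i hj.1 h1 hi.2) (not_lt.2 h.le)
  · intro h
    exact W.sorted k hk i j hi.1 h hj.2

private lemma pair_inv_succ {k : ℕ} (hk : k < W.M) {i j : Fin d} (hi : i ∈ W.B k)
    (hj : j ∈ W.B k) (h : i < j) : W.pos (k + 1) j < W.pos (k + 1) i := by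
  have h1 := (pair_lt_iff W hk hi hj).1 h
  rw [pair_mem] at hi hj
  have h2 := W.flip k hk i hi.1 hi.2
  have h3 := W.flip k hk j hj.1 hj.2
  omega

private lemma pair_step {k : ℕ} (hk : k < W.M) {i j : Fin d}
    (h : ¬ W.pos k j < W.pos k i) (h' : W.pos (k + 1) j < W.pos (k + 1) i) :
    i ∈ W.B k ∧ j ∈ W.B k := by
  rw [pair_mem, pair_mem]
  have a1 := W.fixed k hk i
  have a2 := W.flip k hk i
  have b1 := W.fixed k hk j
  have b2 := W.flip k hk j
  by_cases hi : W.lo k ≤ W.pos k i ∧ W.pos k i < W.hi k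
  · by_cases hj : W.lo k ≤ W.pos k j ∧ W.pos k j < W.hi k
    · exact ⟨hi, hj⟩
    · exfalso
      have := b1 (by omega)
      have := a2 hi.1 hi.2
      omega
  · exfalso
    have h1 := a1 (by omega)
    by_cases hj : W.lo k ≤ W.pos k j ∧ W.pos k j < W.hi k
    · have := b2 hj.1 hj.2
      omega
    · have := b1 (by omega)
      omega

private lemma pair_exists {i j : Fin d} (h : i < j) :
    ∃ k ∈ range W.M, i ∈ W.B k ∧ j ∈ W.B k := by
  classical
  have h0 : ¬ W.pos 0 j < W.pos 0 i := by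
    rw [W.start, W.start]
    have : (i : ℕ) < j := h
    omega
  have hM : W.pos W.M j < W.pos W.M i := by
    have h1 := W.finish i
    have h2 := W.finish j
    have : (i : ℕ) < j := h
    omega
  have hex : ∃ n, W.pos n j < W.pos n i := ⟨_, hM⟩
  have h1 := Nat.find_spec hex
  have h2 : Nat.find hex ≤ W.M := Nat.find_min' hex hM
  have h3 : Nat.find hex ≠ 0 := by
    intro h4
    rw [h4] at h1
    exact h0 h1
  obtain ⟨n, hn⟩ := Nat.exists_eq_succ_of_ne_zero h3
  have h4 : ¬ W.pos n j < W.pos n i := Nat.find_min hex (by omega)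
  rw [hn] at h1 h2
  exact ⟨n, mem_range.2 (by omega), pair_step W (by omega) h4 h1⟩

private lemma pair_unique {i j : Fin d} (h : i < j) {k l : ℕ} (hk : k < W.M) (hl : l < W.M)
    (h1 : i ∈ W.B k ∧ j ∈ W.B k) (h2 : i ∈ W.B l ∧ j ∈ W.B l) : k = l := by
  have key : ∀ k l, k < W.M → l < W.M → i ∈ W.B k ∧ j ∈ W.B k → i ∈ W.B l ∧ j ∈ W.B l →
      ¬ k < l := by
    intro k l hk hl h1 h2 hkl
    have h3 := pair_inv_succ W hk h1.1 h1.2 h
    have h4 := inv_mono W (show k + 1 ≤ l from hkl) hl.le h h3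
    have h5 := (pair_lt_iff W hl h2.1 h2.2).1 h
    omega
  have a := key k l hk hl h1 h2
  have b := key l k hl hk h2 h1
  omega

/-- every pair of lines meets in exactly one vertex -/
theorem pair_sum (f : Fin d → Fin d → ℝ) :
    ∑ k ∈ range W.M, ∑ i ∈ W.B k, ∑ j ∈ (W.B k).erase i, f i j =
      ∑ i, ∑ j ∈ univ.erase i, f i j := by
  classical
  have e1 : ∀ k ∈ range W.M, ∑ i ∈ W.B k, ∑ j ∈ (W.B k).erase i, f i j =
      ∑ i, ∑ j, if j ≠ i ∧ i ∈ W.B k ∧ j ∈ W.B k then f i j else 0 := by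
    intro k _
    rw [← Finset.sum_subset (Finset.subset_univ (W.B k))]
    · refine Finset.sum_congr rfl fun i hi => ?_
      rw [← Finset.sum_filter]
      refine Finset.sum_congr ?_ fun _ _ => rfl
      ext j
      simp only [mem_erase, mem_filter, mem_univ, true_and]
      tauto
    · intro i _ hi
      refine Finset.sum_eq_zero fun j _ => ?_
      rw [if_neg]
      tauto
  have e2 : ∑ i, ∑ j ∈ univ.erase i, f i j =
      ∑ i : Fin d, ∑ j : Fin d, if j ≠ i then f i j else 0 := by
    refine Finset.sum_congr rfl fun i _ => ?_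
    rw [← Finset.sum_filter]
    refine Finset.sum_congr ?_ fun _ _ => rfl
    ext j
    simp
  rw [Finset.sum_congr rfl e1, e2, Finset.sum_comm]
  refine Finset.sum_congr rfl fun i _ => ?_
  rw [Finset.sum_comm]
  refine Finset.sum_congr rfl fun j _ => ?_
  by_cases hji : j = i
  · subst hji
    simp
  rw [if_pos hji]
  have hex : ∃ k ∈ range W.M, (i ∈ W.B k ∧ j ∈ W.B k) ∧
      ∀ l ∈ range W.M, (i ∈ W.B l ∧ j ∈ W.B l) → l = k := by
    rcases lt_trichotomy i j with h | h | h
    · obtain ⟨k, hk, h1⟩ := pair_exists W h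
      exact ⟨k, hk, h1, fun l hl h2 =>
        pair_unique W h (mem_range.1 hl) (mem_range.1 hk) h2 h1⟩
    · exact absurd h.symm hji
    · obtain ⟨k, hk, h1⟩ := pair_exists W h
      exact ⟨k, hk, h1.symm, fun l hl h2 =>
        pair_unique W h (mem_range.1 hl) (mem_range.1 hk) h2.symm h1⟩
  obtain ⟨k, hk, h1, h2⟩ := hex
  rw [Finset.sum_eq_single_of_mem k hk]
  · rw [if_pos ⟨hji, h1⟩]
  · intro l hl hne
    rw [if_neg]
    rintro ⟨-, h3⟩
    exact hne (h2 l hl h3)

private lemma pair_T (N : ℕ) {k : ℕ} (hk : k ≤ W.M) :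
    ∑ x ∈ range (d + 1), (W.T N k x : ℝ) =
      ∑ i : Fin d, (((i : ℕ) / N : ℕ) : ℝ) * ((d : ℝ) - W.pos k i) := by
  have e1 : ∀ x ∈ range (d + 1), (W.T N k x : ℝ) =
      ∑ i : Fin d, if W.pos k i < x then (((i : ℕ) / N : ℕ) : ℝ) else 0 := by
    intro x _
    unfold Wiring.T
    rw [← Finset.sum_filter]
    push_cast
    rfl
  rw [Finset.sum_congr rfl e1, Finset.sum_comm]
  refine Finset.sum_congr rfl fun i _ => ?_
  have hp := pos_lt W hk i
  rw [← Finset.sum_filter, Finset.sum_const, nsmul_eq_mul, mul_comm]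
  congr 1
  have : (range (d + 1)).filter (fun x => W.pos k i < x) = Finset.Ioc (W.pos k i) d := by
    ext x
    simp only [mem_filter, mem_range, mem_Ioc]
    omega
  rw [this, Nat.card_Ioc, Nat.cast_sub hp.le]

private lemma pair_low {k : ℕ} (hk : k < W.M) {i : Fin d} (hi : i ∈ W.B k) :
    ((W.B k).filter fun j => j < i).card = W.pos k i - W.lo k := by
  classical
  have hi' := (pair_mem W).1 hi
  rw [← Nat.card_Ico, ← Finset.card_image_of_injOn (f := fun j => W.pos k j)
    (s := (W.B k).filter fun j => j < i)]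
  · congr 1
    ext x
    simp only [mem_image, mem_filter, mem_Ico]
    constructor
    · rintro ⟨j, ⟨hj, hji⟩, rfl⟩
      exact ⟨((pair_mem W).1 hj).1, (pair_lt_iff W hk hj hi).1 hji⟩
    · rintro ⟨h1, h2⟩
      obtain ⟨j, hj⟩ := pos_surj W hk.le (x := x) (by
        have := pos_lt W hk.le i; omega)
      have hjB : j ∈ W.B k := (pair_mem W).2 (by omega)
      exact ⟨j, ⟨hjB, (pair_lt_iff W hk hjB hi).2 (by omega)⟩, hj⟩
  · intro a _ b _ hab
    exact pos_inj W hk.le hab

private lemma pair_high {k : ℕ} (hk : k < W.M) {i : Fin d} (hi : i ∈ W.B k) :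
    ((W.B k).filter fun j => i < j).card = W.hi k - (W.pos k i + 1) := by
  classical
  have hi' := (pair_mem W).1 hi
  rw [← Nat.card_Ico, ← Finset.card_image_of_injOn (f := fun j => W.pos k j)
    (s := (W.B k).filter fun j => i < j)]
  · congr 1
    ext x
    simp only [mem_image, mem_filter, mem_Ico]
    constructor
    · rintro ⟨j, ⟨hj, hji⟩, rfl⟩
      exact ⟨(pair_lt_iff W hk hi hj).1 hji, ((pair_mem W).1 hj).2⟩
    · rintro ⟨h1, h2⟩
      obtain ⟨j, hj⟩ := pos_surj W hk.le (x := x) (by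
        have := W.le_d k hk; omega)
      have hjB : j ∈ W.B k := (pair_mem W).2 (by omega)
      exact ⟨j, ⟨hjB, (pair_lt_iff W hk hi hjB).2 (by omega)⟩, hj⟩
  · intro a _ b _ hab
    exact pos_inj W hk.le hab

private lemma pair_fib {N m k : ℕ} (hN : 0 < N) (hm : d ≤ m * N) (g : ℕ → ℝ) :
    ∑ i ∈ W.B k, g ((i : ℕ) / N) = ∑ c ∈ range m, (W.u N c k : ℝ) * g c := by
  classical
  rw [← Finset.sum_fiberwise_of_maps_to (s := W.B k) (t := range m)
    (g := fun i : Fin d => (i : ℕ) / N)]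
  · refine Finset.sum_congr rfl fun c _ => ?_
    have : ∀ i ∈ (W.B k).filter (fun i : Fin d => (i : ℕ) / N = c), g ((i : ℕ) / N) = g c := by
      intro i hi
      rw [(mem_filter.1 hi).2]
    rw [Finset.sum_congr rfl this, Finset.sum_const, nsmul_eq_mul]
    rfl
  · intro i _
    rw [mem_range, Nat.div_lt_iff_lt_mul hN]
    exact lt_of_lt_of_le i.2 hm

/-- the area of a vertex in the dual tiling -/
theorem block_area {N m k : ℕ} (hN : 0 < N) (hm : d ≤ m * N) (hk : k < W.M) :
    ∑ x ∈ range (d + 1), ((W.T N (k + 1) x : ℝ) - W.T N k x) =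
      ∑ c ∈ range m, ∑ c' ∈ range m,
        if c < c' then ((c' : ℝ) - c) * ((W.u N c k : ℝ) * W.u N c' k) else 0 := by
  classical
  set cl : Fin d → ℝ := fun i => (((i : ℕ) / N : ℕ) : ℝ) with hcl
  rw [Finset.sum_sub_distrib, pair_T W N (show k + 1 ≤ W.M from hk), pair_T W N hk.le,
    ← Finset.sum_sub_distrib]
  -- only the lines of the block contribute
  have s1 : ∑ i : Fin d, ((((i : ℕ) / N : ℕ) : ℝ) * ((d : ℝ) - W.pos (k + 1) i) -
      (((i : ℕ) / N : ℕ) : ℝ) * ((d : ℝ) - W.pos k i)) =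
      ∑ i ∈ W.B k, cl i * ((((W.B k).filter fun j => j < i).card : ℝ) -
        (((W.B k).filter fun j => i < j).card : ℝ)) := by
    rw [← Finset.sum_subset (Finset.subset_univ (W.B k))]
    · refine Finset.sum_congr rfl fun i hi => ?_
      have hi' := (pair_mem W).1 hi
      rw [pair_low W hk hi, pair_high W hk hi, Nat.cast_sub hi'.1, Nat.cast_sub (by omega)]
      have h1 := W.flip k hk i hi'.1 hi'.2
      have h2 : (W.pos (k + 1) i : ℝ) + W.pos k i + 1 = W.lo k + W.hi k := by exact_mod_cast h1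
      have h3 : (W.pos (k + 1) i : ℝ) = W.lo k + W.hi k - 1 - W.pos k i := by linarith
      rw [h3]
      push_cast
      ring
    · intro i _ hi
      have h1 : W.pos (k + 1) i = W.pos k i := by
        apply W.fixed k hk i
        rw [pair_mem] at hi
        omega
      rw [h1, sub_self]
  rw [s1]
  have s2 : ∑ i ∈ W.B k, cl i * ((((W.B k).filter fun j => j < i).card : ℝ) -
        (((W.B k).filter fun j => i < j).card : ℝ)) =
      ∑ i ∈ W.B k, ∑ j ∈ W.B k, (if i < j then cl j - cl i else 0) := by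
    have t1 : ∀ i ∈ W.B k, cl i * ((((W.B k).filter fun j => j < i).card : ℝ) -
        (((W.B k).filter fun j => i < j).card : ℝ)) =
        ∑ j ∈ W.B k, (if j < i then cl i else 0) - ∑ j ∈ W.B k, (if i < j then cl i else 0) := by
      intro i _
      rw [← Finset.sum_filter, ← Finset.sum_filter, Finset.sum_const, Finset.sum_const,
        nsmul_eq_mul, nsmul_eq_mul]
      ring
    rw [Finset.sum_congr rfl t1, Finset.sum_sub_distrib]
    rw [Finset.sum_comm, ← Finset.sum_sub_distrib]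
    refine Finset.sum_congr rfl fun i _ => ?_
    rw [← Finset.sum_sub_distrib]
    refine Finset.sum_congr rfl fun j _ => ?_
    split_ifs <;> simp
  rw [s2]
  have s3 : ∀ i ∈ W.B k, ∑ j ∈ W.B k, (if i < j then cl j - cl i else 0) =
      ∑ j ∈ W.B k, (fun c : ℕ => if (i : ℕ) / N < c then (c : ℝ) - ((i : ℕ) / N : ℕ) else 0)
        ((j : ℕ) / N) := by
    intro i _
    refine Finset.sum_congr rfl fun j _ => ?_
    show (if i < j then cl j - cl i else 0) =
      if (i : ℕ) / N < (j : ℕ) / N then (((j : ℕ) / N : ℕ) : ℝ) - ((i : ℕ) / N : ℕ) else 0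
    by_cases h : (i : ℕ) / N < (j : ℕ) / N
    · rw [if_pos h, if_pos]
      by_contra h'
      have : (j : ℕ) ≤ i := not_lt.1 h'
      have := Nat.div_le_div_right (c := N) this
      omega
    · rw [if_neg h]
      split_ifs with h'
      · have h2 : (i : ℕ) ≤ j := le_of_lt h'
        have h3 := Nat.div_le_div_right (c := N) h2
        have h4 : (i : ℕ) / N = (j : ℕ) / N := by omega
        rw [hcl]
        simp only
        rw [h4, sub_self]
      · rfl
  rw [Finset.sum_congr rfl s3]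
  have s4 : ∀ i ∈ W.B k, ∑ j ∈ W.B k,
      (fun c : ℕ => if (i : ℕ) / N < c then (c : ℝ) - ((i : ℕ) / N : ℕ) else 0) ((j : ℕ) / N) =
      (fun a : ℕ => ∑ c ∈ range m, (W.u N c k : ℝ) * (if a < c then (c : ℝ) - a else 0))
        ((i : ℕ) / N) := by
    intro i _
    exact pair_fib W (k := k) hN hm
      (fun c : ℕ => if (i : ℕ) / N < c then (c : ℝ) - ((i : ℕ) / N : ℕ) else 0)
  rw [Finset.sum_congr rfl s4, pair_fib W (k := k) hN hm
    (fun a : ℕ => ∑ c ∈ range m, (W.u N c k : ℝ) * (if a < c then (c : ℝ) - a else 0))]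
  refine Finset.sum_congr rfl fun c _ => ?_
  simp only [Finset.mul_sum]
  refine Finset.sum_congr rfl fun c' _ => ?_
  split_ifs <;> ring

end Pool.Agent.Helper8.PL
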