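import Mathlib

/-! PL-A: Lipschitz functions are almost affine on most dyadic squares at some scale. -/

open MeasureTheory Set Filter
open scoped ENNReal NNReal Topology

namespace Pool.Agent.Helper8.PL

/-- The square `q` of order `n` is good for `φ` with the constant `ε`. -/
private def affGood (m : ℕ) (L : ℝ≥0) (ε : ℝ) (φ : ℝ × ℝ → (Fin m → ℝ)) (n : ℕ) (q : ℕ × ℕ) : Prop :=
  ∃ (A : (ℝ × ℝ) →L[ℝ] (Fin m → ℝ)) (b : Fin m → ℝ), ‖A‖ ≤ L ∧
    ∀ z : ℝ × ℝ, dist z ((q.1 : ℝ) / 2 ^ n, (q.2 : ℝ) / 2 ^ n) ≤ 4 / 2 ^ n →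
      ‖φ z - A z - b‖ ≤ ε / 2 ^ n

private def affG (m : ℕ) (L : ℝ≥0) (ε : ℝ) (φ : ℝ × ℝ → (Fin m → ℝ)) (n : ℕ) : Set (ℝ × ℝ) :=
  {z | ∀ n', n ≤ n' → ∃ A : (ℝ × ℝ) →L[ℝ] (Fin m → ℝ), ‖A‖ ≤ L ∧
    ∀ z' : ℝ × ℝ, dist z' z ≤ 5 / 2 ^ n' → ‖φ z' - φ z - A (z' - z)‖ ≤ ε / 2 ^ n'}

private theorem aff_mem_of_diff {m : ℕ} {L : ℝ≥0} {ε : ℝ} (hε : 0 < ε) {φ : ℝ × ℝ → (Fin m → ℝ)}
    (hφ : LipschitzWith L φ) {z : ℝ × ℝ} (hz : DifferentiableAt ℝ φ z) :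
    z ∈ ⋃ n, affG m L ε φ n := by
  have h1 := hz.hasFDerivAt.isLittleO
  have h2 := h1.def (show (0 : ℝ) < ε / 5 by positivity)
  rw [Metric.eventually_nhds_iff] at h2
  obtain ⟨δ, hδ, h2⟩ := h2
  obtain ⟨n, hn⟩ := exists_pow_lt_of_lt_one (show (0 : ℝ) < δ / 5 by positivity)
    (show (1 / 2 : ℝ) < 1 by norm_num)
  refine mem_iUnion.2 ⟨n, fun n' hn' => ⟨fderiv ℝ φ z, norm_fderiv_le_of_lipschitz ℝ hφ, ?_⟩⟩
  intro z' hz'
  have h3 : (5 : ℝ) / 2 ^ n' < δ := by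
    have h4 : ((1 / 2 : ℝ)) ^ n' ≤ (1 / 2) ^ n :=
      pow_le_pow_of_le_one (by norm_num) (by norm_num) hn'
    have h5 : (5 : ℝ) / 2 ^ n' = 5 * (1 / 2) ^ n' := by
      rw [one_div, inv_pow, div_eq_mul_inv]
    rw [h5]
    linarith
  have h6 := h2 (lt_of_le_of_lt hz' h3)
  refine h6.trans ?_
  rw [← dist_eq_norm]
  calc ε / 5 * dist z' z ≤ ε / 5 * (5 / 2 ^ n') := by gcongr
    _ = ε / 2 ^ n' := by ring

private theorem aff_good_of_mem {m : ℕ} {L : ℝ≥0} {ε : ℝ} {φ : ℝ × ℝ → (Fin m → ℝ)} {n : ℕ}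
    {z : ℝ × ℝ} (hz : z ∈ affG m L ε φ n) {q : ℕ × ℕ}
    (hq : dist z ((q.1 : ℝ) / 2 ^ n, (q.2 : ℝ) / 2 ^ n) ≤ 1 / 2 ^ n) : affGood m L ε φ n q := by
  obtain ⟨A, hA, h⟩ := hz n le_rfl
  refine ⟨A, φ z - A z, hA, fun z' hz' => ?_⟩
  have h1 : dist z' z ≤ 5 / 2 ^ n := by
    calc dist z' z ≤ dist z' ((q.1 : ℝ) / 2 ^ n, (q.2 : ℝ) / 2 ^ n) +
        dist ((q.1 : ℝ) / 2 ^ n, (q.2 : ℝ) / 2 ^ n) z := dist_triangle _ _ _
      _ ≤ 4 / 2 ^ n + 1 / 2 ^ n := by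
        rw [dist_comm _ z]
        exact add_le_add hz' hq
      _ = 5 / 2 ^ n := by ring
  have h2 := h z' h1
  have h3 : φ z' - A z' - (φ z - A z) = φ z' - φ z - A (z' - z) := by
    rw [map_sub]; abel
  rw [h3]
  exact h2

private def affQ (n : ℕ) (q : ℕ × ℕ) : Set (ℝ × ℝ) :=
  Ico ((q.1 : ℝ) / 2 ^ n) (((q.1 : ℝ) + 1) / 2 ^ n) ×ˢ
    Ico ((q.2 : ℝ) / 2 ^ n) (((q.2 : ℝ) + 1) / 2 ^ n)

private theorem aff_volQ (n : ℕ) (q : ℕ × ℕ) : volume (affQ n q) = ENNReal.ofReal (1 / 4 ^ n) := by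
  rw [affQ, Measure.volume_eq_prod, Measure.prod_prod, Real.volume_Ico, Real.volume_Ico,
    ← ENNReal.ofReal_mul (by rw [← sub_div, add_sub_cancel_left]; positivity)]
  congr 1
  rw [← sub_div, ← sub_div]
  have : (4 : ℝ) ^ n = 2 ^ n * 2 ^ n := by rw [← mul_pow]; norm_num
  rw [this]
  field_simp
  ring

private theorem aff_nat_eq {n : ℕ} {a b : ℕ} {x : ℝ} (ha : x ∈ Ico ((a : ℝ) / 2 ^ n) (((a : ℝ) + 1) / 2 ^ n))
    (hb : x ∈ Ico ((b : ℝ) / 2 ^ n) (((b : ℝ) + 1) / 2 ^ n)) : a = b := by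
  have hp : (0 : ℝ) < 2 ^ n := by positivity
  have h1 : (a : ℝ) < b + 1 := by
    have := lt_of_le_of_lt ha.1 hb.2
    exact (div_lt_div_iff_of_pos_right hp).1 this
  have h2 : (b : ℝ) < a + 1 := by
    have := lt_of_le_of_lt hb.1 ha.2
    exact (div_lt_div_iff_of_pos_right hp).1 this
  have h3 : a < b + 1 := by exact_mod_cast h1
  have h4 : b < a + 1 := by exact_mod_cast h2
  omega

private theorem aff_disj (n : ℕ) (S : Finset (ℕ × ℕ)) :
    (S : Set (ℕ × ℕ)).PairwiseDisjoint (affQ n) := by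
  intro q _ q' _ hne
  rw [Function.onFun, Set.disjoint_left]
  intro x hx hx'
  exact hne (Prod.ext (aff_nat_eq hx.1 hx'.1) (aff_nat_eq hx.2 hx'.2))

private theorem aff_step1 (m : ℕ) (L : ℝ≥0) (B : ℕ) {ε : ℝ} (hε : 0 < ε)
    (φ : ℝ × ℝ → (Fin m → ℝ)) (hφ : LipschitzWith L φ) : ∃ N : ℕ, ∀ n, N ≤ n →
      ∀ S : Finset (ℕ × ℕ), S ⊆ Finset.range (B * 2 ^ n) ×ˢ Finset.range (B * 2 ^ n) →
        (∀ q ∈ S, ¬ affGood m L ε φ n q) → (S.card : ℝ) ≤ ε * 4 ^ n := by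
  set K : Set (ℝ × ℝ) := Ico (0 : ℝ) B ×ˢ Ico (0 : ℝ) B with hK
  have hKfin : volume K ≠ ∞ := by
    rw [hK, Measure.volume_eq_prod, Measure.prod_prod, Real.volume_Ico]
    exact ENNReal.mul_ne_top ENNReal.ofReal_ne_top ENNReal.ofReal_ne_top
  have hmono : Monotone (fun n => affG m L ε φ n ∩ K) := by
    intro a b hab
    refine inter_subset_inter_left _ ?_
    intro z hz n' hn'
    exact hz n' (hab.trans hn')
  have hlim := tendsto_measure_iUnion_atTop (μ := volume) hmono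
  have hfull : volume K ≤ volume (⋃ n, affG m L ε φ n ∩ K) := by
    have hae : ∀ᵐ z ∂(volume : Measure (ℝ × ℝ)), DifferentiableAt ℝ φ z :=
      hφ.ae_differentiableAt
    have hnull : volume {z : ℝ × ℝ | ¬ DifferentiableAt ℝ φ z} = 0 := hae
    calc volume K ≤ volume ((⋃ n, affG m L ε φ n ∩ K) ∪ {z : ℝ × ℝ | ¬ DifferentiableAt ℝ φ z}) := by
          refine measure_mono ?_
          intro z hz
          by_cases hd : DifferentiableAt ℝ φ z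
          · left
            obtain ⟨n, hn⟩ := mem_iUnion.1 (aff_mem_of_diff hε hφ hd)
            exact mem_iUnion.2 ⟨n, hn, hz⟩
          · right
            exact hd
      _ ≤ volume (⋃ n, affG m L ε φ n ∩ K) + volume {z : ℝ × ℝ | ¬ DifferentiableAt ℝ φ z} :=
          measure_union_le _ _
      _ = volume (⋃ n, affG m L ε φ n ∩ K) := by rw [hnull, add_zero]
  have hev : ∀ᶠ n in atTop, volume K ≤ volume (affG m L ε φ n ∩ K) + ENNReal.ofReal ε := by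
    by_cases hK0 : volume K = 0
    · filter_upwards with n
      rw [hK0]
      exact bot_le
    · have hlt : volume K - ENNReal.ofReal ε < volume (⋃ n, affG m L ε φ n ∩ K) := by
        refine lt_of_lt_of_le ?_ hfull
        exact ENNReal.sub_lt_self hKfin hK0 (by simpa using hε)
      filter_upwards [hlim.eventually (lt_mem_nhds hlt)] with n hn
      have : volume K - ENNReal.ofReal ε ≤ volume (affG m L ε φ n ∩ K) := le_of_lt hn
      exact tsub_le_iff_right.1 this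
  obtain ⟨N, hN⟩ := eventually_atTop.1 hev
  refine ⟨N, fun n hn S hS hbad => ?_⟩
  have h1 := hN n hn
  set U : Set (ℝ × ℝ) := ⋃ q ∈ S, affQ n q with hU
  have hmeas : ∀ q : ℕ × ℕ, MeasurableSet (affQ n q) := fun q =>
    measurableSet_Ico.prod measurableSet_Ico
  have hUmeas : MeasurableSet U := Finset.measurableSet_biUnion S fun q _ => hmeas q
  have hvolU : volume U = ENNReal.ofReal ((S.card : ℝ) / 4 ^ n) := by
    rw [hU, measure_biUnion_finset (aff_disj n S) (fun q _ => hmeas q)]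
    simp only [aff_volQ, Finset.sum_const, nsmul_eq_mul]
    rw [← ENNReal.ofReal_natCast, ← ENNReal.ofReal_mul (by positivity)]
    congr 1
    ring
  have hp : (0 : ℝ) < 2 ^ n := by positivity
  have hUK : U ⊆ K := by
    intro z hz
    obtain ⟨q, hq, hzq⟩ := mem_iUnion₂.1 hz
    have hqm := Finset.mem_product.1 (hS hq)
    have hq1 : q.1 + 1 ≤ B * 2 ^ n := Finset.mem_range.1 hqm.1
    have hq2 : q.2 + 1 ≤ B * 2 ^ n := Finset.mem_range.1 hqm.2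
    have hq1' : ((q.1 : ℝ) + 1) / 2 ^ n ≤ B := by
      rw [div_le_iff₀ hp]
      exact_mod_cast hq1
    have hq2' : ((q.2 : ℝ) + 1) / 2 ^ n ≤ B := by
      rw [div_le_iff₀ hp]
      exact_mod_cast hq2
    refine ⟨⟨?_, ?_⟩, ⟨?_, ?_⟩⟩
    · exact le_trans (by positivity) hzq.1.1
    · exact lt_of_lt_of_le hzq.1.2 hq1'
    · exact le_trans (by positivity) hzq.2.1
    · exact lt_of_lt_of_le hzq.2.2 hq2'
  have hdisj : Disjoint U (affG m L ε φ n ∩ K) := by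
    rw [Set.disjoint_left]
    rintro z hz ⟨hzG, _⟩
    obtain ⟨q, hq, hzq⟩ := mem_iUnion₂.1 hz
    refine hbad q hq (aff_good_of_mem hzG ?_)
    rw [Prod.dist_eq]
    refine max_le ?_ ?_
    · rw [Real.dist_eq, abs_le]
      have e1 := hzq.1.1
      have e2 := hzq.1.2
      have e3 : ((q.1 : ℝ) + 1) / 2 ^ n = (q.1 : ℝ) / 2 ^ n + 1 / 2 ^ n := by ring
      have e4 : (0 : ℝ) < 1 / 2 ^ n := by positivity
      rw [e3] at e2
      simp only at e1 e2 ⊢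
      constructor <;> linarith
    · rw [Real.dist_eq, abs_le]
      have e1 := hzq.2.1
      have e2 := hzq.2.2
      have e3 : ((q.2 : ℝ) + 1) / 2 ^ n = (q.2 : ℝ) / 2 ^ n + 1 / 2 ^ n := by ring
      have e4 : (0 : ℝ) < 1 / 2 ^ n := by positivity
      rw [e3] at e2
      simp only at e1 e2 ⊢
      constructor <;> linarith
  have h2 : volume U + volume (affG m L ε φ n ∩ K) ≤ volume K := by
    rw [← measure_union' hdisj hUmeas]
    exact measure_mono (union_subset hUK inter_subset_right)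
  have hGfin : volume (affG m L ε φ n ∩ K) ≠ ∞ :=
    ne_top_of_le_ne_top hKfin (measure_mono inter_subset_right)
  have h3 : volume U ≤ ENNReal.ofReal ε := by
    have h4 : volume U + volume (affG m L ε φ n ∩ K) ≤
        ENNReal.ofReal ε + volume (affG m L ε φ n ∩ K) := by
      rw [add_comm (ENNReal.ofReal ε)]
      exact h2.trans h1
    exact (ENNReal.add_le_add_iff_right hGfin).1 h4
  rw [hvolU, ENNReal.ofReal_le_ofReal_iff hε.le, div_le_iff₀ (by positivity)] at h3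
  exact h3

private theorem aff_unif {m : ℕ} {L : ℝ≥0} (U : Ultrafilter ℕ) (ψ : ℕ → ℝ × ℝ → (Fin m → ℝ))
    (hψ : ∀ j, LipschitzWith L (ψ j)) (Φ : ℝ × ℝ → (Fin m → ℝ)) (hΦ : LipschitzWith L Φ)
    (hlim : ∀ z, Tendsto (fun j => ψ j z) U (𝓝 (Φ z))) (R : ℝ) {δ : ℝ} (hδ : 0 < δ) :
    ∀ᶠ j in (U : Filter ℕ), ∀ z : ℝ × ℝ, z ∈ Metric.closedBall (0 : ℝ × ℝ) R →
      ‖ψ j z - Φ z‖ ≤ δ := by
  have hL : (0 : ℝ) ≤ L := L.2
  set e : ℝ := δ / (4 * (L + 1)) with he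
  have hepos : 0 < e := by positivity
  have hLe : (L : ℝ) * e ≤ δ / 4 := by
    rw [he]
    rw [show (L : ℝ) * (δ / (4 * (L + 1))) = (δ / 4) * (L / (L + 1)) by field_simp]
    have : (L : ℝ) / (L + 1) ≤ 1 := by
      rw [div_le_one (by positivity)]; linarith
    calc δ / 4 * (L / (L + 1)) ≤ δ / 4 * 1 := by gcongr
      _ = δ / 4 := mul_one _
  obtain ⟨t, _, htf, htc⟩ := (isCompact_closedBall (0 : ℝ × ℝ) R).finite_cover_balls hepos
  have h1 : ∀ᶠ j in (U : Filter ℕ), ∀ y ∈ t, ‖ψ j y - Φ y‖ ≤ δ / 2 := by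
    rw [Filter.eventually_all_finite htf]
    intro y _
    have h2 := (hlim y).eventually (Metric.closedBall_mem_nhds (Φ y) (half_pos hδ))
    filter_upwards [h2] with j hj
    rw [← dist_eq_norm]
    exact hj
  filter_upwards [h1] with j hj z hz
  obtain ⟨y, hy, hzy⟩ := mem_iUnion₂.1 (htc hz)
  have hzy' : dist z y ≤ e := le_of_lt hzy
  have a1 : ‖ψ j z - ψ j y‖ ≤ δ / 4 := by
    rw [← dist_eq_norm]
    calc dist (ψ j z) (ψ j y) ≤ L * dist z y := (hψ j).dist_le_mul z y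
      _ ≤ L * e := by gcongr
      _ ≤ δ / 4 := hLe
  have a2 : ‖Φ y - Φ z‖ ≤ δ / 4 := by
    rw [← dist_eq_norm]
    calc dist (Φ y) (Φ z) ≤ L * dist y z := hΦ.dist_le_mul y z
      _ ≤ L * e := by rw [dist_comm]; gcongr
      _ ≤ δ / 4 := hLe
  have a3 := hj y hy
  calc ‖ψ j z - Φ z‖ = ‖(ψ j z - ψ j y) + (ψ j y - Φ y) + (Φ y - Φ z)‖ := by congr 1; abel
    _ ≤ ‖ψ j z - ψ j y‖ + ‖ψ j y - Φ y‖ + ‖Φ y - Φ z‖ := norm_add₃_le
    _ ≤ δ / 4 + δ / 2 + δ / 4 := by linarith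
    _ = δ := by ring

/-- PL-A. Lipschitz functions are almost affine on most squares at some scale. The square `q` of
order `n` has the lower left corner `(q.1 / 2 ^ n, q.2 / 2 ^ n)` and the side `1 / 2 ^ n`. -/
theorem affine_scale (m : ℕ) (L : ℝ≥0) (B n₁ : ℕ) {ε : ℝ} (hε : 0 < ε) :
    ∃ n₀ : ℕ, ∀ φ : ℝ × ℝ → (Fin m → ℝ), LipschitzWith L φ → ∃ n, n₁ ≤ n ∧ n ≤ n₀ ∧
      ∀ S : Finset (ℕ × ℕ), S ⊆ Finset.range (B * 2 ^ n) ×ˢ Finset.range (B * 2 ^ n) →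
        (∀ q ∈ S, ¬ ∃ (A : (ℝ × ℝ) →L[ℝ] (Fin m → ℝ)) (b : Fin m → ℝ), ‖A‖ ≤ L ∧
          ∀ z : ℝ × ℝ, dist z ((q.1 : ℝ) / 2 ^ n, (q.2 : ℝ) / 2 ^ n) ≤ 4 / 2 ^ n →
            ‖φ z - A z - b‖ ≤ ε / 2 ^ n) →
        (S.card : ℝ) ≤ ε * 4 ^ n := by
  by_contra hcon
  push Not at hcon
  choose φ hφ hfail using hcon
  set ψ : ℕ → ℝ × ℝ → (Fin m → ℝ) := fun j z => φ j z - φ j 0 with hψdef
  have hψ : ∀ j, LipschitzWith L (ψ j) := by
    intro j
    refine LipschitzWith.of_dist_le_mul fun x y => ?_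
    have := (hφ j).dist_le_mul x y
    rw [dist_eq_norm] at this ⊢
    simpa [hψdef] using this
  have hψ0 : ∀ j z, ψ j z ∈ Metric.closedBall (0 : Fin m → ℝ) (L * ‖z‖) := by
    intro j z
    rw [mem_closedBall_zero_iff]
    have := (hφ j).dist_le_mul z 0
    rw [dist_eq_norm, dist_zero_right] at this
    exact this
  set U : Ultrafilter ℕ := Filter.hyperfilter ℕ with hUdef
  have hlim : ∀ z, ∃ y, Tendsto (fun j => ψ j z) U (𝓝 y) := by
    intro z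
    have hc : IsCompact (Metric.closedBall (0 : Fin m → ℝ) (L * ‖z‖)) := isCompact_closedBall _ _
    obtain ⟨y, _, hy⟩ := hc.ultrafilter_le_nhds (U.map (fun j => ψ j z)) (by
      rw [Ultrafilter.coe_map, Filter.le_principal_iff, Filter.mem_map]
      exact Filter.univ_mem' (fun j => hψ0 j z))
    exact ⟨y, hy⟩
  choose Φ hΦlim using hlim
  have hΦ : LipschitzWith L Φ := by
    refine LipschitzWith.of_dist_le_mul fun x y => ?_
    refine le_of_tendsto ((hΦlim x).dist (hΦlim y)) ?_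
    filter_upwards with j
    exact (hψ j).dist_le_mul x y
  obtain ⟨N, hN⟩ := aff_step1 m L B (half_pos hε) Φ hΦ
  set n := max N n₁ with hn
  have hp : (0 : ℝ) < 2 ^ n := by positivity
  have hunif := aff_unif U ψ hψ Φ hΦ hΦlim ((B : ℝ) + 5) (δ := (ε / 2) / 2 ^ n) (by positivity)
  have hlarge : ∀ᶠ j in (U : Filter ℕ), n ≤ j := by
    have : (U : Filter ℕ) ≤ atTop := by
      rw [hUdef, ← Nat.cofinite_eq_atTop]
      exact Filter.hyperfilter_le_cofinite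
    exact this (eventually_ge_atTop n)
  obtain ⟨j, hj1, hj2⟩ := (hunif.and hlarge).exists
  obtain ⟨S, hS, hbad, hcard⟩ := hfail j n (le_max_right _ _) hj2
  have h1 := hN n (le_max_left _ _) S hS (by
    rintro q hq ⟨A, b, hA, h⟩
    obtain ⟨z, hz1, hz2⟩ := hbad q hq A (b + φ j 0) hA
    have h2 := h z hz1
    have hqm := Finset.mem_product.1 (hS hq)
    have hq1 : q.1 ≤ B * 2 ^ n := (Finset.mem_range.1 hqm.1).le
    have hq2 : q.2 ≤ B * 2 ^ n := (Finset.mem_range.1 hqm.2).le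
    have hq1' : (q.1 : ℝ) / 2 ^ n ≤ B := by
      rw [div_le_iff₀ hp]
      exact_mod_cast hq1
    have hq2' : (q.2 : ℝ) / 2 ^ n ≤ B := by
      rw [div_le_iff₀ hp]
      exact_mod_cast hq2
    have hcorner : ‖(((q.1 : ℝ) / 2 ^ n, (q.2 : ℝ) / 2 ^ n) : ℝ × ℝ)‖ ≤ B := by
      rw [Prod.norm_def]
      refine max_le ?_ ?_
      · rw [Real.norm_of_nonneg (by positivity)]; exact hq1'
      · rw [Real.norm_of_nonneg (by positivity)]; exact hq2'
    have h4 : (4 : ℝ) / 2 ^ n ≤ 4 := div_le_self (by norm_num) (one_le_pow₀ (by norm_num))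
    have hz3 : z ∈ Metric.closedBall (0 : ℝ × ℝ) ((B : ℝ) + 5) := by
      rw [mem_closedBall_zero_iff]
      have : ‖z‖ ≤ ‖z - ((q.1 : ℝ) / 2 ^ n, (q.2 : ℝ) / 2 ^ n)‖ +
          ‖(((q.1 : ℝ) / 2 ^ n, (q.2 : ℝ) / 2 ^ n) : ℝ × ℝ)‖ := by
        simpa using norm_add_le (z - ((q.1 : ℝ) / 2 ^ n, (q.2 : ℝ) / 2 ^ n))
          (((q.1 : ℝ) / 2 ^ n, (q.2 : ℝ) / 2 ^ n) : ℝ × ℝ)
      rw [← dist_eq_norm] at this
      linarith
    have h5 := hj1 z hz3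
    have h6 : ‖φ j z - A z - (b + φ j 0)‖ ≤ ε / 2 ^ n := by
      have h7 : φ j z - A z - (b + φ j 0) = (ψ j z - Φ z) + (Φ z - A z - b) := by
        change φ j z - A z - (b + φ j 0) = (φ j z - φ j 0 - Φ z) + (Φ z - A z - b)
        abel
      rw [h7]
      calc ‖(ψ j z - Φ z) + (Φ z - A z - b)‖ ≤ ‖ψ j z - Φ z‖ + ‖Φ z - A z - b‖ := norm_add_le _ _
        _ ≤ (ε / 2) / 2 ^ n + (ε / 2) / 2 ^ n := add_le_add h5 h2
        _ = ε / 2 ^ n := by ring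
    exact absurd h6 (not_le.2 hz2))
  have h8 : (0 : ℝ) < 4 ^ n := by positivity
  nlinarith

end Pool.Agent.Helper8.PL
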