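import Mathlib

open MeasureTheory Set Filter
open scoped ENNReal NNReal Topology

namespace Pool.Agent.Helper8.PL

/-- Area of the affine image of a rectangle. -/
theorem area_affine (a b c d x y p q s t : ℝ) (hs : 0 ≤ s) (_ht : 0 ≤ t) :
    volume {Y : ℝ × ℝ | ∃ z : ℝ × ℝ, p ≤ z.1 ∧ z.1 ≤ p + s ∧ q ≤ z.2 ∧ z.2 ≤ q + t ∧
      Y.1 = a * z.1 + b * z.2 + x ∧ Y.2 = c * z.1 + d * z.2 + y} ≤
      ENNReal.ofReal (|a * d - b * c| * (s * t)) := by
  set T : (ℝ × ℝ) →ₗ[ℝ] (ℝ × ℝ) :=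
    Matrix.toLin (Module.Basis.finTwoProd ℝ) (Module.Basis.finTwoProd ℝ) !![a, b; c, d] with hT
  have hTapp : ∀ z : ℝ × ℝ, T z = (a * z.1 + b * z.2, c * z.1 + d * z.2) := by
    intro z
    rw [hT, Matrix.toLin_finTwoProd_apply]
  have hdet : LinearMap.det T = a * d - b * c := by
    rw [hT, LinearMap.det_toLin, Matrix.det_fin_two_of]
  have hsub : {Y : ℝ × ℝ | ∃ z : ℝ × ℝ, p ≤ z.1 ∧ z.1 ≤ p + s ∧ q ≤ z.2 ∧ z.2 ≤ q + t ∧
      Y.1 = a * z.1 + b * z.2 + x ∧ Y.2 = c * z.1 + d * z.2 + y} ⊆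
      (fun Y => Y + ((-x, -y) : ℝ × ℝ)) ⁻¹' (T '' (Icc p (p + s) ×ˢ Icc q (q + t))) := by
    rintro Y ⟨z, h1, h2, h3, h4, h5, h6⟩
    refine ⟨z, ⟨⟨h1, h2⟩, ⟨h3, h4⟩⟩, ?_⟩
    rw [hTapp]
    ext
    · simp [h5]
    · simp [h6]
  refine (measure_mono hsub).trans ?_
  rw [measure_preimage_add_right, Measure.addHaar_image_linearMap, hdet, Measure.volume_eq_prod,
    Measure.prod_prod, Real.volume_Icc, Real.volume_Icc, ← ENNReal.ofReal_mul (by linarith),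
    ← ENNReal.ofReal_mul (abs_nonneg _)]
  apply ENNReal.ofReal_le_ofReal
  apply le_of_eq
  ring


/-- The neighbourhood of the affine image of a square. -/
def area_set (ε : ℝ) (v w b z₀ : ℝ × ℝ) (l : ℝ) : Set (ℝ × ℝ) :=
  {y : ℝ × ℝ | ∃ z : ℝ × ℝ, z₀.1 ≤ z.1 ∧ z.1 ≤ z₀.1 + l ∧ z₀.2 ≤ z.2 ∧
        z.2 ≤ z₀.2 + l ∧ |y.1 - (v.1 * z.1 + v.2 * z.2 + b.1)| ≤ ε * l ∧
        |y.2 - (w.1 * z.1 + w.2 * z.2 + b.2)| ≤ ε * l}

/-- The nondegenerate case. -/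
theorem area_caseA {L ε : ℝ} (hε : 0 < ε) (v w b z₀ : ℝ × ℝ) (l : ℝ)
    (h1 : |v.1| ≤ L) (h2 : |v.2| ≤ L) (h3 : |w.1| ≤ L) (h4 : |w.2| ≤ L) (hl : 0 < l)
    (hJ : v.1 * w.2 - v.2 * w.1 ≠ 0) :
    volume (area_set ε v w b z₀ l) ≤ ENNReal.ofReal (|v.1 * w.2 - v.2 * w.1| *
      ((l + 2 * (2 * L * (ε * l) / |v.1 * w.2 - v.2 * w.1|)) *
      (l + 2 * (2 * L * (ε * l) / |v.1 * w.2 - v.2 * w.1|)))) := by
  have hL : 0 ≤ L := (abs_nonneg _).trans h1
  set J := v.1 * w.2 - v.2 * w.1 with hJdef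
  have hJpos : 0 < |J| := abs_pos.mpr hJ
  set r := 2 * L * (ε * l) / |J| with hr
  have hr0 : 0 ≤ r := by positivity
  refine (measure_mono ?_).trans (area_affine v.1 v.2 w.1 w.2 b.1 b.2 (z₀.1 - r) (z₀.2 - r)
    (l + 2 * r) (l + 2 * r) (by positivity) (by positivity))
  rintro y ⟨z, g1, g2, g3, g4, g5, g6⟩
  set d1 := y.1 - (v.1 * z.1 + v.2 * z.2 + b.1) with hd1
  set d2 := y.2 - (w.1 * z.1 + w.2 * z.2 + b.2) with hd2
  have e1 : |(w.2 * d1 - v.2 * d2) / J| ≤ r := by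
    rw [abs_div, hr]
    apply div_le_div_of_nonneg_right _ hJpos.le
    calc |w.2 * d1 - v.2 * d2| ≤ |w.2 * d1| + |v.2 * d2| := abs_sub _ _
      _ = |w.2| * |d1| + |v.2| * |d2| := by rw [abs_mul, abs_mul]
      _ ≤ L * (ε * l) + L * (ε * l) := by gcongr
      _ = 2 * L * (ε * l) := by ring
  have e2 : |(-w.1 * d1 + v.1 * d2) / J| ≤ r := by
    rw [abs_div, hr]
    apply div_le_div_of_nonneg_right _ hJpos.le
    calc |-w.1 * d1 + v.1 * d2| ≤ |-w.1 * d1| + |v.1 * d2| := abs_add_le _ _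
      _ = |w.1| * |d1| + |v.1| * |d2| := by rw [abs_mul, abs_mul, abs_neg]
      _ ≤ L * (ε * l) + L * (ε * l) := by gcongr
      _ = 2 * L * (ε * l) := by ring
  have e1' := abs_le.mp e1
  have e2' := abs_le.mp e2
  refine ⟨(z.1 + (w.2 * d1 - v.2 * d2) / J, z.2 + (-w.1 * d1 + v.1 * d2) / J), ?_, ?_, ?_, ?_,
    ?_, ?_⟩
  · show z₀.1 - r ≤ z.1 + (w.2 * d1 - v.2 * d2) / J
    linarith [e1'.1]
  · show z.1 + (w.2 * d1 - v.2 * d2) / J ≤ z₀.1 - r + (l + 2 * r)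
    linarith [e1'.2]
  · show z₀.2 - r ≤ z.2 + (-w.1 * d1 + v.1 * d2) / J
    linarith [e2'.1]
  · show z.2 + (-w.1 * d1 + v.1 * d2) / J ≤ z₀.2 - r + (l + 2 * r)
    linarith [e2'.2]
  · show y.1 = v.1 * (z.1 + (w.2 * d1 - v.2 * d2) / J) +
      v.2 * (z.2 + (-w.1 * d1 + v.1 * d2) / J) + b.1
    have : y.1 = d1 + (v.1 * z.1 + v.2 * z.2 + b.1) := by rw [hd1]; ring
    rw [this]
    field_simp
    rw [hJdef]
    ring
  · show y.2 = w.1 * (z.1 + (w.2 * d1 - v.2 * d2) / J) +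
      w.2 * (z.2 + (-w.1 * d1 + v.1 * d2) / J) + b.2
    have : y.2 = d2 + (w.1 * z.1 + w.2 * z.2 + b.2) := by rw [hd2]; ring
    rw [this]
    field_simp
    rw [hJdef]
    ring

/-- All four coefficients are small. -/
theorem area_caseZ {κ ε : ℝ} (hε : 0 < ε) (v w b z₀ : ℝ × ℝ) (l : ℝ)
    (h1 : |v.1| ≤ κ) (h2 : |v.2| ≤ κ) (h3 : |w.1| ≤ κ) (h4 : |w.2| ≤ κ) (hl : 0 < l) :
    volume (area_set ε v w b z₀ l) ≤ ENNReal.ofReal
      ((2 * (2 * κ + ε) * l) * (2 * (2 * κ + ε) * l)) := by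
  have hκ : 0 ≤ κ := (abs_nonneg _).trans h1
  have h := area_affine 1 0 0 1 0 0 (v.1 * z₀.1 + v.2 * z₀.2 + b.1 - (2 * κ + ε) * l)
    (w.1 * z₀.1 + w.2 * z₀.2 + b.2 - (2 * κ + ε) * l)
    (2 * (2 * κ + ε) * l) (2 * (2 * κ + ε) * l) (by positivity) (by positivity)
  have habs : |(1 : ℝ) * 1 - 0 * 0| = 1 := by norm_num
  rw [habs, one_mul] at h
  refine (measure_mono ?_).trans h
  rintro y ⟨z, g1, g2, g3, g4, g5, g6⟩
  have k1 : |v.1 * (z.1 - z₀.1)| ≤ κ * l := by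
    rw [abs_mul]
    exact mul_le_mul h1 (abs_le.mpr ⟨by linarith, by linarith⟩) (abs_nonneg _) hκ
  have k2 : |v.2 * (z.2 - z₀.2)| ≤ κ * l := by
    rw [abs_mul]
    exact mul_le_mul h2 (abs_le.mpr ⟨by linarith, by linarith⟩) (abs_nonneg _) hκ
  have k3 : |w.1 * (z.1 - z₀.1)| ≤ κ * l := by
    rw [abs_mul]
    exact mul_le_mul h3 (abs_le.mpr ⟨by linarith, by linarith⟩) (abs_nonneg _) hκ
  have k4 : |w.2 * (z.2 - z₀.2)| ≤ κ * l := by
    rw [abs_mul]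
    exact mul_le_mul h4 (abs_le.mpr ⟨by linarith, by linarith⟩) (abs_nonneg _) hκ
  have k1' := abs_le.mp k1
  have k2' := abs_le.mp k2
  have k3' := abs_le.mp k3
  have k4' := abs_le.mp k4
  have g5' := abs_le.mp g5
  have g6' := abs_le.mp g6
  refine ⟨y, ?_, ?_, ?_, ?_, by ring, by ring⟩
  · linarith [k1'.1, k2'.1, g5'.1]
  · linarith [k1'.2, k2'.2, g5'.2]
  · linarith [k3'.1, k4'.1, g6'.1]
  · linarith [k3'.2, k4'.2, g6'.2]

/-- The first coefficient is the largest one. -/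
theorem area_caseB {L ε : ℝ} (hε : 0 < ε) (v w b z₀ : ℝ × ℝ) (l : ℝ)
    (h1 : |v.1| ≤ L) (h2 : |v.2| ≤ L) (h3 : |w.1| ≤ |v.1|) (hl : 0 < l) (hv : v.1 ≠ 0) :
    volume (area_set ε v w b z₀ l) ≤ ENNReal.ofReal
      ((2 * (2 * L + ε) * l) * (2 * (|v.1 * w.2 - v.2 * w.1| / |v.1| + 2 * ε) * l)) := by
  have hL : 0 ≤ L := (abs_nonneg _).trans h1
  have hvpos : 0 < |v.1| := abs_pos.mpr hv
  set α := w.1 / v.1 with hα
  have hα1 : |α| ≤ 1 := by
    rw [hα, abs_div]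
    exact (div_le_one hvpos).mpr h3
  set J := v.1 * w.2 - v.2 * w.1 with hJ
  set ρ := |J| / |v.1| + 2 * ε with hρ
  have hρ0 : 0 ≤ ρ := by positivity
  have h := area_affine 1 0 α 1 0 0 (v.1 * z₀.1 + v.2 * z₀.2 + b.1 - (2 * L + ε) * l)
    (J / v.1 * z₀.2 + b.2 - α * b.1 - ρ * l)
    (2 * (2 * L + ε) * l) (2 * ρ * l) (by positivity) (by positivity)
  have habs : |(1 : ℝ) * 1 - 0 * α| = 1 := by norm_num
  rw [habs, one_mul] at h
  refine (measure_mono ?_).trans h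
  rintro y ⟨z, g1, g2, g3, g4, g5, g6⟩
  have k1 : |v.1 * (z.1 - z₀.1)| ≤ L * l := by
    rw [abs_mul]
    exact mul_le_mul h1 (abs_le.mpr ⟨by linarith, by linarith⟩) (abs_nonneg _) hL
  have k2 : |v.2 * (z.2 - z₀.2)| ≤ L * l := by
    rw [abs_mul]
    exact mul_le_mul h2 (abs_le.mpr ⟨by linarith, by linarith⟩) (abs_nonneg _) hL
  have k3 : |J / v.1 * (z.2 - z₀.2)| ≤ |J| / |v.1| * l := by
    rw [abs_mul, abs_div]
    exact mul_le_mul le_rfl (abs_le.mpr ⟨by linarith, by linarith⟩) (abs_nonneg _) (by positivity)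
  set d1 := y.1 - (v.1 * z.1 + v.2 * z.2 + b.1) with hd1
  set d2 := y.2 - (w.1 * z.1 + w.2 * z.2 + b.2) with hd2
  have k4 : |α * d1| ≤ ε * l := by
    rw [abs_mul]
    calc |α| * |d1| ≤ 1 * (ε * l) := by gcongr
      _ = ε * l := one_mul _
  have key : y.2 - α * y.1 = J / v.1 * z.2 + b.2 - α * b.1 + d2 - α * d1 := by
    rw [hd1, hd2, hJ, hα]
    field_simp
    ring
  have k1' := abs_le.mp k1
  have k2' := abs_le.mp k2
  have k3' := abs_le.mp k3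
  have k4' := abs_le.mp k4
  have g5' := abs_le.mp g5
  have g6' := abs_le.mp g6
  refine ⟨(y.1, y.2 - α * y.1), ?_, ?_, ?_, ?_, ?_, ?_⟩
  · show v.1 * z₀.1 + v.2 * z₀.2 + b.1 - (2 * L + ε) * l ≤ y.1
    linarith [k1'.1, k2'.1, g5'.1]
  · show y.1 ≤ v.1 * z₀.1 + v.2 * z₀.2 + b.1 - (2 * L + ε) * l + 2 * (2 * L + ε) * l
    linarith [k1'.2, k2'.2, g5'.2]
  · show J / v.1 * z₀.2 + b.2 - α * b.1 - ρ * l ≤ y.2 - α * y.1
    rw [key, hρ]
    linarith [k3'.1, k4'.2, g6'.1]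
  · show y.2 - α * y.1 ≤ J / v.1 * z₀.2 + b.2 - α * b.1 - ρ * l + 2 * ρ * l
    rw [key, hρ]
    linarith [k3'.2, k4'.1, g6'.2]
  · show y.1 = 1 * y.1 + 0 * (y.2 - α * y.1) + 0
    ring
  · show y.2 = α * y.1 + 1 * (y.2 - α * y.1) + 0
    ring

/-- Swapping the coordinates of the source. -/
theorem area_swap1 (ε : ℝ) (v w b z₀ : ℝ × ℝ) (l : ℝ) :
    area_set ε v w b z₀ l = area_set ε v.swap w.swap b z₀.swap l := by
  ext y
  constructor
  · rintro ⟨z, g1, g2, g3, g4, g5, g6⟩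
    refine ⟨z.swap, g3, g4, g1, g2, ?_, ?_⟩
    · rw [show v.swap.1 * z.swap.1 + v.swap.2 * z.swap.2 = v.1 * z.1 + v.2 * z.2 from by
        simp only [Prod.fst_swap, Prod.snd_swap]; ring]
      exact g5
    · rw [show w.swap.1 * z.swap.1 + w.swap.2 * z.swap.2 = w.1 * z.1 + w.2 * z.2 from by
        simp only [Prod.fst_swap, Prod.snd_swap]; ring]
      exact g6
  · rintro ⟨z, g1, g2, g3, g4, g5, g6⟩
    refine ⟨z.swap, g3, g4, g1, g2, ?_, ?_⟩
    · rw [show v.1 * z.swap.1 + v.2 * z.swap.2 = v.swap.1 * z.1 + v.swap.2 * z.2 from by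
        simp only [Prod.fst_swap, Prod.snd_swap]; ring]
      exact g5
    · rw [show w.1 * z.swap.1 + w.2 * z.swap.2 = w.swap.1 * z.1 + w.swap.2 * z.2 from by
        simp only [Prod.fst_swap, Prod.snd_swap]; ring]
      exact g6

/-- Swapping the coordinates of the target. -/
theorem area_swap2 (ε : ℝ) (v w b z₀ : ℝ × ℝ) (l : ℝ) :
    volume (area_set ε v w b z₀ l) ≤ volume (area_set ε w v b.swap z₀ l) := by
  have h : area_set ε v w b z₀ l ⊆
      (MeasurableEquiv.prodComm : ℝ × ℝ ≃ᵐ ℝ × ℝ) ⁻¹' (area_set ε w v b.swap z₀ l) := by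
    rintro y ⟨z, g1, g2, g3, g4, g5, g6⟩
    exact ⟨z, g1, g2, g3, g4, g6, g5⟩
  refine (measure_mono h).trans (le_of_eq ?_)
  have hmp : MeasurePreserving (MeasurableEquiv.prodComm : ℝ × ℝ ≃ᵐ ℝ × ℝ) volume volume := by
    have := (Measure.measurePreserving_swap (μ := (volume : Measure ℝ))
      (ν := (volume : Measure ℝ)))
    exact this
  exact hmp.measure_preimage_equiv _


/-- PL-B. The area of a neighbourhood of the affine image of a square. -/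
theorem area_nbhd {L η : ℝ} (hL : 0 < L) (hη : 0 < η) : ∃ ε : ℝ, 0 < ε ∧
    ∀ (v w b z₀ : ℝ × ℝ) (l : ℝ), |v.1| ≤ L → |v.2| ≤ L → |w.1| ≤ L → |w.2| ≤ L → 0 < l →
      volume {y : ℝ × ℝ | ∃ z : ℝ × ℝ, z₀.1 ≤ z.1 ∧ z.1 ≤ z₀.1 + l ∧ z₀.2 ≤ z.2 ∧
        z.2 ≤ z₀.2 + l ∧ |y.1 - (v.1 * z.1 + v.2 * z.2 + b.1)| ≤ ε * l ∧
        |y.2 - (w.1 * z.1 + w.2 * z.2 + b.2)| ≤ ε * l} ≤
      ENNReal.ofReal ((|v.1 * w.2 - v.2 * w.1| + η) * l ^ 2) := by
  set κ := min 1 (η / 36) with hκdef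
  have hκ : 0 < κ := lt_min one_pos (by positivity)
  have hκ1 : κ ≤ 1 := min_le_left _ _
  have hκ2 : κ ≤ η / 36 := min_le_right _ _
  set δ := η / (12 * (2 * L + 1)) with hδdef
  have hδ : 0 < δ := by positivity
  set η' := κ * δ with hη'def
  have hη' : 0 < η' := by positivity
  set ε := min (min 1 κ) (min δ (η / (8 * L + 16 * L ^ 2 / η'))) with hεdef
  have hε : 0 < ε := lt_min (lt_min one_pos hκ) (lt_min hδ (by positivity))
  have hε1 : ε ≤ 1 := (min_le_left _ _).trans (min_le_left _ _)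
  have hε2 : ε ≤ κ := (min_le_left _ _).trans (min_le_right _ _)
  have hε3 : ε ≤ δ := (min_le_right _ _).trans (min_le_left _ _)
  have hε4 : ε ≤ η / (8 * L + 16 * L ^ 2 / η') := (min_le_right _ _).trans (min_le_right _ _)
  have hε5 : ε * (8 * L + 16 * L ^ 2 / η') ≤ η := by
    rwa [le_div_iff₀ (by positivity)] at hε4
  have hB : ∀ (v w b z₀ : ℝ × ℝ) (l : ℝ), |v.1| ≤ L → |v.2| ≤ L → 0 < l →
      |v.1 * w.2 - v.2 * w.1| < η' → κ < |v.1| → |w.1| ≤ |v.1| →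
      volume (area_set ε v w b z₀ l) ≤
        ENNReal.ofReal ((|v.1 * w.2 - v.2 * w.1| + η) * l ^ 2) := by
    intro v w b z₀ l h1 h2 hl hJ hv hw
    have hvpos : 0 < |v.1| := hκ.trans hv
    refine (area_caseB hε v w b z₀ l h1 h2 hw hl (abs_pos.mp hvpos)).trans ?_
    apply ENNReal.ofReal_le_ofReal
    set J := v.1 * w.2 - v.2 * w.1 with hJdef
    have hq : |J| / |v.1| ≤ δ := by
      rw [div_le_iff₀ hvpos]
      calc |J| ≤ κ * δ := hJ.le
        _ ≤ |v.1| * δ := by gcongr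
        _ = δ * |v.1| := mul_comm _ _
    have hl2 : 0 < l ^ 2 := by positivity
    have e1 : 2 * (2 * L + ε) * l * (2 * (|J| / |v.1| + 2 * ε) * l) =
        (4 * (2 * L + ε) * (|J| / |v.1| + 2 * ε)) * l ^ 2 := by ring
    rw [e1]
    apply mul_le_mul_of_nonneg_right _ hl2.le
    calc 4 * (2 * L + ε) * (|J| / |v.1| + 2 * ε) ≤ 4 * (2 * L + 1) * (δ + 2 * δ) := by
          gcongr
      _ = η := by
          rw [hδdef]
          field_simp
          ring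
      _ ≤ |J| + η := by linarith [abs_nonneg J]
  refine ⟨ε, hε, ?_⟩
  intro v w b z₀ l h1 h2 h3 h4 hl
  have hl2 : 0 < l ^ 2 := by positivity
  change volume (area_set ε v w b z₀ l) ≤ _
  by_cases hJ : η' ≤ |v.1 * w.2 - v.2 * w.1|
  · have hJpos : 0 < |v.1 * w.2 - v.2 * w.1| := hη'.trans_le hJ
    refine (area_caseA hε v w b z₀ l h1 h2 h3 h4 hl (abs_pos.mp hJpos)).trans ?_
    apply ENNReal.ofReal_le_ofReal
    set J := |v.1 * w.2 - v.2 * w.1| with hJdef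
    have e1 : J * ((l + 2 * (2 * L * (ε * l) / J)) * (l + 2 * (2 * L * (ε * l) / J))) =
        (J + (8 * L * ε + 16 * L ^ 2 * ε ^ 2 / J)) * l ^ 2 := by
      field_simp
      ring
    rw [e1]
    apply mul_le_mul_of_nonneg_right _ hl2.le
    have e2 : 16 * L ^ 2 * ε ^ 2 / J ≤ 16 * L ^ 2 * ε ^ 2 / η' := by gcongr
    have e3 : 16 * L ^ 2 * ε ^ 2 / η' ≤ 16 * L ^ 2 * ε / η' := by
      apply div_le_div_of_nonneg_right _ hη'.le
      have : ε ^ 2 ≤ ε := by nlinarith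
      have h16 : 0 ≤ 16 * L ^ 2 := by positivity
      nlinarith
    have e4 : 8 * L * ε + 16 * L ^ 2 * ε / η' = ε * (8 * L + 16 * L ^ 2 / η') := by ring
    linarith
  · push Not at hJ
    by_cases c1 : κ < max |v.1| |w.1|
    · rcases le_total |w.1| |v.1| with hw | hw
      · rw [max_eq_left hw] at c1
        exact hB v w b z₀ l h1 h2 hl hJ c1 hw
      · rw [max_eq_right hw] at c1
        have hJ' : |w.1 * v.2 - w.2 * v.1| = |v.1 * w.2 - v.2 * w.1| := by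
          rw [← abs_neg]; congr 1; ring
        have := hB w v b.swap z₀ l h3 h4 hl (by rw [hJ']; exact hJ) c1 hw
        rw [hJ'] at this
        exact (area_swap2 ε v w b z₀ l).trans this
    · by_cases c2 : κ < max |v.2| |w.2|
      · rcases le_total |w.2| |v.2| with hw | hw
        · rw [max_eq_left hw] at c2
          have hJ' : |v.swap.1 * w.swap.2 - v.swap.2 * w.swap.1| =
              |v.1 * w.2 - v.2 * w.1| := by
            simp only [Prod.fst_swap, Prod.snd_swap]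
            rw [← abs_neg]; congr 1; ring
          have := hB v.swap w.swap b z₀.swap l h2 h1 hl (by rw [hJ']; exact hJ) c2 hw
          rw [hJ'] at this
          rw [area_swap1]
          exact this
        · rw [max_eq_right hw] at c2
          have hJ' : |w.swap.1 * v.swap.2 - w.swap.2 * v.swap.1| =
              |v.1 * w.2 - v.2 * w.1| := by
            simp only [Prod.fst_swap, Prod.snd_swap]
            congr 1; ring
          have := hB w.swap v.swap b.swap z₀.swap l h4 h3 hl (by rw [hJ']; exact hJ) c2 hw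
          rw [hJ'] at this
          refine (area_swap2 ε v w b z₀ l).trans ?_
          rw [area_swap1]
          exact this
      · push Not at c1 c2
        refine (area_caseZ hε v w b z₀ l ((le_max_left _ _).trans c1)
          ((le_max_left _ _).trans c2) ((le_max_right _ _).trans c1)
          ((le_max_right _ _).trans c2) hl).trans ?_
        apply ENNReal.ofReal_le_ofReal
        have e1 : 2 * (2 * κ + ε) * l * (2 * (2 * κ + ε) * l) =
            (4 * (2 * κ + ε) ^ 2) * l ^ 2 := by ring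
        rw [e1]
        apply mul_le_mul_of_nonneg_right _ hl2.le
        have e2 : (2 * κ + ε) ^ 2 ≤ (3 * κ) ^ 2 := by
          apply pow_le_pow_left₀ (by positivity)
          linarith
        have e3 : κ ^ 2 ≤ κ := by nlinarith
        have e4 : 4 * (2 * κ + ε) ^ 2 ≤ 36 * κ := by nlinarith
        have e5 : 36 * κ ≤ η := by linarith
        linarith [abs_nonneg (v.1 * w.2 - v.2 * w.1)]

end Pool.Agent.Helper8.PL
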