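import Pool.Agent.Helper8.PL.Defs

/-! Project PL: piece PL-G, basic facts on wiring diagrams. -/

namespace Pool.Agent.Helper8.PL

open Wiring Finset

variable {d : ℕ} (W : Wiring d)

theorem basic_step {k : ℕ} (hk : k < W.M) (i : Fin d) :
    ((W.pos k i < W.lo k ∨ W.hi k ≤ W.pos k i) ∧ W.pos (k + 1) i = W.pos k i) ∨
      ((W.lo k ≤ W.pos k i ∧ W.pos k i < W.hi k) ∧
        W.pos (k + 1) i + W.pos k i + 1 = W.lo k + W.hi k) := by
  by_cases h : W.pos k i < W.lo k ∨ W.hi k ≤ W.pos k i
  · exact Or.inl ⟨h, W.fixed k hk i h⟩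
  · push Not at h
    exact Or.inr ⟨h, W.flip k hk i h.1 h.2⟩

theorem basic_aux {k : ℕ} (hk : k ≤ W.M) :
    (∀ i, W.pos k i < d) ∧ ∀ i j : Fin d, W.pos k i = W.pos k j → i = j := by
  induction k with
  | zero =>
    refine ⟨fun i => by rw [W.start]; exact i.2, fun i j h => ?_⟩
    rw [W.start, W.start] at h
    exact Fin.ext h
  | succ k ih =>
    have hk' : k < W.M := by omega
    obtain ⟨ih1, ih2⟩ := ih (by omega)
    have htwo := W.two_le k hk'
    have hled := W.le_d k hk'
    constructor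
    · intro i
      have h1 := ih1 i
      rcases basic_step W hk' i with h | h <;> omega
    · intro i j h
      apply ih2
      rcases basic_step W hk' i with h1 | h1 <;> rcases basic_step W hk' j with h2 | h2 <;> omega

theorem pos_lt {k : ℕ} (hk : k ≤ W.M) (i : Fin d) : W.pos k i < d :=
  (basic_aux W hk).1 i

theorem pos_inj {k : ℕ} (hk : k ≤ W.M) {i j : Fin d} (h : W.pos k i = W.pos k j) : i = j :=
  (basic_aux W hk).2 i j h

/-- every height is taken -/
theorem pos_surj {k : ℕ} (hk : k ≤ W.M) {x : ℕ} (hx : x < d) : ∃ i, W.pos k i = x := by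
  let g : Fin d → Fin d := fun i => ⟨W.pos k i, pos_lt W hk i⟩
  have hg : Function.Injective g := by
    intro i j h
    apply pos_inj W hk
    exact congrArg Fin.val h
  obtain ⟨i, hi⟩ := (Finite.injective_iff_surjective.1 hg) ⟨x, hx⟩
  exact ⟨i, congrArg Fin.val hi⟩

/-- an inverted pair stays inverted -/
theorem inv_mono {k l : ℕ} (hkl : k ≤ l) (hl : l ≤ W.M) {i j : Fin d} (hij : i < j)
    (h : W.pos k j < W.pos k i) : W.pos l j < W.pos l i := by
  induction l with
  | zero =>
    obtain rfl : k = 0 := by omega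
    exact h
  | succ l ih =>
    rcases Nat.lt_or_ge l k with h1 | h1
    · obtain rfl : k = l + 1 := by omega
      exact h
    · have hl' : l < W.M := by omega
      have h2 := ih h1 (by omega)
      have h5 : ¬ (W.lo l ≤ W.pos l j ∧ W.pos l i < W.hi l) := by
        rintro ⟨h3, h4⟩
        have h6 := W.sorted l hl' j i h3 h2 h4
        exact absurd hij (not_lt.2 h6.le)
      rcases basic_step W hl' i with h3 | h3 <;> rcases basic_step W hl' j with h4 | h4 <;> omega

/-- the lines at the heights in an interval -/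
theorem basic_card_Ico {k : ℕ} (hk : k ≤ W.M) {a b : ℕ} (hb : b ≤ d) :
    (univ.filter fun i : Fin d => a ≤ W.pos k i ∧ W.pos k i < b).card = b - a := by
  rw [← Nat.card_Ico a b]
  refine Finset.card_bij (fun i _ => W.pos k i) ?_ ?_ ?_
  · intro i hi
    rw [mem_filter] at hi
    rw [Finset.mem_Ico]
    exact hi.2
  · intro i _ j _ h
    exact pos_inj W hk h
  · intro x hx
    rw [Finset.mem_Ico] at hx
    obtain ⟨i, hi⟩ := pos_surj W hk (lt_of_lt_of_le hx.2 hb)
    refine ⟨i, ?_, hi⟩
    rw [mem_filter, hi]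
    exact ⟨mem_univ _, hx⟩

theorem card_B {k : ℕ} (hk : k < W.M) : (W.B k).card = W.mult k :=
  basic_card_Ico W hk.le (W.le_d k hk)

/-- the two halves of the vertex `k` -/
theorem cnt_hi (N e : ℕ) {k : ℕ} (hk : k < W.M) :
    W.cnt N e k (W.hi k) = W.cnt N e k (W.lo k) + W.u N e k := by
  have htwo := W.two_le k hk
  unfold Wiring.cnt Wiring.u Wiring.B
  rw [← Finset.card_union_of_disjoint]
  · congr 1
    ext i
    simp only [mem_filter, mem_union, mem_univ, true_and]
    constructor
    · rintro ⟨h1, h2⟩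
      rcases Nat.lt_or_ge (W.pos k i) (W.lo k) with h3 | h3
      · exact Or.inl ⟨h1, h3⟩
      · exact Or.inr ⟨⟨h3, h2⟩, h1⟩
    · rintro (⟨h1, h2⟩ | ⟨⟨h1, h2⟩, h3⟩)
      · exact ⟨h1, by omega⟩
      · exact ⟨h3, h2⟩
  · rw [Finset.disjoint_left]
    intro i h1 h2
    simp only [mem_filter, mem_univ, true_and] at h1 h2
    omega

/-- the sign pattern: for two cuts, the second one to the right -/
theorem cnt_sign {N c c' k l x y : ℕ} (hkl : k ≤ l) (hl : l ≤ W.M) (hc : c < c') :
    W.cnt N c l y ≤ W.cnt N c k x ∨ W.cnt N c' k x ≤ W.cnt N c' l y := by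
  by_contra hcon
  push Not at hcon
  obtain ⟨h1, h2⟩ := hcon
  unfold Wiring.cnt at h1 h2
  obtain ⟨i, hi1, hi2⟩ := Finset.exists_mem_notMem_of_card_lt_card h1
  obtain ⟨j, hj1, hj2⟩ := Finset.exists_mem_notMem_of_card_lt_card h2
  simp only [mem_filter, mem_univ, true_and, not_and, not_lt] at hi1 hi2 hj1 hj2
  have h3 := hi2 hi1.1
  have h4 := hj2 hj1.1
  have hij : i < j := by
    rw [Fin.lt_def]
    by_contra h5
    push Not at h5
    have h6 : (j : ℕ) / N ≤ (i : ℕ) / N := Nat.div_le_div_right h5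
    omega
  have h5 := inv_mono W hkl hl hij (by omega)
  omega

/-- all classes are smaller than `m` -/
theorem basic_div_lt {N m : ℕ} (hN : 0 < N) (hm : d ≤ m * N) (i : Fin d) : (i : ℕ) / N < m := by
  rw [Nat.div_lt_iff_lt_mul hN]
  exact lt_of_lt_of_le i.2 hm

theorem sum_cnt {N m k x : ℕ} (hN : 0 < N) (hm : d ≤ m * N) (hk : k ≤ W.M) (hx : x ≤ d) :
    ∑ e ∈ range m, W.cnt N e k x = x := by
  have h1 : (univ.filter fun i : Fin d => W.pos k i < x).card = x := by
    have h2 := basic_card_Ico W hk (a := 0) hx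
    simpa using h2
  conv_rhs => rw [← h1]
  rw [Finset.card_eq_sum_card_fiberwise (f := fun i : Fin d => (i : ℕ) / N) (t := range m)]
  · refine Finset.sum_congr rfl fun e _ => ?_
    unfold Wiring.cnt
    congr 1
    ext i
    simp only [mem_filter, mem_univ, true_and]
    exact and_comm
  · intro i _
    simp only [coe_range, Set.mem_Iio]
    exact basic_div_lt hN hm i

theorem sum_mul_cnt {N m : ℕ} (hN : 0 < N) (hm : d ≤ m * N) (k x : ℕ) :
    ∑ e ∈ range m, e * W.cnt N e k x = W.T N k x := by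
  unfold Wiring.T
  rw [← Finset.sum_fiberwise_of_maps_to (s := univ.filter fun i : Fin d => W.pos k i < x)
    (t := range m) (g := fun i : Fin d => (i : ℕ) / N)
    (fun i _ => mem_range.2 (basic_div_lt hN hm i))]
  refine Finset.sum_congr rfl fun e _ => ?_
  have h1 : ∀ i ∈ (univ.filter fun i : Fin d => W.pos k i < x).filter
      (fun i : Fin d => (i : ℕ) / N = e), (i : ℕ) / N = e := fun i hi => (mem_filter.1 hi).2
  rw [Finset.sum_congr rfl h1, Finset.sum_const, smul_eq_mul, mul_comm]
  unfold Wiring.cnt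
  congr 2
  ext i
  simp only [mem_filter, mem_univ, true_and]
  exact and_comm

end Pool.Agent.Helper8.PL
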