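import Pool.Agent.Helper8.PL.Defs

/-! Project PL: normalised counting functions and squares. -/

namespace Pool.Agent.Helper8.PL

/-- the wedge product of two vectors in the plane -/
def wd (v w : ℝ × ℝ) : ℝ := v.1 * w.2 - v.2 * w.1

namespace Wiring

variable {d : ℕ} (W : Wiring d)

/-- the second coordinate of the cut `(k, x)`; the first one is `x / d` -/
noncomputable def tt (N k x : ℕ) : ℝ := (W.T N k x : ℝ) / d

/-- the normalised counting function -/
noncomputable def F (N e k x : ℕ) : ℝ := (W.cnt N e k x : ℝ) / d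

open Classical in
/-- the vertices whose lower corner is in the square with the lower left corner `(s, t)` and the
side `l` -/
noncomputable def VQ (N : ℕ) (s t l : ℝ) : Finset ℕ :=
  (Finset.range W.M).filter fun k =>
    (s ≤ (W.lo k : ℝ) / d ∧ (W.lo k : ℝ) / d < s + l) ∧
      (t ≤ W.tt N k (W.lo k) ∧ W.tt N k (W.lo k) < t + l)

/-- the mass of the pair `c`, `c'` of classes in a set of vertices -/
noncomputable def mass (N c c' : ℕ) (K : Finset ℕ) : ℝ :=
  (∑ k ∈ K, (W.u N c k : ℝ) * W.u N c' k) / (d : ℝ) ^ 2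

/-- the square with the lower left corner `(s, t)` and the side `l` is in the interior -/
structure Inner (N : ℕ) (s t l : ℝ) : Prop where
  left : 3 * l ≤ s
  right : s + 3 * l ≤ 1
  bot : ∀ x ≤ d, |(x : ℝ) / d - s| ≤ 3 * l → W.tt N 0 x ≤ t - 3 * l
  top : ∀ x ≤ d, |(x : ℝ) / d - s| ≤ 3 * l → t + 3 * l ≤ W.tt N W.M x

/-- the vertex `k` (as a tile of the dual tiling) is far from the square -/
def Far (N : ℕ) (s t l : ℝ) (k : ℕ) : Prop :=
  ∀ x ≤ d, W.lo k ≤ x → x ≤ W.hi k → |(x : ℝ) / d - s| ≤ 3 * l →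
    W.tt N (k + 1) x < t - 3 * l ∨ t + 3 * l < W.tt N k x

/-- The situation in which the counting functions are almost affine near a square in the
interior; the vertices which are not far from the square have multiplicity at most `δ d`. -/
structure Loc (N m : ℕ) (s t l δ ε : ℝ) (v : ℕ → ℝ × ℝ) (b : ℕ → ℝ) : Prop where
  hd : 0 < d
  hN : 0 < N
  hm : d ≤ m * N
  hl : 0 < l
  mult : ∀ k < W.M, (W.mult k : ℝ) ≤ δ * d ∨ W.Far N s t l k
  one : 1 ≤ δ * d
  inner : W.Inner N s t l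
  v1 : ∀ e < m, |(v e).1| ≤ 2 * m + 2
  v2 : ∀ e < m, |(v e).2| ≤ 2 * m + 2
  aff : ∀ k ≤ W.M, ∀ x ≤ d, |(x : ℝ) / d - s| ≤ 4 * l → |W.tt N k x - t| ≤ 4 * l → ∀ e < m,
    |W.F N e k x - ((v e).1 * ((x : ℝ) / d) + (v e).2 * W.tt N k x + b e)| ≤ ε * l

/-- the square of order `n` which contains the lower corner of the vertex `k` -/
noncomputable def sq (N n k : ℕ) : ℕ × ℕ :=
  (⌊(W.lo k : ℝ) / d * 2 ^ n⌋₊, ⌊W.tt N k (W.lo k) * 2 ^ n⌋₊)

end Wiring

end Pool.Agent.Helper8.PL
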