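import Pool.Agent.Helper8.PL.Lip
import Pool.Agent.Helper8.PL.Defs2

/-! PL-R: the number of squares near the boundary. -/

namespace Pool.Agent.Helper8.PL

open Wiring Finset MeasureTheory

private lemma bdry_tt_mono {d : ℕ} (W : Wiring d) {N k l x : ℕ} (hkl : k ≤ l) (hl : l ≤ W.M)
    (hx : x ≤ d) : W.tt N k x ≤ W.tt N l x := by
  unfold Wiring.tt
  have := T_mono W (N := N) hkl hl hx
  have h2 : (W.T N k x : ℝ) ≤ W.T N l x := by exact_mod_cast this
  exact div_le_div_of_nonneg_right h2 (Nat.cast_nonneg d)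

private lemma bdry_tt_right {d : ℕ} (W : Wiring d) {N k x y : ℕ} (hxy : x ≤ y) :
    W.tt N k x ≤ W.tt N k y := by
  unfold Wiring.tt
  have := T_mono_right W (N := N) (k := k) hxy
  have h2 : (W.T N k x : ℝ) ≤ W.T N k y := by exact_mod_cast this
  exact div_le_div_of_nonneg_right h2 (Nat.cast_nonneg d)

/-- Lipschitz in both directions -/
private lemma bdry_tt_lip {d : ℕ} (W : Wiring d) {N m k x y : ℕ} (hd : 0 < d) (hN : 0 < N)
    (hm : d ≤ m * N) (hk : k ≤ W.M) {c : ℝ} (hc : 0 ≤ c) (h : (y : ℝ) / d - (x : ℝ) / d ≤ c) :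
    W.tt N k y ≤ W.tt N k x + m * c := by
  have hd' : (0 : ℝ) < d := by exact_mod_cast hd
  rcases le_total y x with hyx | hxy
  · have := bdry_tt_right W (N := N) (k := k) hyx
    have h2 : (0 : ℝ) ≤ m * c := mul_nonneg (Nat.cast_nonneg m) hc
    linarith
  · have h1 := T_lip_right W hN hm hk hxy
    have h2 : (W.T N k y : ℝ) ≤ W.T N k x + m * ((y : ℝ) - x) := by
      have : ((W.T N k y : ℕ) : ℝ) ≤ ((W.T N k x + m * (y - x) : ℕ) : ℝ) := by exact_mod_cast h1
      rw [Nat.cast_add, Nat.cast_mul, Nat.cast_sub hxy] at this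
      exact this
    unfold Wiring.tt
    have h3 : (W.T N k y : ℝ) / d ≤ (W.T N k x + m * ((y : ℝ) - x)) / d :=
      div_le_div_of_nonneg_right h2 hd'.le
    have h4 : (W.T N k x + m * ((y : ℝ) - x)) / d =
        (W.T N k x : ℝ) / d + m * ((y : ℝ) / d - (x : ℝ) / d) := by
      field_simp
    rw [h4] at h3
    have h5 : (m : ℝ) * ((y : ℝ) / d - (x : ℝ) / d) ≤ m * c :=
      mul_le_mul_of_nonneg_left h (Nat.cast_nonneg m)
    linarith

private lemma bdry_count (n c : ℕ) (f g : ℕ → ℕ) (S : Finset (ℕ × ℕ))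
    (hS : ∀ q ∈ S, q.1 < 2 ^ n ∧ f q.1 ≤ q.2 ∧ q.2 ≤ g q.1) (hc : ∀ i, g i + 1 ≤ f i + c) :
    S.card ≤ 2 ^ n * c := by
  classical
  have h1 : S ⊆ (range (2 ^ n)).biUnion fun i => (Finset.Icc (f i) (g i)).image fun j => (i, j) := by
    intro q hq
    obtain ⟨h1, h2, h3⟩ := hS q hq
    rw [Finset.mem_biUnion]
    exact ⟨q.1, mem_range.2 h1, Finset.mem_image.2 ⟨q.2, Finset.mem_Icc.2 ⟨h2, h3⟩, rfl⟩⟩
  refine (Finset.card_le_card h1).trans (Finset.card_biUnion_le.trans ?_)
  have h2 : ∀ i ∈ range (2 ^ n), ((Finset.Icc (f i) (g i)).image fun j => (i, j)).card ≤ c := by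
    intro i _
    refine Finset.card_image_le.trans ?_
    rw [Nat.card_Icc]
    have := hc i
    omega
  refine (Finset.sum_le_card_nsmul _ _ _ h2).trans ?_
  rw [card_range, smul_eq_mul]

open Classical in
theorem card_boundary {d : ℕ} (W : Wiring d) {N m n : ℕ} (hd : 0 < d) (hN : 0 < N)
    (hm : d ≤ m * N) (h1 : 2 ^ n ≤ d) :
    ((range (m * 2 ^ n) ×ˢ range (m * 2 ^ n)).filter fun q : ℕ × ℕ =>
      (W.VQ N ((q.1 : ℝ) / 2 ^ n) ((q.2 : ℝ) / 2 ^ n) (1 / 2 ^ n)).Nonempty ∧
        ¬ W.Inner N ((q.1 : ℝ) / 2 ^ n) ((q.2 : ℝ) / 2 ^ n) (1 / 2 ^ n)).card ≤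
      40 * m * 2 ^ n := by
  have hd' : (0 : ℝ) < d := by exact_mod_cast hd
  have hm0 : 1 ≤ m := by
    rcases Nat.eq_zero_or_pos m with h | h
    · rw [h, zero_mul] at hm; omega
    · exact h
  set P : ℝ := 2 ^ n with hP
  have hP0 : 0 < P := by positivity
  have hPd : P ≤ d := by rw [hP]; exact_mod_cast h1
  have hPn : ((2 ^ n : ℕ) : ℝ) = P := by rw [hP]; push_cast; rfl
  set S := (range (m * 2 ^ n) ×ˢ range (m * 2 ^ n)).filter fun q : ℕ × ℕ =>
      (W.VQ N ((q.1 : ℝ) / P) ((q.2 : ℝ) / P) (1 / P)).Nonempty ∧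
        ¬ W.Inner N ((q.1 : ℝ) / P) ((q.2 : ℝ) / P) (1 / P) with hS
  -- the reference points
  set xs : ℕ → ℕ := fun i => ⌊(i : ℝ) / P * d⌋₊ with hxs
  set A : ℕ → ℕ := fun i => ⌊W.tt N 0 (xs i) * P⌋₊ with hA
  set B : ℕ → ℕ := fun i => ⌊W.tt N W.M (xs i) * P⌋₊ with hB
  set S2 := S.filter fun q => q.1 < 2 ^ n ∧ A q.1 ≤ q.2 ∧ q.2 ≤ A q.1 + (4 * m + 3) with hS2
  set S3 := S.filter fun q => q.1 < 2 ^ n ∧ B q.1 - (3 + 3 * m) ≤ q.2 ∧ q.2 ≤ B q.1 + 2 * m
    with hS3
  set S1 : Finset (ℕ × ℕ) := ({0, 1, 2, 2 ^ n - 1, 2 ^ n - 2} : Finset ℕ) ×ˢ range (m * 2 ^ n)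
    with hS1
  have hsub : S ⊆ S1 ∪ (S2 ∪ S3) := by
    intro q hq
    obtain ⟨hq1, ⟨k, hk⟩, hI⟩ := Finset.mem_filter.1 hq
    rw [Finset.mem_product, mem_range, mem_range] at hq1
    unfold Wiring.VQ at hk
    rw [Finset.mem_filter, mem_range] at hk
    obtain ⟨hkM, ⟨k1, k2⟩, k3, k4⟩ := hk
    have hlo : W.lo k < d := by
      have a1 := W.two_le k hkM
      have a2 := W.le_d k hkM
      omega
    have hlo' : (W.lo k : ℝ) / d < 1 := by
      rw [div_lt_one hd']
      exact_mod_cast hlo
    have hq2 : q.1 < 2 ^ n := by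
      have h2 : (q.1 : ℝ) / P < 1 := lt_of_le_of_lt k1 hlo'
      rw [div_lt_one hP0, ← hPn] at h2
      exact_mod_cast h2
    set s : ℝ := (q.1 : ℝ) / P with hs
    set t : ℝ := (q.2 : ℝ) / P with ht
    set l : ℝ := 1 / P with hl
    have hl0 : 0 < l := by positivity
    have hld : 1 / (d : ℝ) ≤ l := one_div_le_one_div_of_le hP0 hPd
    have hs0 : 0 ≤ s := by positivity
    -- the point x*
    have f1 : ((xs q.1 : ℕ) : ℝ) ≤ s * d := Nat.floor_le (by positivity)
    have f2 : s * d < (xs q.1 : ℕ) + 1 := Nat.lt_floor_add_one _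
    have f3 : ((xs q.1 : ℕ) : ℝ) / d ≤ s := by rw [div_le_iff₀ hd']; exact f1
    have f4 : s - l < ((xs q.1 : ℕ) : ℝ) / d := by
      have : s < (((xs q.1 : ℕ) : ℝ) + 1) / d := by rw [lt_div_iff₀ hd']; exact f2
      rw [add_div] at this
      linarith
    have f5 : xs q.1 ≤ W.lo k := by
      have : ((xs q.1 : ℕ) : ℝ) ≤ W.lo k := by
        have h2 : s * d ≤ W.lo k := by rw [← le_div_iff₀ hd']; exact k1
        linarith
      exact_mod_cast this
    have hxd : xs q.1 ≤ d := by omega
    have tP : t * P = q.2 := by rw [ht]; field_simp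
    have lP : l * P = 1 := by rw [hl]; field_simp
    by_cases hL : 3 * l ≤ s
    · by_cases hR : s + 3 * l ≤ 1
      · -- bottom or top
        have hbt : (∃ x ≤ d, |(x : ℝ) / d - s| ≤ 3 * l ∧ ¬ W.tt N 0 x ≤ t - 3 * l) ∨
            (∃ x ≤ d, |(x : ℝ) / d - s| ≤ 3 * l ∧ ¬ t + 3 * l ≤ W.tt N W.M x) := by
          by_contra hcon
          push Not at hcon
          exact hI ⟨hL, hR, hcon.1, hcon.2⟩
        rw [Finset.mem_union, Finset.mem_union]
        right
        rcases hbt with ⟨x, hx, hx1, hx2⟩ | ⟨x, hx, hx1, hx2⟩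
        · left
          rw [hS2, Finset.mem_filter]
          refine ⟨hq, hq2, ?_⟩
          have g1 : W.tt N 0 x ≤ W.tt N 0 (xs q.1) + m * (4 * l) := by
            apply bdry_tt_lip W hd hN hm (Nat.zero_le _) (by positivity)
            have := (abs_le.1 hx1).2
            linarith
          have g2 : W.tt N 0 (xs q.1) < t + l := by
            have a1 := bdry_tt_right W (N := N) (k := 0) f5
            have a2 := bdry_tt_mono W (N := N) (Nat.zero_le k) hkM.le hlo.le
            linarith
          have g3 : t < W.tt N 0 (xs q.1) + m * (4 * l) + 3 * l := by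
            push Not at hx2
            linarith
          have g4 : W.tt N 0 (xs q.1) * P < q.2 + 1 := by
            have := mul_lt_mul_of_pos_right g2 hP0
            rw [add_mul, tP, lP] at this
            exact this
          have g5 : (q.2 : ℝ) < W.tt N 0 (xs q.1) * P + (4 * m + 3) := by
            have := mul_lt_mul_of_pos_right g3 hP0
            rw [tP] at this
            have e : (W.tt N 0 (xs q.1) + m * (4 * l) + 3 * l) * P =
              W.tt N 0 (xs q.1) * P + (4 * m + 3) * (l * P) := by ring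
            rw [e, lP, mul_one] at this
            exact this
          have g6 : 0 ≤ W.tt N 0 (xs q.1) * P := by
            unfold Wiring.tt
            positivity
          have g7 : ((A q.1 : ℕ) : ℝ) ≤ W.tt N 0 (xs q.1) * P := Nat.floor_le g6
          have g8 : W.tt N 0 (xs q.1) * P < (A q.1 : ℕ) + 1 := Nat.lt_floor_add_one _
          constructor
          · have : ((A q.1 : ℕ) : ℝ) < q.2 + 1 := by linarith
            have : A q.1 < q.2 + 1 := by exact_mod_cast this
            omega
          · have : (q.2 : ℝ) < (A q.1 : ℕ) + 1 + (4 * m + 3) := by linarith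
            have : q.2 < A q.1 + 1 + (4 * m + 3) := by exact_mod_cast this
            omega
        · right
          rw [hS3, Finset.mem_filter]
          refine ⟨hq, hq2, ?_⟩
          have g1 : W.tt N W.M (xs q.1) ≤ W.tt N W.M x + m * (3 * l) := by
            apply bdry_tt_lip W hd hN hm le_rfl (by positivity)
            have := (abs_le.1 hx1).1
            linarith
          have g2 : t ≤ W.tt N W.M (xs q.1) + m * (2 * l) := by
            have a2 := bdry_tt_mono W (N := N) hkM.le le_rfl hlo.le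
            have a3 : W.tt N W.M (W.lo k) ≤ W.tt N W.M (xs q.1) + m * (2 * l) := by
              apply bdry_tt_lip W hd hN hm le_rfl (by positivity)
              linarith
            linarith
          have g3 : W.tt N W.M (xs q.1) < t + 3 * l + m * (3 * l) := by
            push Not at hx2
            linarith
          have g4 : W.tt N W.M (xs q.1) * P < q.2 + (3 + 3 * m) := by
            have := mul_lt_mul_of_pos_right g3 hP0
            have e : (t + 3 * l + m * (3 * l)) * P = t * P + (3 + 3 * m) * (l * P) := by ring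
            rw [e, tP, lP, mul_one] at this
            exact this
          have g5 : (q.2 : ℝ) ≤ W.tt N W.M (xs q.1) * P + 2 * m := by
            have := mul_le_mul_of_nonneg_right g2 hP0.le
            have e : (W.tt N W.M (xs q.1) + m * (2 * l)) * P =
              W.tt N W.M (xs q.1) * P + (2 * m) * (l * P) := by ring
            rw [e, tP, lP, mul_one] at this
            exact this
          have g6 : 0 ≤ W.tt N W.M (xs q.1) * P := by
            unfold Wiring.tt
            positivity
          have g7 : ((B q.1 : ℕ) : ℝ) ≤ W.tt N W.M (xs q.1) * P := Nat.floor_le g6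
          have g8 : W.tt N W.M (xs q.1) * P < (B q.1 : ℕ) + 1 := Nat.lt_floor_add_one _
          constructor
          · have : ((B q.1 : ℕ) : ℝ) < q.2 + (3 + 3 * m) := by linarith
            have : B q.1 < q.2 + (3 + 3 * m) := by exact_mod_cast this
            omega
          · have : (q.2 : ℝ) < (B q.1 : ℕ) + 1 + 2 * m := by linarith
            have : q.2 < B q.1 + 1 + 2 * m := by exact_mod_cast this
            omega
      · rw [Finset.mem_union]
        left
        rw [hS1, Finset.mem_product, mem_range]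
        refine ⟨?_, hq1.2⟩
        have : (2 ^ n : ℕ) < q.1 + 3 := by
          push Not at hR
          have h2 := mul_lt_mul_of_pos_right hR hP0
          have e : (s + 3 * l) * P = q.1 + 3 := by
            rw [add_mul, mul_assoc, lP, hs]; field_simp
          rw [e, one_mul, ← hPn] at h2
          exact_mod_cast h2
        simp only [Finset.mem_insert, Finset.mem_singleton]
        omega
    · rw [Finset.mem_union]
      left
      rw [hS1, Finset.mem_product, mem_range]
      refine ⟨?_, hq1.2⟩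
      have : q.1 < 3 := by
        push Not at hL
        have h2 := mul_lt_mul_of_pos_right hL hP0
        have e : s * P = q.1 := by rw [hs]; field_simp
        rw [e, mul_assoc, lP, mul_one] at h2
        exact_mod_cast h2
      simp only [Finset.mem_insert, Finset.mem_singleton]
      omega
  have c1 : S1.card ≤ 5 * (m * 2 ^ n) := by
    rw [hS1, Finset.card_product, card_range]
    exact Nat.mul_le_mul_right _ Finset.card_le_five
  have c2 : S2.card ≤ 2 ^ n * (4 * m + 4) := by
    apply bdry_count n (4 * m + 4) A (fun i => A i + (4 * m + 3)) S2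
    · intro q hq
      exact (Finset.mem_filter.1 hq).2
    · intro i
      show A i + (4 * m + 3) + 1 ≤ A i + (4 * m + 4)
      omega
  have c3 : S3.card ≤ 2 ^ n * (5 * m + 4) := by
    apply bdry_count n (5 * m + 4) (fun i => B i - (3 + 3 * m)) (fun i => B i + 2 * m) S3
    · intro q hq
      exact (Finset.mem_filter.1 hq).2
    · intro i
      show B i + 2 * m + 1 ≤ B i - (3 + 3 * m) + (5 * m + 4)
      omega
  have c4 : S.card ≤ S1.card + (S2.card + S3.card) :=
    (Finset.card_le_card hsub).trans ((Finset.card_union_le _ _).trans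
      (Nat.add_le_add_left (Finset.card_union_le _ _) _))
  have c5 : 5 * (m * 2 ^ n) + (2 ^ n * (4 * m + 4) + 2 ^ n * (5 * m + 4)) ≤ 40 * m * 2 ^ n := by
    have : 2 ^ n * 1 ≤ 2 ^ n * m := Nat.mul_le_mul_left _ hm0
    nlinarith
  omega

end Pool.Agent.Helper8.PL
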