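import Pool.Agent.Helper8.PL.Pair
import Pool.Agent.Helper8.PL.Defs2

/-! Project PL: piece PL-X, few vertices of large multiplicity. -/

namespace Pool.Agent.Helper8.PL

open Wiring Finset MeasureTheory

/-- `∑ r (r - 1) = d (d - 1)` -/
private lemma big_sum {d : ℕ} (W : Wiring d) :
    ∑ k ∈ range W.M, (W.mult k : ℝ) * (W.mult k - 1) = (d : ℝ) * (d - 1) := by
  have h := pair_sum W (fun _ _ => 1)
  have h1 : ∀ k ∈ range W.M, ∑ i ∈ W.B k, ∑ _j ∈ (W.B k).erase i, (1 : ℝ) =
      (W.mult k : ℝ) * (W.mult k - 1) := by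
    intro k hk
    have hk' := mem_range.1 hk
    have hc := card_B W hk'
    have h2 : ∀ i ∈ W.B k, ∑ _j ∈ (W.B k).erase i, (1 : ℝ) = (W.mult k : ℝ) - 1 := by
      intro i hi
      rw [sum_const, card_erase_of_mem hi, hc, nsmul_eq_mul, mul_one]
      have h3 : 1 ≤ W.mult k := by
        rw [← hc]
        exact card_pos.2 ⟨i, hi⟩
      rw [Nat.cast_sub h3, Nat.cast_one]
    rw [sum_congr rfl h2, sum_const, hc, nsmul_eq_mul]
  rw [sum_congr rfl h1] at h
  rw [h]
  have h2 : ∀ i ∈ (univ : Finset (Fin d)), ∑ _j ∈ univ.erase i, (1 : ℝ) = (d : ℝ) - 1 := by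
    intro i hi
    rw [sum_const, card_erase_of_mem hi, card_univ, Fintype.card_fin, nsmul_eq_mul, mul_one]
    have h3 : 1 ≤ d := by
      have := i.2
      omega
    rw [Nat.cast_sub h3, Nat.cast_one]
  rw [sum_congr rfl h2, sum_const, card_univ, Fintype.card_fin, nsmul_eq_mul]

/-- two vertices have at most one common line -/
private lemma big_inter {d : ℕ} (W : Wiring d) {k l : ℕ} (hk : k < W.M) (hl : l < W.M)
    (hkl : k ≠ l) : (W.B k ∩ W.B l).card ≤ 1 := by
  classical
  rw [card_le_one]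
  intro i hi j hj
  by_contra hij
  rw [mem_inter] at hi hj
  have h := pair_sum W (fun a b => if a = i ∧ b = j then 1 else 0)
  have hR : ∑ a, ∑ b ∈ univ.erase a, (if a = i ∧ b = j then (1 : ℝ) else 0) = 1 := by
    rw [sum_eq_single i]
    · rw [sum_eq_single j]
      · simp
      · intro b _ hb
        rw [if_neg]
        exact fun h => hb h.2
      · intro h1
        exact absurd (mem_erase.2 ⟨Ne.symm hij, mem_univ _⟩) h1
    · intro a _ ha
      apply sum_eq_zero
      intro b _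
      rw [if_neg]
      exact fun h => ha h.1
    · intro h1
      exact absurd (mem_univ _) h1
  have hL : ∀ n, i ∈ W.B n → j ∈ W.B n →
      ∑ a ∈ W.B n, ∑ b ∈ (W.B n).erase a, (if a = i ∧ b = j then (1 : ℝ) else 0) = 1 := by
    intro n hin hjn
    rw [sum_eq_single i]
    · rw [sum_eq_single j]
      · simp
      · intro b _ hb
        rw [if_neg]
        exact fun h => hb h.2
      · intro h1
        exact absurd (mem_erase.2 ⟨Ne.symm hij, hjn⟩) h1
    · intro a _ ha
      apply sum_eq_zero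
      intro b _
      rw [if_neg]
      exact fun h => ha h.1
    · intro h1
      exact absurd hin h1
  have h0 : ∀ n ∈ range W.M, 0 ≤ ∑ a ∈ W.B n, ∑ b ∈ (W.B n).erase a,
      (if a = i ∧ b = j then (1 : ℝ) else 0) := by
    intro n _
    apply sum_nonneg
    intro a _
    apply sum_nonneg
    intro b _
    split_ifs <;> norm_num
  have h2 : ∑ n ∈ ({k, l} : Finset ℕ), ∑ a ∈ W.B n, ∑ b ∈ (W.B n).erase a,
      (if a = i ∧ b = j then (1 : ℝ) else 0) ≤ ∑ n ∈ range W.M, ∑ a ∈ W.B n,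
        ∑ b ∈ (W.B n).erase a, (if a = i ∧ b = j then (1 : ℝ) else 0) := by
    apply sum_le_sum_of_subset_of_nonneg
    · intro n hn
      rw [mem_insert, mem_singleton] at hn
      rw [mem_range]
      rcases hn with rfl | rfl <;> assumption
    · intro n hn _
      exact h0 n hn
  rw [sum_pair hkl, hL k hi.1 hj.1, hL l hi.2 hj.2, h, hR] at h2
  norm_num at h2

private lemma big_union {d : ℕ} (W : Wiring d) (S : Finset ℕ) (hS : ∀ k ∈ S, k < W.M) :
    ∑ k ∈ S, (W.B k).card ≤ (S.biUnion W.B).card + S.card ^ 2 := by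
  classical
  induction S using Finset.induction_on with
  | empty => simp
  | insert k S hk ih =>
    have ih := ih fun n hn => hS n (mem_insert_of_mem hn)
    rw [sum_insert hk, biUnion_insert, card_insert_of_notMem hk]
    have h1 := card_union_add_card_inter (W.B k) (S.biUnion W.B)
    have h2 : (W.B k ∩ S.biUnion W.B).card ≤ S.card := by
      rw [inter_biUnion]
      calc (S.biUnion fun x => W.B k ∩ W.B x).card ≤ ∑ x ∈ S, (W.B k ∩ W.B x).card :=
            card_biUnion_le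
        _ ≤ ∑ _x ∈ S, 1 := sum_le_sum fun x hx => big_inter W (hS k (mem_insert_self _ _))
            (hS x (mem_insert_of_mem hx)) (fun h => hk (h ▸ hx))
        _ = S.card := by simp
    nlinarith

open Classical in
theorem few_big {ε δ : ℝ} (hε : 0 < ε) (hε1 : ε < 1) (hδ : 0 < δ) : ∃ d₀ : ℕ, ∀ {d : ℕ} (W : Wiring d),
    d₀ ≤ d → (∀ k < W.M, (W.mult k : ℝ) ≤ (1 - ε) * d) →
      ∑ k ∈ (range W.M).filter (fun k => δ * d < W.mult k),
        (W.mult k : ℝ) * (W.mult k - 1) ≤ (1 - ε / 2) * (d : ℝ) ^ 2 := by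
  refine ⟨⌈2 * (2 / δ ^ 2) ^ 2 / ε⌉₊ + 1, fun {d} W hd hm => ?_⟩
  set S := (range W.M).filter (fun k => δ * d < W.mult k) with hS
  have hSM : ∀ k ∈ S, k < W.M := fun k hk => mem_range.1 (mem_filter.1 hk).1
  have hSδ : ∀ k ∈ S, δ * d < W.mult k := fun k hk => (mem_filter.1 hk).2
  have hd1 : (1 : ℝ) ≤ d := by
    have : 1 ≤ d := by omega
    exact_mod_cast this
  have hd0 : (0 : ℝ) < d := by linarith
  have hd2 : 2 * (2 / δ ^ 2) ^ 2 / ε ≤ d := by
    have h1 := Nat.le_ceil (2 * (2 / δ ^ 2) ^ 2 / ε)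
    have h2 : ((⌈2 * (2 / δ ^ 2) ^ 2 / ε⌉₊ : ℕ) : ℝ) ≤ d := by
      exact_mod_cast (Nat.le_succ _).trans hd
    linarith
  have hr2 : ∀ k ∈ range W.M, (2 : ℝ) ≤ W.mult k := by
    intro k hk
    have h1 := W.two_le k (mem_range.1 hk)
    have h2 : 2 ≤ W.mult k := by
      unfold Wiring.mult
      omega
    exact_mod_cast h2
  -- few vertices
  have hC : (S.card : ℝ) ≤ 2 / δ ^ 2 := by
    have h1 : (S.card : ℝ) * (δ * d) ^ 2 ≤ 2 * (d : ℝ) ^ 2 := by
      calc (S.card : ℝ) * (δ * d) ^ 2 = ∑ _k ∈ S, (δ * d) ^ 2 := by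
            rw [sum_const, nsmul_eq_mul]
        _ ≤ ∑ k ∈ S, 2 * ((W.mult k : ℝ) * (W.mult k - 1)) := by
            apply sum_le_sum
            intro k hk
            have h2 := hSδ k hk
            have h3 := hr2 k (mem_range.2 (hSM k hk))
            have h4 : 0 < δ * d := by positivity
            nlinarith
        _ ≤ ∑ k ∈ range W.M, 2 * ((W.mult k : ℝ) * (W.mult k - 1)) := by
            apply sum_le_sum_of_subset_of_nonneg (filter_subset _ _)
            intro k hk _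
            have h3 := hr2 k hk
            nlinarith
        _ = 2 * ((d : ℝ) * (d - 1)) := by rw [← mul_sum, big_sum]
        _ ≤ 2 * (d : ℝ) ^ 2 := by nlinarith
    rw [le_div_iff₀ (by positivity)]
    have h5 : 0 < (d : ℝ) ^ 2 := by positivity
    have h6 : (S.card : ℝ) * δ ^ 2 * (d : ℝ) ^ 2 ≤ 2 * (d : ℝ) ^ 2 := by
      calc (S.card : ℝ) * δ ^ 2 * (d : ℝ) ^ 2 = (S.card : ℝ) * (δ * d) ^ 2 := by ring
        _ ≤ _ := h1
    exact le_of_mul_le_mul_right h6 h5
  have hsum : ∑ k ∈ S, (W.mult k : ℝ) ≤ d + (2 / δ ^ 2) ^ 2 := by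
    have h1 := big_union W S hSM
    have h2 : (S.biUnion W.B).card ≤ d := by
      have := card_le_univ (S.biUnion W.B)
      rwa [Fintype.card_fin] at this
    have h3 : ∑ k ∈ S, (W.mult k : ℝ) = ((∑ k ∈ S, (W.B k).card : ℕ) : ℝ) := by
      rw [Nat.cast_sum]
      exact sum_congr rfl fun k hk => by rw [card_B W (hSM k hk)]
    rw [h3]
    have h4 : ((∑ k ∈ S, (W.B k).card : ℕ) : ℝ) ≤ (d : ℝ) + (S.card : ℝ) ^ 2 := by
      exact_mod_cast h1.trans (Nat.add_le_add_right h2 _)
    have h5 : (S.card : ℝ) ^ 2 ≤ (2 / δ ^ 2) ^ 2 := by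
      apply pow_le_pow_left₀ (Nat.cast_nonneg _) hC
    linarith
  have hfin : (2 / δ ^ 2) ^ 2 ≤ ε / 2 * d := by
    rw [div_le_iff₀ hε] at hd2
    linarith
  calc ∑ k ∈ S, (W.mult k : ℝ) * (W.mult k - 1) ≤ ∑ k ∈ S, (W.mult k : ℝ) * ((1 - ε) * d) := by
        apply sum_le_sum
        intro k hk
        apply mul_le_mul_of_nonneg_left _ (Nat.cast_nonneg _)
        have := hm k (hSM k hk)
        linarith
    _ = (∑ k ∈ S, (W.mult k : ℝ)) * ((1 - ε) * d) := by rw [sum_mul]
    _ ≤ (d + (2 / δ ^ 2) ^ 2) * ((1 - ε) * d) := by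
        apply mul_le_mul_of_nonneg_right hsum
        have : 0 < 1 - ε := by linarith
        positivity
    _ ≤ (d + ε / 2 * d) * ((1 - ε) * d) := by
        apply mul_le_mul_of_nonneg_right (by linarith)
        have : 0 < 1 - ε := by linarith
        positivity
    _ = (1 - ε / 2 - ε ^ 2 / 2) * (d : ℝ) ^ 2 := by ring
    _ ≤ (1 - ε / 2) * (d : ℝ) ^ 2 := by
        apply mul_le_mul_of_nonneg_right _ (by positivity)
        nlinarith

end Pool.Agent.Helper8.PL
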