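import Pool.Agent.Helper8.PL.Ineq

/-! Project PL: orbifold Chern numbers of weighted pseudoline arrangements. -/

open Finset

namespace Pool.Agent.Helper8.PL

open Wiring

variable {d : ℕ} (W : Wiring d)

/-- The square of the canonical class of the weighted arrangement: the weights `w i` are on the
lines, the vertices in `Bl` are blown up and the exceptional spheres have the weights `z k`. It is
the square of `(X - 3) H + ∑ k ∈ Bl, (1 + z k - S k) E k`, where `X` is the sum of all `w i` and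
`S k` is the sum of the `w i` over the lines through the vertex `k`. -/
noncomputable def c1sq (w : Fin d → ℝ) (z : ℕ → ℝ) (Bl : Finset ℕ) : ℝ :=
  (∑ i, w i - 3) ^ 2 - ∑ k ∈ Bl, (1 + z k - ∑ i ∈ W.B k, w i) ^ 2

/-- The Euler number of the weighted arrangement: the sum over the strata of the blown up complex
projective plane of their Euler number times the product of one minus the weights. The strata are
the complement of the lines, the lines without the vertices, the vertices that are not blown up,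
the exceptional spheres without their intersections with the lines, and these intersections. -/
noncomputable def c2 (w : Fin d → ℝ) (z : ℕ → ℝ) (Bl : Finset ℕ) : ℝ :=
  (3 - 2 * d + ∑ k ∈ range W.M, (W.mult k : ℝ) - W.M) +
    ∑ i, (1 - w i) * (2 - ((range W.M).filter fun k => i ∈ W.B k).card) +
    ∑ k ∈ range W.M \ Bl, ∏ i ∈ W.B k, (1 - w i) +
    ∑ k ∈ Bl, (1 - z k) * ((2 - W.mult k) + ∑ i ∈ W.B k, (1 - w i))

/-- exchange of the sums over lines and vertices -/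
theorem chern_swap (g : Fin d → ℝ) :
    ∑ i, g i * (((range W.M).filter fun k => i ∈ W.B k).card : ℝ) =
      ∑ k ∈ range W.M, ∑ i ∈ W.B k, g i := by
  have h1 : ∀ i : Fin d, g i * (((range W.M).filter fun k => i ∈ W.B k).card : ℝ) =
      ∑ k ∈ range W.M, if i ∈ W.B k then g i else 0 := by
    intro i
    rw [← sum_filter, sum_const, nsmul_eq_mul, mul_comm]
  rw [Finset.sum_congr rfl fun i _ => h1 i, sum_comm]
  refine Finset.sum_congr rfl fun k _ => ?_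
  rw [← sum_filter]
  refine Finset.sum_congr ?_ fun i _ => rfl
  ext i
  simp

/-- a double point -/
theorem chern_pair {k : ℕ} (hk : k < W.M) (h2 : W.mult k = 2) (w : Fin d → ℝ) :
    ∏ i ∈ W.B k, (1 - w i) = 1 - ∑ i ∈ W.B k, w i + ∏ i ∈ W.B k, w i := by
  obtain ⟨i, j, hij, hB⟩ := Finset.card_eq_two.1 ((card_B W hk).trans h2)
  rw [hB, prod_pair hij, prod_pair hij, sum_pair hij]
  ring

/-- The formula for the Euler number. -/
theorem chern_c2 (w : Fin d → ℝ) (z : ℕ → ℝ) (Bl : Finset ℕ) (hBl : Bl ⊆ range W.M)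
    (h2 : ∀ k < W.M, k ∉ Bl → W.mult k = 2) :
    c2 W w z Bl = 3 + Bl.card - 2 * ∑ i, w i - ∑ k ∈ Bl, z k * (2 - ∑ i ∈ W.B k, w i) +
      ∑ k ∈ range W.M \ Bl, ∏ i ∈ W.B k, w i := by
  have h3 : ∑ i : Fin d, (1 - w i) * (2 - (((range W.M).filter fun k => i ∈ W.B k).card : ℝ)) =
      2 * d - 2 * ∑ i, w i - ∑ k ∈ range W.M, (W.mult k : ℝ) +
        ∑ k ∈ range W.M, ∑ i ∈ W.B k, w i := by
    have e1 : ∀ i : Fin d, (1 - w i) * (2 - (((range W.M).filter fun k => i ∈ W.B k).card : ℝ)) =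
        2 - 2 * w i - (1 : ℝ) * (((range W.M).filter fun k => i ∈ W.B k).card : ℝ) +
          w i * (((range W.M).filter fun k => i ∈ W.B k).card : ℝ) := by
      intro i
      ring
    rw [Finset.sum_congr rfl fun i _ => e1 i, sum_add_distrib, sum_sub_distrib, sum_sub_distrib,
      chern_swap W (fun _ => 1), chern_swap W w, sum_const, card_univ, Fintype.card_fin,
      nsmul_eq_mul, ← mul_sum]
    have e2 : ∑ k ∈ range W.M, ∑ i ∈ W.B k, (1 : ℝ) = ∑ k ∈ range W.M, (W.mult k : ℝ) := by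
      refine Finset.sum_congr rfl fun k hk => ?_
      rw [sum_const, card_B W (mem_range.1 hk), nsmul_eq_mul, mul_one]
    rw [e2]
    ring
  have h4 : ∑ k ∈ range W.M \ Bl, ∏ i ∈ W.B k, (1 - w i) =
      ((range W.M \ Bl).card : ℝ) - ∑ k ∈ range W.M \ Bl, ∑ i ∈ W.B k, w i +
        ∑ k ∈ range W.M \ Bl, ∏ i ∈ W.B k, w i := by
    have e1 : ∀ k ∈ range W.M \ Bl, ∏ i ∈ W.B k, (1 - w i) =
        1 - ∑ i ∈ W.B k, w i + ∏ i ∈ W.B k, w i := by
      intro k hk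
      rw [mem_sdiff, mem_range] at hk
      exact chern_pair W hk.1 (h2 k hk.1 hk.2) w
    rw [Finset.sum_congr rfl e1, sum_add_distrib, sum_sub_distrib, sum_const, nsmul_eq_mul,
      mul_one]
  have h5 : ∑ k ∈ Bl, (1 - z k) * ((2 - (W.mult k : ℝ)) + ∑ i ∈ W.B k, (1 - w i)) =
      2 * Bl.card - ∑ k ∈ Bl, ∑ i ∈ W.B k, w i - ∑ k ∈ Bl, z k * (2 - ∑ i ∈ W.B k, w i) := by
    have e1 : ∀ k ∈ Bl, (1 - z k) * ((2 - (W.mult k : ℝ)) + ∑ i ∈ W.B k, (1 - w i)) =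
        2 - ∑ i ∈ W.B k, w i - z k * (2 - ∑ i ∈ W.B k, w i) := by
      intro k hk
      rw [sum_sub_distrib, sum_const, card_B W (mem_range.1 (hBl hk)), nsmul_eq_mul, mul_one]
      ring
    rw [Finset.sum_congr rfl e1, sum_sub_distrib, sum_sub_distrib, sum_const, nsmul_eq_mul]
    ring
  have h6 : ∑ k ∈ range W.M \ Bl, ∑ i ∈ W.B k, w i + ∑ k ∈ Bl, ∑ i ∈ W.B k, w i =
      ∑ k ∈ range W.M, ∑ i ∈ W.B k, w i := sum_sdiff hBl
  have h7 : ((range W.M \ Bl).card : ℝ) + Bl.card = W.M := by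
    have := card_sdiff_add_card_eq_card hBl
    rw [card_range] at this
    exact_mod_cast this
  rw [c2, h3, h4, h5]
  linarith

/-- The formula for the difference. -/
theorem chern_diff (w : Fin d → ℝ) (z : ℕ → ℝ) (Bl : Finset ℕ) (hBl : Bl ⊆ range W.M)
    (h2 : ∀ k < W.M, k ∉ Bl → W.mult k = 2) :
    3 * c2 W w z Bl - c1sq W w z Bl = -(∑ i, w i) ^ 2 +
      ∑ k ∈ range W.M \ Bl, 3 * ∏ i ∈ W.B k, w i +
      ∑ k ∈ Bl, (3 / 4 * (∑ i ∈ W.B k, w i) ^ 2 + (z k - 2 + (∑ i ∈ W.B k, w i) / 2) ^ 2) := by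
  rw [chern_c2 W w z Bl hBl h2, c1sq, ← mul_sum]
  have h3 : ∑ k ∈ Bl, (3 / 4 * (∑ i ∈ W.B k, w i) ^ 2 +
      (z k - 2 + (∑ i ∈ W.B k, w i) / 2) ^ 2) =
      3 * Bl.card - 3 * ∑ k ∈ Bl, z k * (2 - ∑ i ∈ W.B k, w i) +
        ∑ k ∈ Bl, (1 + z k - ∑ i ∈ W.B k, w i) ^ 2 := by
    have e1 : (3 : ℝ) * Bl.card = ∑ k ∈ Bl, (3 : ℝ) := by
      rw [sum_const, nsmul_eq_mul, mul_comm]
    rw [e1, mul_sum, ← sum_sub_distrib, ← sum_add_distrib]
    refine Finset.sum_congr rfl fun k _ => ?_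
    ring
  rw [h3]
  ring

/-- The lower bound of the difference. -/
theorem chern_lower (w : Fin d → ℝ) (z : ℕ → ℝ) (Bl : Finset ℕ) (hBl : Bl ⊆ range W.M)
    (h2 : ∀ k < W.M, k ∉ Bl → W.mult k = 2) {x y : ℝ} (hy : 0 ≤ y) (hw1 : ∀ i, y ≤ w i)
    (hw2 : ∀ i, w i ≤ x) :
    -(x * d) ^ 2 + 3 / 4 * y ^ 2 * ∑ k ∈ range W.M, (W.mult k : ℝ) ^ 2 +
      ∑ k ∈ Bl, (z k - 2 + (∑ i ∈ W.B k, w i) / 2) ^ 2 ≤
      3 * c2 W w z Bl - c1sq W w z Bl := by
  rw [chern_diff W w z Bl hBl h2, sum_add_distrib]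
  have h3 : (∑ i, w i) ^ 2 ≤ (x * d) ^ 2 := by
    have e1 : 0 ≤ ∑ i, w i := Finset.sum_nonneg fun i _ => hy.trans (hw1 i)
    have e2 : ∑ i, w i ≤ x * d := by
      calc ∑ i, w i ≤ ∑ i : Fin d, x := Finset.sum_le_sum fun i _ => hw2 i
        _ = x * d := by rw [sum_const, card_univ, Fintype.card_fin, nsmul_eq_mul, mul_comm]
    exact pow_le_pow_left₀ e1 e2 2
  have h4 : ∑ k ∈ range W.M \ Bl, 3 / 4 * y ^ 2 * (W.mult k : ℝ) ^ 2 ≤
      ∑ k ∈ range W.M \ Bl, 3 * ∏ i ∈ W.B k, w i := by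
    refine Finset.sum_le_sum fun k hk => ?_
    rw [mem_sdiff, mem_range] at hk
    have e1 := h2 k hk.1 hk.2
    obtain ⟨i, j, hij, hB⟩ := Finset.card_eq_two.1 ((card_B W hk.1).trans e1)
    rw [hB, prod_pair hij, e1]
    have e2 : y * y ≤ w i * w j := mul_le_mul (hw1 i) (hw1 j) hy (hy.trans (hw1 i))
    push_cast
    nlinarith
  have h5 : ∑ k ∈ Bl, 3 / 4 * y ^ 2 * (W.mult k : ℝ) ^ 2 ≤
      ∑ k ∈ Bl, 3 / 4 * (∑ i ∈ W.B k, w i) ^ 2 := by
    refine Finset.sum_le_sum fun k hk => ?_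
    have hkM := mem_range.1 (hBl hk)
    have e1 : y * W.mult k ≤ ∑ i ∈ W.B k, w i := by
      calc y * W.mult k = ∑ i ∈ W.B k, y := by
            rw [sum_const, card_B W hkM, nsmul_eq_mul, mul_comm]
        _ ≤ ∑ i ∈ W.B k, w i := Finset.sum_le_sum fun i _ => hw1 i
    have e2 : (y * W.mult k) ^ 2 ≤ (∑ i ∈ W.B k, w i) ^ 2 :=
      pow_le_pow_left₀ (by positivity) e1 2
    rw [mul_pow] at e2
    linarith
  have h6 : ∑ k ∈ range W.M \ Bl, 3 / 4 * y ^ 2 * (W.mult k : ℝ) ^ 2 +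
      ∑ k ∈ Bl, 3 / 4 * y ^ 2 * (W.mult k : ℝ) ^ 2 =
      3 / 4 * y ^ 2 * ∑ k ∈ range W.M, (W.mult k : ℝ) ^ 2 := by
    rw [sum_sdiff hBl, mul_sum]
  linarith

/-- An upper bound of the Euler number. -/
theorem chern_upper (hd : 2 ≤ d) (w : Fin d → ℝ) (z : ℕ → ℝ) (Bl : Finset ℕ)
    (hBl : Bl ⊆ range W.M) (h2 : ∀ k < W.M, k ∉ Bl → W.mult k = 2) (hw0 : ∀ i, 0 ≤ w i)
    (hw1 : ∀ i, w i ≤ 1) (hz0 : ∀ k ∈ Bl, 0 ≤ z k) (hz1 : ∀ k ∈ Bl, z k ≤ 1) :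
    c2 W w z Bl ≤ 3 * (d : ℝ) ^ 2 := by
  rw [chern_c2 W w z Bl hBl h2]
  have hd' : (2 : ℝ) ≤ d := by exact_mod_cast hd
  have hr : ∀ k ∈ range W.M, (2 : ℝ) ≤ W.mult k := by
    intro k hk
    exact_mod_cast main_two_le W (mem_range.1 hk)
  have hX : 0 ≤ ∑ i, w i := Finset.sum_nonneg fun i _ => hw0 i
  have h3 : -∑ k ∈ Bl, z k * (2 - ∑ i ∈ W.B k, w i) ≤ ∑ k ∈ Bl, ((W.mult k : ℝ) - 1) := by
    rw [← sum_neg_distrib]
    refine Finset.sum_le_sum fun k hk => ?_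
    have hkM := mem_range.1 (hBl hk)
    have e1 : ∑ i ∈ W.B k, w i ≤ W.mult k := by
      calc ∑ i ∈ W.B k, w i ≤ ∑ i ∈ W.B k, (1 : ℝ) := Finset.sum_le_sum fun i _ => hw1 i
        _ = W.mult k := by rw [sum_const, card_B W hkM, nsmul_eq_mul, mul_one]
    have e2 := hr k (hBl hk)
    have e3 := mul_le_mul_of_nonneg_left e1 (hz0 k hk)
    have e4 : 0 ≤ (1 - z k) * ((W.mult k : ℝ) - 1) :=
      mul_nonneg (by linarith [hz1 k hk]) (by linarith)
    have e5 := hz0 k hk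
    nlinarith
  have h4 : ∑ k ∈ range W.M \ Bl, ∏ i ∈ W.B k, w i ≤ ∑ k ∈ range W.M \ Bl, (1 : ℝ) :=
    Finset.sum_le_sum fun k _ => Finset.prod_le_one (fun i _ => hw0 i) (fun i _ => hw1 i)
  have h5 : (3 : ℝ) + Bl.card + ∑ k ∈ Bl, ((W.mult k : ℝ) - 1) +
      ∑ k ∈ range W.M \ Bl, (1 : ℝ) ≤ 3 + ∑ k ∈ range W.M, (W.mult k : ℝ) := by
    have e1 : (Bl.card : ℝ) + ∑ k ∈ Bl, ((W.mult k : ℝ) - 1) = ∑ k ∈ Bl, (W.mult k : ℝ) := by
      rw [sum_sub_distrib, sum_const, nsmul_eq_mul, mul_one]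
      ring
    have e2 : ∑ k ∈ range W.M \ Bl, (1 : ℝ) ≤ ∑ k ∈ range W.M \ Bl, (W.mult k : ℝ) := by
      refine Finset.sum_le_sum fun k hk => ?_
      rw [mem_sdiff] at hk
      linarith [hr k hk.1]
    have e3 : ∑ k ∈ range W.M \ Bl, (W.mult k : ℝ) + ∑ k ∈ Bl, (W.mult k : ℝ) =
      ∑ k ∈ range W.M, (W.mult k : ℝ) := sum_sdiff hBl
    linarith
  have h6 : ∑ k ∈ range W.M, (W.mult k : ℝ) ≤ d * (d - 1) := by
    rw [← main_pairs W (by omega)]
    refine Finset.sum_le_sum fun k hk => ?_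
    have := hr k hk
    nlinarith
  nlinarith

/-- The main result. -/
theorem chern_main {ε : ℝ} (hε : 0 < ε) : ∃ κ : ℝ, 0 < κ ∧ ∀ {d : ℕ} (W : Wiring d),
    (∀ k < W.M, (W.mult k : ℝ) ≤ (1 - ε) * d) →
      ∀ (x : ℝ) (w : Fin d → ℝ) (z : ℕ → ℝ) (Bl : Finset ℕ), x ≤ 1 → 1 ≤ κ * (x * d) →
        (∀ i, (1 - κ) * x ≤ w i ∧ w i ≤ x) → Bl ⊆ range W.M →
        (∀ k < W.M, k ∉ Bl → W.mult k = 2) → (∀ k ∈ Bl, κ * d < W.mult k → 0 ≤ z k) →
          c1sq W w z Bl + κ * (x * d) ^ 2 ≤ 3 * c2 W w z Bl ∧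
          (ε ≤ x → (∀ k ∈ Bl, 0 ≤ z k ∧ z k ≤ 1) →
            c1sq W w z Bl ≤ (3 - κ) * c2 W w z Bl) := by
  classical
  obtain ⟨κ₁, hκ₁, H⟩ := ineq_main hε
  obtain ⟨a, ha⟩ : ∃ a : ℝ, a = min κ₁ 1 := ⟨_, rfl⟩
  have ha0 : 0 < a := by
    rw [ha]
    exact lt_min hκ₁ one_pos
  have ha1 : a ≤ 1 := by
    rw [ha]
    exact min_le_right _ _
  have ha2 : a ≤ κ₁ := by
    rw [ha]
    exact min_le_left _ _
  obtain ⟨b, hb⟩ : ∃ b : ℝ, b = min ε 1 := ⟨_, rfl⟩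
  have hb0 : 0 < b := by
    rw [hb]
    exact lt_min hε one_pos
  have hb1 : b ≤ 1 := by
    rw [hb]
    exact min_le_right _ _
  have hb2 : b ≤ ε := by
    rw [hb]
    exact min_le_left _ _
  obtain ⟨κ, hκ⟩ : ∃ κ : ℝ, κ = a ^ 2 * b ^ 2 / 128 := ⟨_, rfl⟩
  have hκ0 : 0 < κ := by
    rw [hκ]
    positivity
  have haa : a ^ 2 ≤ a := by nlinarith
  have hbb : b ^ 2 ≤ 1 := by nlinarith
  have hκa2 : κ ≤ a ^ 2 / 128 := by
    rw [hκ]
    have e1 : a ^ 2 * b ^ 2 ≤ a ^ 2 * 1 := mul_le_mul_of_nonneg_left hbb (by positivity)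
    linarith
  have hκa : κ ≤ a / 128 := by linarith
  have hκab : κ ≤ a * b ^ 2 / 128 := by
    rw [hκ]
    have e1 : a ^ 2 * b ^ 2 ≤ a * b ^ 2 := mul_le_mul_of_nonneg_right haa (by positivity)
    linarith
  refine ⟨κ, hκ0, ?_⟩
  intro d W hmult x w z Bl hx2 hxd hw hBl h2 hz
  have hd0' : (0 : ℝ) ≤ d := by positivity
  have hx0 : 0 < x := by
    by_contra hcon
    have h1 : x * d ≤ 0 := mul_nonpos_of_nonpos_of_nonneg (not_lt.1 hcon) hd0'
    have h3 : κ * (x * d) ≤ 0 := mul_nonpos_of_nonneg_of_nonpos hκ0.le h1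
    linarith
  have hd : 1 ≤ κ * d := by
    have h1 : x * (d : ℝ) ≤ 1 * d := mul_le_mul_of_nonneg_right hx2 hd0'
    have h3 := mul_le_mul_of_nonneg_left h1 hκ0.le
    linarith
  have hd' : (0 : ℝ) < d := by
    by_contra hcon
    have h1 : (d : ℝ) = 0 := le_antisymm (not_lt.1 hcon) hd0'
    rw [h1, mul_zero] at hd
    linarith
  have hd0 : 0 < d := by exact_mod_cast hd'
  have hκ₁d : 1 ≤ κ₁ * d := hd.trans (mul_le_mul_of_nonneg_right (by linarith) hd'.le)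
  have had : 128 ≤ a * d := by
    have := mul_le_mul_of_nonneg_right hκa hd'.le
    linarith
  have haxd : 128 ≤ a ^ 2 * (x * d) := by
    have := mul_le_mul_of_nonneg_right hκa2 (by positivity : 0 ≤ x * (d : ℝ))
    linarith
  have hd2 : 2 ≤ d := by
    have h1 : (128 : ℝ) ≤ d := by nlinarith
    have h3 : (2 : ℝ) ≤ d := by linarith
    exact_mod_cast h3
  have hI := H W hκ₁d hmult
  -- the inequality with `a` in the place of `κ₁`
  have hIa : (1 + a) * (d : ℝ) ^ 2 ≤ 3 * ∑ k ∈ range W.M, (W.mult k : ℝ) +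
      ∑ k ∈ (range W.M).filter (fun k => a * d < W.mult k), (W.mult k : ℝ) ^ 2 := by
    have h1 : ∑ k ∈ (range W.M).filter (fun k => κ₁ * d < W.mult k), (W.mult k : ℝ) ^ 2 ≤
        ∑ k ∈ (range W.M).filter (fun k => a * d < W.mult k), (W.mult k : ℝ) ^ 2 := by
      refine Finset.sum_le_sum_of_subset_of_nonneg ?_ (fun k _ _ => by positivity)
      intro k hk
      rw [mem_filter] at hk
      rw [mem_filter]
      exact ⟨hk.1, lt_of_le_of_lt (mul_le_mul_of_nonneg_right ha2 hd'.le) hk.2⟩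
    have h3 : (1 + a) * (d : ℝ) ^ 2 ≤ (1 + κ₁) * (d : ℝ) ^ 2 :=
      mul_le_mul_of_nonneg_right (by linarith) (by positivity)
    have h4 : (1 + κ₁) * (d : ℝ) ^ 2 ≤ 3 * ∑ k ∈ range W.M, (W.mult k : ℝ) +
      ∑ k ∈ (range W.M).filter (fun k => κ₁ * d < W.mult k), (W.mult k : ℝ) ^ 2 := by
      refine hI.trans (le_of_eq ?_)
      congr 1
    linarith
  have hpairs : ∑ k ∈ range W.M, (W.mult k : ℝ) ^ 2 =
      d * (d - 1) + ∑ k ∈ range W.M, (W.mult k : ℝ) := by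
    rw [← main_pairs W hd0, ← sum_add_distrib]
    exact Finset.sum_congr rfl fun k _ => by ring
  obtain ⟨y, hy⟩ : ∃ y : ℝ, y = (1 - κ) * x := ⟨_, rfl⟩
  have hκ1 : κ ≤ 1 / 128 := by linarith
  have e1 : 0 ≤ y := by
    rw [hy]
    exact mul_nonneg (by linarith) hx0.le
  have e2 : (1 - 2 * κ) * x ^ 2 ≤ y ^ 2 := by
    rw [hy, mul_pow]
    exact mul_le_mul_of_nonneg_right (by nlinarith) (by positivity)
  have e3 : y ^ 2 ≤ x ^ 2 := by
    refine pow_le_pow_left₀ e1 ?_ 2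
    rw [hy]
    nlinarith
  have hw1 : ∀ i, y ≤ w i := fun i => by
    rw [hy]
    exact (hw i).1
  have hw2 : ∀ i, w i ≤ x := fun i => (hw i).2
  have hgap : 1 + a / 8 ≤ (1 - 2 * κ) * (1 + a / 4) := by nlinarith
  have hlow := chern_lower W w z Bl hBl h2 e1 hw1 hw2
  obtain ⟨Bg, hBg⟩ : ∃ Bg : Finset ℕ, Bg = (range W.M).filter
    fun k => a * d < W.mult k := ⟨_, rfl⟩
  rw [← hBg] at hIa
  have hBgBl : Bg ⊆ Bl := by
    intro k hk
    rw [hBg, mem_filter, mem_range] at hk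
    by_contra hcon
    have e4 := h2 k hk.1 hcon
    have e5 := hk.2
    rw [e4] at e5
    push_cast at e5
    linarith
  -- the large vertices
  have h3 : ∑ k ∈ Bg, (y ^ 2 / 4 * (W.mult k : ℝ) ^ 2 - 2 * x * W.mult k) ≤
      ∑ k ∈ Bl, (z k - 2 + (∑ i ∈ W.B k, w i) / 2) ^ 2 := by
    refine le_trans (Finset.sum_le_sum fun k hk => ?_)
      (Finset.sum_le_sum_of_subset_of_nonneg hBgBl (fun k _ _ => sq_nonneg _))
    have hkM : k < W.M := mem_range.1 (hBl (hBgBl hk))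
    have hzk : 0 ≤ z k := by
      refine hz k (hBgBl hk) ?_
      rw [hBg, mem_filter] at hk
      exact lt_of_le_of_lt (mul_le_mul_of_nonneg_right (by linarith) hd'.le) hk.2
    obtain ⟨S, hS⟩ : ∃ S : ℝ, S = ∑ i ∈ W.B k, w i := ⟨_, rfl⟩
    rw [← hS]
    have e4 : y * W.mult k ≤ S := by
      rw [hS]
      calc y * W.mult k = ∑ i ∈ W.B k, y := by
            rw [sum_const, card_B W hkM, nsmul_eq_mul, mul_comm]
        _ ≤ ∑ i ∈ W.B k, w i := Finset.sum_le_sum fun i _ => hw1 i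
    have e5 : S ≤ x * W.mult k := by
      rw [hS]
      calc ∑ i ∈ W.B k, w i ≤ ∑ i ∈ W.B k, x := Finset.sum_le_sum fun i _ => hw2 i
        _ = x * W.mult k := by rw [sum_const, card_B W hkM, nsmul_eq_mul, mul_comm]
    have e6 : (y * W.mult k) ^ 2 ≤ S ^ 2 := pow_le_pow_left₀ (by positivity) e4 2
    rw [mul_pow] at e6
    have e7 : 0 ≤ S := le_trans (by positivity) e4
    have e8 : 0 ≤ z k * S := mul_nonneg hzk e7
    have e9 : 0 ≤ (z k - 2) ^ 2 := sq_nonneg _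
    nlinarith
  have h4 : ∑ k ∈ Bg, (W.mult k : ℝ) ≤ 2 * d / a := by
    have e4 : ∑ k ∈ Bg, (a * d) * (W.mult k : ℝ) ≤ 2 * (d : ℝ) ^ 2 := by
      calc ∑ k ∈ Bg, (a * d) * (W.mult k : ℝ) ≤ ∑ k ∈ Bg, (W.mult k : ℝ) ^ 2 := by
            refine Finset.sum_le_sum fun k hk => ?_
            rw [hBg, mem_filter] at hk
            rw [pow_two]
            exact mul_le_mul_of_nonneg_right hk.2.le (by positivity)
        _ ≤ ∑ k ∈ range W.M, (W.mult k : ℝ) ^ 2 := by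
            refine Finset.sum_le_sum_of_subset_of_nonneg ?_ (fun k _ _ => by positivity)
            rw [hBg]
            exact filter_subset _ _
        _ ≤ 2 * (d : ℝ) ^ 2 := by
            have e5 := main_sq_sum W hd0
            have e6 : ∑ k ∈ range W.M, ((W.mult k : ℝ) / d) ^ 2 =
                (∑ k ∈ range W.M, (W.mult k : ℝ) ^ 2) / (d : ℝ) ^ 2 := by
              rw [sum_div]
              exact Finset.sum_congr rfl fun k _ => div_pow _ _ _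
            rw [e6, div_le_iff₀ (by positivity)] at e5
            exact e5
    rw [← mul_sum] at e4
    rw [le_div_iff₀ ha0]
    have e5 : (∑ k ∈ Bg, (W.mult k : ℝ)) * a * d ≤ 2 * d * d := by nlinarith
    exact le_of_mul_le_mul_right e5 hd'
  rw [sum_sub_distrib, ← mul_sum, ← mul_sum] at h3
  -- the main terms
  have h5 : a / 8 * (x ^ 2 * d ^ 2) - 3 / 4 * x ^ 2 * d ≤ -(x * d) ^ 2 +
      3 / 4 * y ^ 2 * ∑ k ∈ range W.M, (W.mult k : ℝ) ^ 2 +
        y ^ 2 / 4 * ∑ k ∈ Bg, (W.mult k : ℝ) ^ 2 := by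
    rw [hpairs]
    have e4 : y ^ 2 / 4 * ((1 + a) * (d : ℝ) ^ 2) ≤
        y ^ 2 / 4 * (3 * ∑ k ∈ range W.M, (W.mult k : ℝ) + ∑ k ∈ Bg, (W.mult k : ℝ) ^ 2) :=
      mul_le_mul_of_nonneg_left hIa (by positivity)
    have e5 : (1 + a / 8) * (x ^ 2 * (d : ℝ) ^ 2) ≤ (1 + a / 4) * (y ^ 2 * (d : ℝ) ^ 2) := by
      calc (1 + a / 8) * (x ^ 2 * (d : ℝ) ^ 2) ≤
            (1 - 2 * κ) * (1 + a / 4) * (x ^ 2 * (d : ℝ) ^ 2) :=
            mul_le_mul_of_nonneg_right hgap (by positivity)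
        _ = (1 + a / 4) * ((1 - 2 * κ) * x ^ 2 * (d : ℝ) ^ 2) := by ring
        _ ≤ (1 + a / 4) * (y ^ 2 * (d : ℝ) ^ 2) :=
            mul_le_mul_of_nonneg_left (mul_le_mul_of_nonneg_right e2 (by positivity))
              (by positivity)
    have e6 : y ^ 2 * (d : ℝ) ≤ x ^ 2 * d := mul_le_mul_of_nonneg_right e3 hd'.le
    nlinarith
  have h6 : 3 / 4 * x ^ 2 * d ≤ a / 128 * (x ^ 2 * (d : ℝ) ^ 2) := by
    have e4 : (x ^ 2 * (d : ℝ)) * 128 ≤ (x ^ 2 * d) * (a * d) :=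
      mul_le_mul_of_nonneg_left had (by positivity)
    have e5 : 0 ≤ x ^ 2 * (d : ℝ) := by positivity
    nlinarith
  have h7 : 2 * x * ∑ k ∈ Bg, (W.mult k : ℝ) ≤ a / 32 * (x ^ 2 * (d : ℝ) ^ 2) := by
    have e4 : 2 * x * ∑ k ∈ Bg, (W.mult k : ℝ) ≤ 2 * x * (2 * d / a) :=
      mul_le_mul_of_nonneg_left h4 (by positivity)
    have e5 : 128 * (x * (d : ℝ) / a) ≤ a ^ 2 * (x * d) * (x * d / a) :=
      mul_le_mul_of_nonneg_right haxd (by positivity)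
    have e6 : a ^ 2 * (x * d) * (x * d / a) = a * (x ^ 2 * (d : ℝ) ^ 2) := by
      field_simp
    have e7 : 2 * x * (2 * (d : ℝ) / a) = 4 * (x * d / a) := by ring
    rw [e7] at e4
    linarith
  have hpos : 0 ≤ a * (x ^ 2 * (d : ℝ) ^ 2) := by positivity
  have h8 : a / 16 * (x ^ 2 * (d : ℝ) ^ 2) ≤ 3 * c2 W w z Bl - c1sq W w z Bl := by
    linarith
  refine ⟨?_, ?_⟩
  · have h9 : κ * (x * d) ^ 2 ≤ a / 128 * (x ^ 2 * (d : ℝ) ^ 2) := by
      rw [mul_pow]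
      exact mul_le_mul_of_nonneg_right hκa (by positivity)
    linarith
  · intro hx1 hz1
    have hup := chern_upper W hd2 w z Bl hBl h2 (fun i => e1.trans (hw1 i))
      (fun i => (hw2 i).trans hx2) (fun k hk => (hz1 k hk).1) (fun k hk => (hz1 k hk).2)
    have hxb2 : b ^ 2 ≤ x ^ 2 := pow_le_pow_left₀ hb0.le (hb2.trans hx1) 2
    have h9 : a / 16 * (b ^ 2 * (d : ℝ) ^ 2) ≤ a / 16 * (x ^ 2 * (d : ℝ) ^ 2) :=
      mul_le_mul_of_nonneg_left (mul_le_mul_of_nonneg_right hxb2 (by positivity))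
        (by positivity)
    have h10 : κ * c2 W w z Bl ≤ 3 * κ * (d : ℝ) ^ 2 := by
      have := mul_le_mul_of_nonneg_left hup hκ0.le
      linarith
    have h11 : 3 * κ * (d : ℝ) ^ 2 ≤ 3 / 128 * (a * (b ^ 2 * (d : ℝ) ^ 2)) := by
      have := mul_le_mul_of_nonneg_right hκab (by positivity : (0 : ℝ) ≤ (d : ℝ) ^ 2)
      linarith
    have h12 : 0 ≤ a * (b ^ 2 * (d : ℝ) ^ 2) := by positivity
    linarith

end Pool.Agent.Helper8.PL
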