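import Mathlib

/-! Project PL: wiring diagrams (pseudoline arrangements). -/

namespace Pool.Agent.Helper8.PL

/-- A wiring diagram: `d` pseudolines, numbered `0, ..., d - 1` from bottom to top at the left end,
any two of which cross exactly once. The crossing points (vertices) are numbered `0, ..., M - 1`
from left to right, `pos k i` is the height (`0, ..., d - 1`) of the line `i` just before the
vertex `k`. At the vertex `k` the lines at the heights `lo k, ..., hi k - 1` meet and leave in
the reversed order; before the vertex they are in the original order. -/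
structure Wiring (d : ℕ) where
  /-- the number of vertices -/
  M : ℕ
  /-- the height of the line `i` after `k` vertices -/
  pos : ℕ → Fin d → ℕ
  /-- the lowest height in the vertex `k` -/
  lo : ℕ → ℕ
  /-- the highest height in the vertex `k`, plus one -/
  hi : ℕ → ℕ
  start : ∀ i, pos 0 i = i
  finish : ∀ i, pos M i + i + 1 = d
  two_le : ∀ k < M, lo k + 2 ≤ hi k
  le_d : ∀ k < M, hi k ≤ d
  fixed : ∀ k < M, ∀ i, pos k i < lo k ∨ hi k ≤ pos k i → pos (k + 1) i = pos k i
  flip : ∀ k < M, ∀ i, lo k ≤ pos k i → pos k i < hi k →
    pos (k + 1) i + pos k i + 1 = lo k + hi k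
  sorted : ∀ k < M, ∀ i j, lo k ≤ pos k i → pos k i < pos k j → pos k j < hi k → i < j

namespace Wiring

variable {d : ℕ} (W : Wiring d)

/-- the lines through the vertex `k` -/
def B (k : ℕ) : Finset (Fin d) :=
  Finset.univ.filter fun i => W.lo k ≤ W.pos k i ∧ W.pos k i < W.hi k

/-- the multiplicity of the vertex `k` -/
def mult (k : ℕ) : ℕ := W.hi k - W.lo k

/-- The number of lines of the class `e` below the cut `(k, x)`; the class of the line `i` is
`i / N`, the cut `(k, x)` is the place just before the vertex `k` between the heights `x - 1`
and `x`. -/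
def cnt (N e k x : ℕ) : ℕ :=
  (Finset.univ.filter fun i : Fin d => (i : ℕ) / N = e ∧ W.pos k i < x).card

/-- the sum of the classes of the lines below the cut `(k, x)` -/
def T (N k x : ℕ) : ℕ := ∑ i ∈ Finset.univ.filter (fun i : Fin d => W.pos k i < x), (i : ℕ) / N

/-- the number of lines of the class `e` through the vertex `k` -/
def u (N e k : ℕ) : ℕ := ((W.B k).filter fun i : Fin d => (i : ℕ) / N = e).card

end Wiring

end Pool.Agent.Helper8.PL
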