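import Pool.Agent.Helper8.PL.Lip
import Pool.Agent.Helper8.PL.Defs2

/-! Project PL, PL-S: the Lipschitz extension of the counting functions, and the structure `Loc`
from an affine approximation. -/

namespace Pool.Agent.Helper8.PL

open Wiring Finset MeasureTheory
open scoped ENNReal NNReal

private theorem ext_lip {d : ℕ} (W : Wiring d) {N m : ℕ} (hd : 0 < d) (hN : 0 < N)
    (hm : d ≤ m * N) {k l x y e : ℕ} (hk : k ≤ W.M) (hl : l ≤ W.M) (hx : x ≤ d) (hy : y ≤ d)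
    (he : e < m) :
    |W.F N e l y - W.F N e k x| ≤ (2 * m + 2) *
      dist ((y : ℝ) / d, W.tt N l y) ((x : ℝ) / d, W.tt N k x) := by
  have h := cnt_lip W hN hm hk hl hx hy
  have h1 : |(W.cnt N e l y : ℝ) - W.cnt N e k x| ≤
      ∑ e ∈ range m, |(W.cnt N e l y : ℝ) - W.cnt N e k x| :=
    Finset.single_le_sum (f := fun e => |(W.cnt N e l y : ℝ) - W.cnt N e k x|)
      (fun _ _ => abs_nonneg _) (mem_range.2 he)
  have hd' : (0 : ℝ) < d := by exact_mod_cast hd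
  set D := dist ((y : ℝ) / d, W.tt N l y) ((x : ℝ) / d, W.tt N k x) with hD
  have hDx : |(y : ℝ) / d - x / d| ≤ D := by
    rw [hD, Prod.dist_eq, Real.dist_eq]
    exact le_max_left _ _
  have hDt : |W.tt N l y - W.tt N k x| ≤ D := by
    rw [hD, Prod.dist_eq, Real.dist_eq, Real.dist_eq]
    exact le_max_right _ _
  have e1 : |(y : ℝ) / d - x / d| = |(y : ℝ) - x| / d := by
    rw [← sub_div, abs_div, abs_of_pos hd']
  have e2 : |W.tt N l y - W.tt N k x| = |(W.T N l y : ℝ) - W.T N k x| / d := by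
    simp only [Wiring.tt]
    rw [← sub_div, abs_div, abs_of_pos hd']
  have e3 : |W.F N e l y - W.F N e k x| = |(W.cnt N e l y : ℝ) - W.cnt N e k x| / d := by
    simp only [Wiring.F]
    rw [← sub_div, abs_div, abs_of_pos hd']
  rw [e3]
  have h2 : |(W.cnt N e l y : ℝ) - W.cnt N e k x| / d ≤
      2 * (|(W.T N l y : ℝ) - W.T N k x| + m * |(y : ℝ) - x|) / d := by
    gcongr
    exact h1.trans h
  have h3 : 2 * (|(W.T N l y : ℝ) - W.T N k x| + m * |(y : ℝ) - x|) / d =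
      2 * (|W.tt N l y - W.tt N k x| + m * |(y : ℝ) / d - x / d|) := by
    rw [e1, e2]
    ring
  rw [h3] at h2
  have hm0 : (0 : ℝ) ≤ m := Nat.cast_nonneg m
  have h4 : (m : ℝ) * |(y : ℝ) / d - x / d| ≤ m * D := mul_le_mul_of_nonneg_left hDx hm0
  linarith

theorem exists_ext {d : ℕ} (W : Wiring d) {N m : ℕ} (hd : 0 < d) (hN : 0 < N)
    (hm : d ≤ m * N) : ∃ φ : ℝ × ℝ → (Fin m → ℝ), LipschitzWith (2 * m + 2 : ℝ≥0) φ ∧
      ∀ k ≤ W.M, ∀ x ≤ d, ∀ e : Fin m, φ ((x : ℝ) / d, W.tt N k x) e = W.F N e k x := by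
  classical
  set s : Set (ℝ × ℝ) := {p | ∃ q : ℕ × ℕ, q.1 ≤ W.M ∧ q.2 ≤ d ∧
    p = ((q.2 : ℝ) / d, W.tt N q.1 q.2)} with hs
  set f : ℝ × ℝ → (Fin m → ℝ) := fun p e =>
    if h : ∃ q : ℕ × ℕ, q.1 ≤ W.M ∧ q.2 ≤ d ∧ p = ((q.2 : ℝ) / d, W.tt N q.1 q.2) then
      W.F N e h.choose.1 h.choose.2 else 0 with hf
  have key : ∀ k ≤ W.M, ∀ x ≤ d, ∀ e : Fin m, f ((x : ℝ) / d, W.tt N k x) e = W.F N e k x := by
    intro k hk x hx e
    have h : ∃ q : ℕ × ℕ, q.1 ≤ W.M ∧ q.2 ≤ d ∧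
        ((x : ℝ) / d, W.tt N k x) = ((q.2 : ℝ) / d, W.tt N q.1 q.2) := ⟨(k, x), hk, hx, rfl⟩
    have hfe : f ((x : ℝ) / d, W.tt N k x) e = W.F N e h.choose.1 h.choose.2 := by
      simp only [hf]
      rw [dif_pos h]
    obtain ⟨h1, h2, h3⟩ := h.choose_spec
    rw [hfe]
    have h4 := ext_lip W hd hN hm hk h1 hx h2 e.2
    rw [← h3, dist_self, mul_zero] at h4
    have h5 := abs_nonneg (W.F N e h.choose.1 h.choose.2 - W.F N e k x)
    have h6 := abs_eq_zero.1 (le_antisymm h4 h5)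
    linarith
  have hL : LipschitzOnWith (2 * m + 2 : ℝ≥0) f s := by
    apply LipschitzOnWith.of_dist_le_mul
    rintro p ⟨⟨k, x⟩, hk, hx, rfl⟩ p' ⟨⟨l, y⟩, hl, hy, rfl⟩
    rw [dist_pi_le_iff (by positivity)]
    intro e
    dsimp only at hk hx hl hy ⊢
    rw [key k hk x hx e, key l hl y hy e, Real.dist_eq]
    have := ext_lip W hd hN hm hl hk hy hx e.2
    push_cast
    exact this
  obtain ⟨g, hg, hgf⟩ := hL.extend_pi
  refine ⟨g, hg, ?_⟩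
  intro k hk x hx e
  rw [← key k hk x hx e]
  have : ((x : ℝ) / d, W.tt N k x) ∈ s := ⟨(k, x), hk, hx, rfl⟩
  exact (congrFun (hgf this) e).symm

theorem loc_of_aff {d : ℕ} (W : Wiring d) {N m n : ℕ} {ε δ : ℝ} (hd : 0 < d) (hN : 0 < N)
    (hm : d ≤ m * N) (hone : 1 ≤ δ * d)
    {φ : ℝ × ℝ → (Fin m → ℝ)}
    (hφ : ∀ k ≤ W.M, ∀ x ≤ d, ∀ e : Fin m, φ ((x : ℝ) / d, W.tt N k x) e = W.F N e k x)
    {q : ℕ × ℕ} (hmult : ∀ k < W.M, (W.mult k : ℝ) ≤ δ * d ∨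
      W.Far N ((q.1 : ℝ) / 2 ^ n) ((q.2 : ℝ) / 2 ^ n) (1 / 2 ^ n) k)
    (hq : W.Inner N ((q.1 : ℝ) / 2 ^ n) ((q.2 : ℝ) / 2 ^ n) (1 / 2 ^ n))
    (A : (ℝ × ℝ) →L[ℝ] (Fin m → ℝ)) (b : Fin m → ℝ) (hA : ‖A‖ ≤ (2 * m + 2 : ℝ≥0))
    (hAb : ∀ z : ℝ × ℝ, dist z ((q.1 : ℝ) / 2 ^ n, (q.2 : ℝ) / 2 ^ n) ≤ 4 / 2 ^ n →
      ‖φ z - A z - b‖ ≤ ε / 2 ^ n) :
    ∃ (v : ℕ → ℝ × ℝ) (b' : ℕ → ℝ),
      W.Loc N m ((q.1 : ℝ) / 2 ^ n) ((q.2 : ℝ) / 2 ^ n) (1 / 2 ^ n) δ ε v b' := by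
  classical
  have hA' : ‖A‖ ≤ 2 * (m : ℝ) + 2 := by
    have := hA
    push_cast at this
    exact this
  have bd : ∀ (z : ℝ × ℝ) (e : Fin m), ‖z‖ ≤ 1 → |A z e| ≤ 2 * (m : ℝ) + 2 := by
    intro z e hz
    have h1 : ‖A z e‖ ≤ ‖A z‖ := norm_le_pi_norm _ _
    have h2 : ‖A z‖ ≤ ‖A‖ * ‖z‖ := A.le_opNorm z
    have h3 : ‖A‖ * ‖z‖ ≤ ‖A‖ * 1 := mul_le_mul_of_nonneg_left hz (norm_nonneg _)
    rw [Real.norm_eq_abs] at h1
    linarith
  refine ⟨fun e => if h : e < m then (A (1, 0) ⟨e, h⟩, A (0, 1) ⟨e, h⟩) else 0,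
    fun e => if h : e < m then b ⟨e, h⟩ else 0, ?_⟩
  refine
    { hd := hd
      hN := hN
      hm := hm
      hl := by positivity
      mult := hmult
      one := hone
      inner := hq
      v1 := ?_
      v2 := ?_
      aff := ?_ }
  · intro e he
    rw [dif_pos he]
    exact bd _ _ (by simp [Prod.norm_def])
  · intro e he
    rw [dif_pos he]
    exact bd _ _ (by simp [Prod.norm_def])
  · intro k hk x hx h1 h2 e he
    rw [dif_pos he, dif_pos he]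
    have h3 := hAb ((x : ℝ) / d, W.tt N k x) (by
      rw [Prod.dist_eq, Real.dist_eq, Real.dist_eq]
      have e4 : (4 : ℝ) / 2 ^ n = 4 * (1 / 2 ^ n) := by ring
      rw [e4]
      exact max_le h1 h2)
    have h4 := (norm_le_pi_norm (φ ((x : ℝ) / d, W.tt N k x) - A ((x : ℝ) / d, W.tt N k x) - b)
      ⟨e, he⟩).trans h3
    rw [Real.norm_eq_abs] at h4
    simp only [Pi.sub_apply] at h4
    rw [hφ k hk x hx ⟨e, he⟩] at h4
    have h5 : A ((x : ℝ) / d, W.tt N k x) =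
        ((x : ℝ) / d) • A (1, 0) + (W.tt N k x) • A (0, 1) := by
      rw [← map_smul, ← map_smul, ← map_add]
      congr 1
      simp
    rw [h5] at h4
    simp only [Pi.add_apply, Pi.smul_apply, smul_eq_mul] at h4
    have e5 : ε / 2 ^ n = ε * (1 / 2 ^ n) := by ring
    rw [e5] at h4
    refine le_trans (le_of_eq ?_) h4
    congr 1
    ring

end Pool.Agent.Helper8.PL
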