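import Mathlib

/-! Project PL, piece PL-D: balanced position of finitely many plane vectors. -/

open MeasureTheory Set Filter
open scoped ENNReal NNReal Topology

namespace Pool.Agent.Helper8.PL

/-- The two variable function which is minimised. -/
private noncomputable def frame_f {m : ℕ} (v : Fin m → ℝ × ℝ) (z : ℝ × ℝ) : ℝ :=
  ∑ c, Real.sqrt ((z.1 * (v c).1 + z.2 * (v c).2) ^ 2 + ((v c).2 / z.1) ^ 2)

private lemma frame_term_nonneg {m : ℕ} (v : Fin m → ℝ × ℝ) (z : ℝ × ℝ) (c : Fin m) :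
    0 ≤ Real.sqrt ((z.1 * (v c).1 + z.2 * (v c).2) ^ 2 + ((v c).2 / z.1) ^ 2) :=
  Real.sqrt_nonneg _

private lemma frame_le {m : ℕ} (v : Fin m → ℝ × ℝ) (z : ℝ × ℝ) (c : Fin m) :
    |z.1 * (v c).1 + z.2 * (v c).2| ≤ frame_f v z ∧ |(v c).2 / z.1| ≤ frame_f v z := by
  have h1 : Real.sqrt ((z.1 * (v c).1 + z.2 * (v c).2) ^ 2 + ((v c).2 / z.1) ^ 2) ≤
      frame_f v z :=
    Finset.single_le_sum (f := fun c => Real.sqrt ((z.1 * (v c).1 + z.2 * (v c).2) ^ 2 +
      ((v c).2 / z.1) ^ 2)) (fun c _ => frame_term_nonneg v z c) (Finset.mem_univ c)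
  constructor
  · refine le_trans ?_ h1
    rw [← Real.sqrt_sq_eq_abs]
    exact Real.sqrt_le_sqrt (by nlinarith [sq_nonneg ((v c).2 / z.1)])
  · refine le_trans ?_ h1
    rw [← Real.sqrt_sq_eq_abs]
    exact Real.sqrt_le_sqrt (by nlinarith [sq_nonneg (z.1 * (v c).1 + z.2 * (v c).2)])

private lemma frame_cont {m : ℕ} (v : Fin m → ℝ × ℝ) {K : Set (ℝ × ℝ)}
    (hK : ∀ z ∈ K, 0 < z.1) : ContinuousOn (frame_f v) K := by
  unfold frame_f
  refine continuousOn_finsetSum _ (fun c _ => ?_)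
  refine ContinuousOn.sqrt ?_
  refine ContinuousOn.add ?_ ?_
  · exact (Continuous.continuousOn (by fun_prop))
  · refine ContinuousOn.pow ?_ 2
    refine ContinuousOn.div continuousOn_const continuousOn_fst ?_
    intro z hz
    exact (hK z hz).ne'

/-- Existence of a minimiser. -/
private lemma frame_min {m : ℕ} (v : Fin m → ℝ × ℝ)
    (h : ∃ c c', (v c).1 * (v c').2 - (v c).2 * (v c').1 ≠ 0) :
    ∃ z : ℝ × ℝ, 0 < z.1 ∧ ∀ w : ℝ × ℝ, 0 < w.1 → frame_f v z ≤ frame_f v w := by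
  obtain ⟨c, c', hD⟩ := h
  set M : ℝ := frame_f v (1, 0) with hM
  have hM0 : 0 ≤ M := Finset.sum_nonneg (fun c _ => frame_term_nonneg v _ c)
  set D : ℝ := |(v c).1 * (v c').2 - (v c).2 * (v c').1| with hDdef
  have hDpos : 0 < D := abs_pos.mpr hD
  set B : ℝ := |(v c).1| + |(v c).2| + |(v c').1| + |(v c').2| with hB
  set b : ℝ := |(v c).2| + |(v c').2| with hb
  have hbpos : 0 < b := by
    rcases eq_or_ne (v c).2 0 with h1 | h1
    · rcases eq_or_ne (v c').2 0 with h2 | h2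
      · exact absurd (by rw [h1, h2]; ring) hD
      · have := abs_pos.mpr h2
        have := abs_nonneg (v c).2
        linarith
    · have := abs_pos.mpr h1
      have := abs_nonneg (v c').2
      linarith
  -- bounds for points with small value
  have key : ∀ z : ℝ × ℝ, 0 < z.1 → frame_f v z ≤ M →
      b / (2 * M + 1) ≤ z.1 ∧ |z.1| ≤ M * B / D ∧ |z.2| ≤ M * B / D := by
    intro z hz hzM
    obtain ⟨h1, h2⟩ := frame_le v z c
    obtain ⟨h1', h2'⟩ := frame_le v z c'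
    have h1M := h1.trans hzM
    have h2M := h2.trans hzM
    have h1M' := h1'.trans hzM
    have h2M' := h2'.trans hzM
    refine ⟨?_, ?_, ?_⟩
    · rw [abs_div, abs_of_pos hz, div_le_iff₀ hz] at h2M h2M'
      rw [div_le_iff₀ (by linarith)]
      nlinarith
    · rw [le_div_iff₀ hDpos, hDdef, ← abs_mul]
      have e : z.1 * ((v c).1 * (v c').2 - (v c).2 * (v c').1) =
          (z.1 * (v c).1 + z.2 * (v c).2) * (v c').2 -
            (z.1 * (v c').1 + z.2 * (v c').2) * (v c).2 := by ring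
      rw [e]
      refine (abs_sub _ _).trans ?_
      rw [abs_mul, abs_mul]
      have := abs_nonneg (v c).1
      have := abs_nonneg (v c).2
      have := abs_nonneg (v c').1
      have := abs_nonneg (v c').2
      have e1 := mul_le_mul_of_nonneg_right h1M (abs_nonneg (v c').2)
      have e2 := mul_le_mul_of_nonneg_right h1M' (abs_nonneg (v c).2)
      rw [hB]
      nlinarith [mul_nonneg hM0 (abs_nonneg (v c).1), mul_nonneg hM0 (abs_nonneg (v c').1)]
    · rw [le_div_iff₀ hDpos, hDdef, ← abs_mul]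
      have e : z.2 * ((v c).1 * (v c').2 - (v c).2 * (v c').1) =
          (z.1 * (v c').1 + z.2 * (v c').2) * (v c).1 -
            (z.1 * (v c).1 + z.2 * (v c).2) * (v c').1 := by ring
      rw [e]
      refine (abs_sub _ _).trans ?_
      rw [abs_mul, abs_mul]
      have e1 := mul_le_mul_of_nonneg_right h1M (abs_nonneg (v c').1)
      have e2 := mul_le_mul_of_nonneg_right h1M' (abs_nonneg (v c).1)
      rw [hB]
      nlinarith [mul_nonneg hM0 (abs_nonneg (v c).2), mul_nonneg hM0 (abs_nonneg (v c').2)]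
  set K : Set (ℝ × ℝ) := Set.Icc (b / (2 * M + 1)) (M * B / D) ×ˢ
    Set.Icc (-(M * B / D)) (M * B / D) with hK
  have hKc : IsCompact K := isCompact_Icc.prod isCompact_Icc
  have hKpos : ∀ z ∈ K, 0 < z.1 := by
    intro z hz
    have h1 : b / (2 * M + 1) ≤ z.1 := hz.1.1
    have h2 : 0 < b / (2 * M + 1) := div_pos hbpos (by linarith)
    linarith
  have hKmem : ∀ z : ℝ × ℝ, 0 < z.1 → frame_f v z ≤ M → z ∈ K := by
    intro z hz hzM
    obtain ⟨k1, k2, k3⟩ := key z hz hzM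
    exact ⟨⟨k1, (abs_le.mp k2).2⟩, ⟨(abs_le.mp k3).1, (abs_le.mp k3).2⟩⟩
  have h10 : ((1 : ℝ), (0 : ℝ)) ∈ K := hKmem _ (by norm_num) le_rfl
  obtain ⟨z, hzK, hz⟩ := hKc.exists_isMinOn ⟨_, h10⟩ (frame_cont v hKpos)
  refine ⟨z, hKpos z hzK, fun w hw => ?_⟩
  rcases le_or_gt (frame_f v w) M with h1 | h1
  · exact hz (hKmem w hw h1)
  · exact (hz h10).trans h1.le

private lemma frame_deriv1 (a b : ℝ) :
    HasDerivAt (fun s : ℝ => Real.sqrt ((a + s * b) ^ 2 + b ^ 2))
      (a * b / Real.sqrt (a ^ 2 + b ^ 2)) 0 := by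
  by_cases h : a = 0 ∧ b = 0
  · obtain ⟨rfl, rfl⟩ := h
    simpa using hasDerivAt_const (0 : ℝ) (0 : ℝ)
  · have hpos : 0 < a ^ 2 + b ^ 2 := by
      rcases not_and_or.mp h with h1 | h1
      · have := pow_pos (abs_pos.mpr h1) 2
        rw [sq_abs] at this
        nlinarith [sq_nonneg b]
      · have := pow_pos (abs_pos.mpr h1) 2
        rw [sq_abs] at this
        nlinarith [sq_nonneg a]
    have h1 : HasDerivAt (fun s : ℝ => (a + s * b) ^ 2 + b ^ 2) (2 * a * b) 0 := by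
      have h2 : HasDerivAt (fun s : ℝ => a + s * b) b 0 := by
        simpa using ((hasDerivAt_id (0 : ℝ)).mul_const b).const_add a
      have h3 := (h2.pow 2).add_const (b ^ 2)
      refine h3.congr_deriv ?_
      norm_num
    have h4 := h1.sqrt (by simpa using hpos.ne')
    refine h4.congr_deriv ?_
    have h5 : (a + 0 * b) ^ 2 + b ^ 2 = a ^ 2 + b ^ 2 := by ring
    rw [h5]
    have h6 : Real.sqrt (a ^ 2 + b ^ 2) ≠ 0 := (Real.sqrt_pos.mpr hpos).ne'
    field_simp

private lemma frame_deriv2 (a b : ℝ) :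
    HasDerivAt (fun t : ℝ => Real.sqrt ((t * a) ^ 2 + (b / t) ^ 2))
      ((a ^ 2 - b ^ 2) / Real.sqrt (a ^ 2 + b ^ 2)) 1 := by
  by_cases h : a = 0 ∧ b = 0
  · obtain ⟨rfl, rfl⟩ := h
    simpa using hasDerivAt_const (1 : ℝ) (0 : ℝ)
  · have hpos : 0 < a ^ 2 + b ^ 2 := by
      rcases not_and_or.mp h with h1 | h1
      · have := pow_pos (abs_pos.mpr h1) 2
        rw [sq_abs] at this
        nlinarith [sq_nonneg b]
      · have := pow_pos (abs_pos.mpr h1) 2
        rw [sq_abs] at this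
        nlinarith [sq_nonneg a]
    have h1 : HasDerivAt (fun t : ℝ => (t * a) ^ 2 + (b / t) ^ 2) (2 * a ^ 2 - 2 * b ^ 2) 1 := by
      have h2 : HasDerivAt (fun t : ℝ => t * a) a 1 := by
        simpa using (hasDerivAt_id (1 : ℝ)).mul_const a
      have h3 : HasDerivAt (fun t : ℝ => b / t) (-b) 1 := by
        have h4 := (hasDerivAt_inv (one_ne_zero (α := ℝ))).const_mul b
        refine (h4.congr_deriv (by norm_num)).congr_of_eventuallyEq ?_
        exact Filter.Eventually.of_forall (fun t => by simp [div_eq_mul_inv])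
      have h5 := (h2.pow 2).add (h3.pow 2)
      refine h5.congr_deriv ?_
      norm_num
      ring
    have h4 := h1.sqrt (by
      have : (1 * a) ^ 2 + (b / 1) ^ 2 = a ^ 2 + b ^ 2 := by ring
      rw [this]; exact hpos.ne')
    refine h4.congr_deriv ?_
    have h5 : (1 * a) ^ 2 + (b / 1) ^ 2 = a ^ 2 + b ^ 2 := by ring
    rw [h5]
    have h6 : Real.sqrt (a ^ 2 + b ^ 2) ≠ 0 := (Real.sqrt_pos.mpr hpos).ne'
    field_simp

/-- PL-D. Balanced position: vectors in the plane which are not all parallel. -/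
theorem exists_frame {m : ℕ} (v : Fin m → ℝ × ℝ)
    (h : ∃ c c', (v c).1 * (v c').2 - (v c).2 * (v c').1 ≠ 0) :
    ∃ ρ α : Fin m → ℝ, (∀ c, 0 ≤ ρ c) ∧
      (∀ c c', |(v c).1 * (v c').2 - (v c).2 * (v c').1| =
        ρ c * ρ c' * |Real.sin (α c - α c')|) ∧
      ∑ c, ρ c * Real.cos (2 * α c) = 0 ∧ ∑ c, ρ c * Real.sin (2 * α c) = 0 := by
  obtain ⟨z, hz, hmin⟩ := frame_min v h
  set p : Fin m → ℝ := fun c => z.1 * (v c).1 + z.2 * (v c).2 with hp
  set q : Fin m → ℝ := fun c => (v c).2 / z.1 with hq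
  set Z : Fin m → ℂ := fun c => ⟨p c, q c⟩ with hZ
  have hre : ∀ c, ‖Z c‖ * Real.cos (Z c).arg = p c := fun c => Complex.norm_mul_cos_arg (Z c)
  have him : ∀ c, ‖Z c‖ * Real.sin (Z c).arg = q c := fun c => Complex.norm_mul_sin_arg (Z c)
  have hnorm : ∀ c, Real.sqrt (p c ^ 2 + q c ^ 2) = ‖Z c‖ := by
    intro c
    rw [← hre c, ← him c]
    have : (‖Z c‖ * Real.cos (Z c).arg) ^ 2 + (‖Z c‖ * Real.sin (Z c).arg) ^ 2 = ‖Z c‖ ^ 2 := by
      have := Real.sin_sq_add_cos_sq (Z c).arg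
      nlinarith
    rw [this]
    exact Real.sqrt_sq (norm_nonneg _)
  have hf : frame_f v z = ∑ c, Real.sqrt (p c ^ 2 + q c ^ 2) := rfl
  -- first stationarity condition
  have s1 : ∑ c, p c * q c / Real.sqrt (p c ^ 2 + q c ^ 2) = 0 := by
    have hd : HasDerivAt (fun s : ℝ => ∑ c, Real.sqrt ((p c + s * q c) ^ 2 + q c ^ 2))
        (∑ c, p c * q c / Real.sqrt (p c ^ 2 + q c ^ 2)) 0 := by
      refine HasDerivAt.fun_sum (fun c _ => frame_deriv1 (p c) (q c))
    refine IsLocalMin.hasDerivAt_eq_zero ?_ hd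
    refine Filter.Eventually.of_forall (fun s => ?_)
    have e1 : ∑ c, Real.sqrt ((p c + s * q c) ^ 2 + q c ^ 2) =
        frame_f v (z.1, z.2 + s / z.1) := by
      unfold frame_f
      refine Finset.sum_congr rfl (fun c _ => ?_)
      congr 2
      simp only [hp, hq]
      ring
    have e0 : ∑ c, Real.sqrt ((p c + 0 * q c) ^ 2 + q c ^ 2) = frame_f v z := by
      rw [hf]
      refine Finset.sum_congr rfl (fun c _ => ?_)
      congr 2
      ring
    show ∑ c, Real.sqrt ((p c + 0 * q c) ^ 2 + q c ^ 2) ≤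
      ∑ c, Real.sqrt ((p c + s * q c) ^ 2 + q c ^ 2)
    rw [e0, e1]
    exact hmin _ hz
  have s2 : ∑ c, (p c ^ 2 - q c ^ 2) / Real.sqrt (p c ^ 2 + q c ^ 2) = 0 := by
    have hd : HasDerivAt (fun t : ℝ => ∑ c, Real.sqrt ((t * p c) ^ 2 + (q c / t) ^ 2))
        (∑ c, (p c ^ 2 - q c ^ 2) / Real.sqrt (p c ^ 2 + q c ^ 2)) 1 := by
      refine HasDerivAt.fun_sum (fun c _ => frame_deriv2 (p c) (q c))
    refine IsLocalMin.hasDerivAt_eq_zero ?_ hd
    have hev : ∀ᶠ t : ℝ in 𝓝 1, 0 < t := lt_mem_nhds one_pos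
    refine hev.mono (fun t ht => ?_)
    have e1 : ∑ c, Real.sqrt ((t * p c) ^ 2 + (q c / t) ^ 2) =
        frame_f v (t * z.1, t * z.2) := by
      unfold frame_f
      refine Finset.sum_congr rfl (fun c _ => ?_)
      congr 2
      · simp only [hp]
        ring
      · simp only [hq]
        rw [div_div, mul_comm t z.1]
    have e0 : ∑ c, Real.sqrt ((1 * p c) ^ 2 + (q c / 1) ^ 2) = frame_f v z := by
      rw [hf]
      refine Finset.sum_congr rfl (fun c _ => ?_)
      congr 2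
      · ring
      · ring
    show ∑ c, Real.sqrt ((1 * p c) ^ 2 + (q c / 1) ^ 2) ≤
      ∑ c, Real.sqrt ((t * p c) ^ 2 + (q c / t) ^ 2)
    rw [e0, e1]
    exact hmin _ (mul_pos ht hz)
  refine ⟨fun c => ‖Z c‖, fun c => (Z c).arg, fun c => norm_nonneg _, ?_, ?_, ?_⟩
  · intro c c'
    have hne : z.1 ≠ 0 := hz.ne'
    have e1 : (v c).1 * (v c').2 - (v c).2 * (v c').1 = p c * q c' - q c * p c' := by
      simp only [hp, hq]
      field_simp
      ring
    rw [e1, ← hre c, ← him c, ← hre c', ← him c', Real.sin_sub]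
    have e2 : ‖Z c‖ * Real.cos (Z c).arg * (‖Z c'‖ * Real.sin (Z c').arg) -
        ‖Z c‖ * Real.sin (Z c).arg * (‖Z c'‖ * Real.cos (Z c').arg) =
        -(‖Z c‖ * ‖Z c'‖ * (Real.sin (Z c).arg * Real.cos (Z c').arg -
          Real.cos (Z c).arg * Real.sin (Z c').arg)) := by ring
    rw [e2, abs_neg, abs_mul, abs_of_nonneg (mul_nonneg (norm_nonneg _) (norm_nonneg _))]
  · rw [← s2]
    refine Finset.sum_congr rfl (fun c _ => ?_)
    rw [hnorm c, Real.cos_two_mul]
    rcases eq_or_ne ‖Z c‖ 0 with h0 | h0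
    · simp [h0]
    · rw [eq_div_iff h0, ← hre c, ← him c]
      have := Real.sin_sq_add_cos_sq (Z c).arg
      have h3 : Real.sin (Z c).arg ^ 2 = 1 - Real.cos (Z c).arg ^ 2 := by linarith
      rw [mul_pow, mul_pow, h3]
      ring
  · have e : ∑ c, ‖Z c‖ * Real.sin (2 * (Z c).arg) =
        2 * ∑ c, p c * q c / Real.sqrt (p c ^ 2 + q c ^ 2) := by
      rw [Finset.mul_sum]
      refine Finset.sum_congr rfl (fun c _ => ?_)
      rw [hnorm c, Real.sin_two_mul]
      rcases eq_or_ne ‖Z c‖ 0 with h0 | h0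
      · simp [h0]
      · rw [← hre c, ← him c]
        field_simp
    rw [e, s1, mul_zero]

end Pool.Agent.Helper8.PL
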