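import Pool.Agent.Helper8.PL.Chern

/-!
# A uniform gap in the Bogomolov-Miyaoka-Yau inequality for pseudoline arrangements

Let `W` be an arrangement of `d` pseudolines, given by a wiring diagram
(`Pool.Agent.Helper8.PL.Wiring`). By Ruberman and Starkston it extends to an arrangement of
symplectic spheres in `CP^2` in the class of a line, which meet like complex lines. Give the
spheres weights `w i` and blow up a set `Bl` of vertices which contains all the vertices of
multiplicity at least three, with weights `z k` on the exceptional spheres. The orbifold Chern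
numbers `c1sq` and `c2` are defined in `Pool.Agent.Helper8.PL.Chern`; if all the weights are of the
form `1 - 1 / n` and `Y` is a covering of the blown up plane which is branched with these orders,
they are the Chern numbers of the symplectic manifold `Y` divided by the degree of the covering.
-/

namespace Pool.Agent.Helper8.PL.GapResult

open Pool.Agent.Helper8.PL Wiring Finset

/-- For every `ε > 0` there is a `κ > 0` such that, for every arrangement of `d` pseudolines with
at most `(1 - ε) d` of them through a point, for almost equal weights `(1 - κ) x ≤ w i ≤ x` on the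
lines with `x ≤ 1` and `κ x d ≥ 1`, and for all real weights `z k` on the exceptional spheres
(nonnegative over the vertices of multiplicity more than `κ d`), one has
`c1sq + κ (x d) ^ 2 ≤ 3 c2`; and `c1sq ≤ (3 - κ) c2` if `x ≥ ε` and all `z k` are in `[0, 1]`. -/
theorem result : ∀ ε : ℝ, 0 < ε → ∃ κ : ℝ, 0 < κ ∧ ∀ (d : ℕ) (W : Wiring d),
    (∀ k < W.M, (W.mult k : ℝ) ≤ (1 - ε) * d) →
      ∀ (x : ℝ) (w : Fin d → ℝ) (z : ℕ → ℝ) (Bl : Finset ℕ), x ≤ 1 → 1 ≤ κ * (x * d) →
        (∀ i, (1 - κ) * x ≤ w i ∧ w i ≤ x) → Bl ⊆ range W.M →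
        (∀ k < W.M, k ∉ Bl → W.mult k = 2) → (∀ k ∈ Bl, κ * d < W.mult k → 0 ≤ z k) →
          c1sq W w z Bl + κ * (x * d) ^ 2 ≤ 3 * c2 W w z Bl ∧
          (ε ≤ x → (∀ k ∈ Bl, 0 ≤ z k ∧ z k ≤ 1) →
            c1sq W w z Bl ≤ (3 - κ) * c2 W w z Bl) := by
  intro ε hε
  obtain ⟨κ, hκ, H⟩ := chern_main hε
  exact ⟨κ, hκ, fun _ W => H W⟩

end Pool.Agent.Helper8.PL.GapResult
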