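import Pool.Agent.Helper8.PL.Lip
import Pool.Agent.Helper8.PL.Defs2

/-! PL-W: the number of squares near the tile of a large vertex. -/

namespace Pool.Agent.Helper8.PL

open Wiring Finset MeasureTheory

private lemma hole_tt_mono {d : ℕ} (W : Wiring d) {N k l x : ℕ} (hkl : k ≤ l) (hl : l ≤ W.M)
    (hx : x ≤ d) : W.tt N k x ≤ W.tt N l x := by
  unfold Wiring.tt
  have := T_mono W (N := N) hkl hl hx
  have h2 : (W.T N k x : ℝ) ≤ W.T N l x := by exact_mod_cast this
  exact div_le_div_of_nonneg_right h2 (Nat.cast_nonneg d)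

private lemma hole_tt_right {d : ℕ} (W : Wiring d) {N k x y : ℕ} (hxy : x ≤ y) :
    W.tt N k x ≤ W.tt N k y := by
  unfold Wiring.tt
  have := T_mono_right W (N := N) (k := k) hxy
  have h2 : (W.T N k x : ℝ) ≤ W.T N k y := by exact_mod_cast this
  exact div_le_div_of_nonneg_right h2 (Nat.cast_nonneg d)

private lemma hole_tt_lip {d : ℕ} (W : Wiring d) {N m k x y : ℕ} (hd : 0 < d) (hN : 0 < N)
    (hm : d ≤ m * N) (hk : k ≤ W.M) {c : ℝ} (hc : 0 ≤ c) (h : (y : ℝ) / d - (x : ℝ) / d ≤ c) :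
    W.tt N k y ≤ W.tt N k x + m * c := by
  have hd' : (0 : ℝ) < d := by exact_mod_cast hd
  rcases le_total y x with hyx | hxy
  · have := hole_tt_right W (N := N) (k := k) hyx
    have h2 : (0 : ℝ) ≤ m * c := mul_nonneg (Nat.cast_nonneg m) hc
    linarith
  · have h1 := T_lip_right W hN hm hk hxy
    have h2 : (W.T N k y : ℝ) ≤ W.T N k x + m * ((y : ℝ) - x) := by
      have : ((W.T N k y : ℕ) : ℝ) ≤ ((W.T N k x + m * (y - x) : ℕ) : ℝ) := by exact_mod_cast h1
      rw [Nat.cast_add, Nat.cast_mul, Nat.cast_sub hxy] at this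
      exact this
    unfold Wiring.tt
    have h3 : (W.T N k y : ℝ) / d ≤ (W.T N k x + m * ((y : ℝ) - x)) / d :=
      div_le_div_of_nonneg_right h2 hd'.le
    have h4 : (W.T N k x + m * ((y : ℝ) - x)) / d =
        (W.T N k x : ℝ) / d + m * ((y : ℝ) / d - (x : ℝ) / d) := by
      field_simp
    rw [h4] at h3
    have h5 : (m : ℝ) * ((y : ℝ) / d - (x : ℝ) / d) ≤ m * c :=
      mul_le_mul_of_nonneg_left h (Nat.cast_nonneg m)
    linarith

private lemma hole_count (C : Finset ℕ) (c : ℕ) (f g : ℕ → ℕ) (S : Finset (ℕ × ℕ))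
    (hS : ∀ q ∈ S, q.1 ∈ C ∧ f q.1 ≤ q.2 ∧ q.2 ≤ g q.1) (hc : ∀ i, g i + 1 ≤ f i + c) :
    S.card ≤ C.card * c := by
  classical
  have h1 : S ⊆ C.biUnion fun i => (Finset.Icc (f i) (g i)).image fun j => (i, j) := by
    intro q hq
    obtain ⟨h1, h2, h3⟩ := hS q hq
    rw [Finset.mem_biUnion]
    exact ⟨q.1, h1, Finset.mem_image.2 ⟨q.2, Finset.mem_Icc.2 ⟨h2, h3⟩, rfl⟩⟩
  refine (Finset.card_le_card h1).trans (Finset.card_biUnion_le.trans ?_)
  have h2 : ∀ i ∈ C, ((Finset.Icc (f i) (g i)).image fun j => (i, j)).card ≤ c := by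
    intro i _
    refine Finset.card_image_le.trans ?_
    rw [Nat.card_Icc]
    have := hc i
    omega
  refine (Finset.sum_le_card_nsmul _ _ _ h2).trans ?_
  rw [smul_eq_mul]

open Classical in
theorem card_hole {d : ℕ} (W : Wiring d) {N m n k : ℕ} {δ : ℝ} (hd : 0 < d) (hN : 0 < N)
    (hm : d ≤ m * N) (hk : k < W.M) (hδ : δ * d < W.mult k) :
    (((range (m * 2 ^ n) ×ˢ range (m * 2 ^ n)).filter fun q : ℕ × ℕ =>
      (∃ j ∈ W.VQ N ((q.1 : ℝ) / 2 ^ n) ((q.2 : ℝ) / 2 ^ n) (1 / 2 ^ n),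
        (W.mult j : ℝ) ≤ δ * d) ∧
        ¬ W.Far N ((q.1 : ℝ) / 2 ^ n) ((q.2 : ℝ) / 2 ^ n) (1 / 2 ^ n) k).card : ℝ) ≤
      40 * m * ((W.mult k : ℝ) / d * 2 ^ n + 8) := by
  have hd' : (0 : ℝ) < d := by exact_mod_cast hd
  have hm0 : 1 ≤ m := by
    rcases Nat.eq_zero_or_pos m with h | h
    · rw [h, zero_mul] at hm; omega
    · exact h
  have hm1 : (1 : ℝ) ≤ m := by exact_mod_cast hm0
  set P : ℝ := 2 ^ n with hP
  have hP0 : 0 < P := by positivity
  set S := (range (m * 2 ^ n) ×ˢ range (m * 2 ^ n)).filter fun q : ℕ × ℕ =>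
      (∃ j ∈ W.VQ N ((q.1 : ℝ) / P) ((q.2 : ℝ) / P) (1 / P),
        (W.mult j : ℝ) ≤ δ * d) ∧
        ¬ W.Far N ((q.1 : ℝ) / P) ((q.2 : ℝ) / P) (1 / P) k with hS
  have hex : ∀ i : ℕ, ∃ x : ℕ, (∃ y : ℕ, |(y : ℝ) / d - (i : ℝ) / P| ≤ 3 * (1 / P)) →
      |(x : ℝ) / d - (i : ℝ) / P| ≤ 3 * (1 / P) := by
    intro i
    by_cases h : ∃ y : ℕ, |(y : ℝ) / d - (i : ℝ) / P| ≤ 3 * (1 / P)
    · obtain ⟨y, hy⟩ := h
      exact ⟨y, fun _ => hy⟩
    · exact ⟨0, fun h' => absurd h' h⟩
  choose xs hxs using hex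
  set A : ℕ → ℕ := fun i => ⌊W.tt N k (xs i) * P⌋₊ with hA
  set B : ℕ → ℕ := fun i => ⌊W.tt N (k + 1) (xs i) * P⌋₊ with hB
  set C : Finset ℕ := Finset.Icc (⌊(W.lo k : ℝ) / d * P⌋₊ - 3) (⌊(W.hi k : ℝ) / d * P⌋₊ + 3) with hC
  set S1 := S.filter fun q => q.1 ∈ C ∧ A q.1 - (6 * m + 3) ≤ q.2 ∧ q.2 ≤ A q.1 + 4 * m with hS1
  set S2 := S.filter fun q => q.1 ∈ C ∧ B q.1 - (4 * m + 1) ≤ q.2 ∧ q.2 ≤ B q.1 + (6 * m + 3)
    with hS2
  have hsub : S ⊆ S1 ∪ S2 := by
    intro q hq
    obtain ⟨-, ⟨j, hj, hjm⟩, hF⟩ := Finset.mem_filter.1 hq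
    unfold Wiring.VQ at hj
    rw [Finset.mem_filter, mem_range] at hj
    obtain ⟨hjM, ⟨k1, k2⟩, k3, k4⟩ := hj
    unfold Wiring.Far at hF
    push Not at hF
    obtain ⟨x, hxd, hx1, hx2, hx3, hx4, hx5⟩ := hF
    have hx0 := hxs q.1 ⟨x, hx3⟩
    have hlo : W.lo j ≤ d := by
      have a1 := W.two_le j hjM
      have a2 := W.le_d j hjM
      omega
    have hjk : j ≠ k := by
      intro h
      rw [h] at hjm
      linarith
    set s : ℝ := (q.1 : ℝ) / P with hs
    set t : ℝ := (q.2 : ℝ) / P with ht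
    set l : ℝ := 1 / P with hl
    have hl0 : 0 < l := by positivity
    have tP : t * P = q.2 := by rw [ht]; field_simp
    have lP : l * P = 1 := by rw [hl]; field_simp
    have sP : s * P = q.1 := by rw [hs]; field_simp
    obtain ⟨b1, b2⟩ := abs_le.1 hx3
    obtain ⟨b3, b4⟩ := abs_le.1 hx0
    have hqC : q.1 ∈ C := by
      rw [hC, Finset.mem_Icc]
      have e1 : (W.lo k : ℝ) / d ≤ (x : ℝ) / d :=
        div_le_div_of_nonneg_right (by exact_mod_cast hx1) hd'.le
      have e2 : (x : ℝ) / d ≤ (W.hi k : ℝ) / d :=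
        div_le_div_of_nonneg_right (by exact_mod_cast hx2) hd'.le
      constructor
      · have h1 : (W.lo k : ℝ) / d * P ≤ q.1 + 3 := by
          have : (W.lo k : ℝ) / d ≤ s + 3 * l := by linarith
          have h2 := mul_le_mul_of_nonneg_right this hP0.le
          have e : (s + 3 * l) * P = q.1 + 3 := by
            rw [add_mul, mul_assoc, lP, sP]; ring
          rw [e] at h2
          exact h2
        have h3 : ((⌊(W.lo k : ℝ) / d * P⌋₊ : ℕ) : ℝ) ≤ (W.lo k : ℝ) / d * P :=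
          Nat.floor_le (by positivity)
        have h4 : ((⌊(W.lo k : ℝ) / d * P⌋₊ : ℕ) : ℝ) ≤ ((q.1 + 3 : ℕ) : ℝ) := by
          push_cast
          linarith
        have h5 : ⌊(W.lo k : ℝ) / d * P⌋₊ ≤ q.1 + 3 := by exact_mod_cast h4
        omega
      · have h1 : (q.1 : ℝ) ≤ (W.hi k : ℝ) / d * P + 3 := by
          have : s ≤ (W.hi k : ℝ) / d + 3 * l := by linarith
          have h2 := mul_le_mul_of_nonneg_right this hP0.le
          have e : ((W.hi k : ℝ) / d + 3 * l) * P = (W.hi k : ℝ) / d * P + 3 := by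
            rw [add_mul, mul_assoc 3 l P, lP]; ring
          rw [e, sP] at h2
          exact h2
        have h3 : (W.hi k : ℝ) / d * P < (⌊(W.hi k : ℝ) / d * P⌋₊ : ℕ) + 1 :=
          Nat.lt_floor_add_one _
        have h4 : (q.1 : ℝ) < ((⌊(W.hi k : ℝ) / d * P⌋₊ + 1 + 3 : ℕ) : ℝ) := by
          push_cast
          linarith
        have h5 : q.1 < ⌊(W.hi k : ℝ) / d * P⌋₊ + 1 + 3 := by exact_mod_cast h4
        omega
    rw [Finset.mem_union]
    rcases Nat.lt_or_gt_of_ne hjk with hlt | hgt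
    · left
      rw [hS1, Finset.mem_filter]
      refine ⟨hq, hqC, ?_⟩
      have g1 : t ≤ W.tt N k (xs q.1) + m * (4 * l) := by
        have a1 := hole_tt_mono W (N := N) hlt.le hk.le hlo
        have a2 : W.tt N k (W.lo j) ≤ W.tt N k (xs q.1) + m * (4 * l) := by
          apply hole_tt_lip W hd hN hm hk.le (by positivity)
          linarith
        linarith
      have g2 : W.tt N k (xs q.1) ≤ t + 3 * l + m * (6 * l) := by
        have a2 : W.tt N k (xs q.1) ≤ W.tt N k x + m * (6 * l) := by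
          apply hole_tt_lip W hd hN hm hk.le (by positivity)
          linarith
        linarith
      have g3 : (q.2 : ℝ) ≤ W.tt N k (xs q.1) * P + 4 * m := by
        have := mul_le_mul_of_nonneg_right g1 hP0.le
        have e : (W.tt N k (xs q.1) + m * (4 * l)) * P =
          W.tt N k (xs q.1) * P + 4 * m * (l * P) := by ring
        rw [e, tP, lP, mul_one] at this
        exact this
      have g4 : W.tt N k (xs q.1) * P ≤ q.2 + (6 * m + 3) := by
        have := mul_le_mul_of_nonneg_right g2 hP0.le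
        have e : (t + 3 * l + m * (6 * l)) * P = t * P + (6 * m + 3) * (l * P) := by ring
        rw [e, tP, lP, mul_one] at this
        exact this
      have g6 : 0 ≤ W.tt N k (xs q.1) * P := by
        unfold Wiring.tt
        positivity
      have g7 : ((A q.1 : ℕ) : ℝ) ≤ W.tt N k (xs q.1) * P := Nat.floor_le g6
      have g8 : W.tt N k (xs q.1) * P < (A q.1 : ℕ) + 1 := Nat.lt_floor_add_one _
      constructor
      · have : ((A q.1 : ℕ) : ℝ) ≤ ((q.2 + (6 * m + 3) : ℕ) : ℝ) := by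
          push_cast
          linarith
        have : A q.1 ≤ q.2 + (6 * m + 3) := by exact_mod_cast this
        omega
      · have : (q.2 : ℝ) < ((A q.1 + 1 + 4 * m : ℕ) : ℝ) := by
          push_cast
          linarith
        have : q.2 < A q.1 + 1 + 4 * m := by exact_mod_cast this
        omega
    · right
      rw [hS2, Finset.mem_filter]
      refine ⟨hq, hqC, ?_⟩
      have hk1 : k + 1 ≤ W.M := hk
      have g1 : t ≤ W.tt N (k + 1) (xs q.1) + m * (6 * l) + 3 * l := by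
        have a2 : W.tt N (k + 1) x ≤ W.tt N (k + 1) (xs q.1) + m * (6 * l) := by
          apply hole_tt_lip W hd hN hm hk1 (by positivity)
          linarith
        linarith
      have g2 : W.tt N (k + 1) (xs q.1) < t + l + m * (4 * l) := by
        have a1 := hole_tt_mono W (N := N) (x := W.lo j) (k := k + 1) (l := j) hgt hjM.le hlo
        have a2 : W.tt N (k + 1) (xs q.1) ≤ W.tt N (k + 1) (W.lo j) + m * (4 * l) := by
          apply hole_tt_lip W hd hN hm hk1 (by positivity)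
          linarith
        linarith
      have g3 : (q.2 : ℝ) ≤ W.tt N (k + 1) (xs q.1) * P + (6 * m + 3) := by
        have := mul_le_mul_of_nonneg_right g1 hP0.le
        have e : (W.tt N (k + 1) (xs q.1) + m * (6 * l) + 3 * l) * P =
          W.tt N (k + 1) (xs q.1) * P + (6 * m + 3) * (l * P) := by ring
        rw [e, tP, lP, mul_one] at this
        exact this
      have g4 : W.tt N (k + 1) (xs q.1) * P ≤ q.2 + (4 * m + 1) := by
        have := mul_le_mul_of_nonneg_right g2.le hP0.le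
        have e : (t + l + m * (4 * l)) * P = t * P + (4 * m + 1) * (l * P) := by ring
        rw [e, tP, lP, mul_one] at this
        exact this
      have g6 : 0 ≤ W.tt N (k + 1) (xs q.1) * P := by
        unfold Wiring.tt
        positivity
      have g7 : ((B q.1 : ℕ) : ℝ) ≤ W.tt N (k + 1) (xs q.1) * P := Nat.floor_le g6
      have g8 : W.tt N (k + 1) (xs q.1) * P < (B q.1 : ℕ) + 1 := Nat.lt_floor_add_one _
      constructor
      · have : ((B q.1 : ℕ) : ℝ) ≤ ((q.2 + (4 * m + 1) : ℕ) : ℝ) := by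
          push_cast
          linarith
        have : B q.1 ≤ q.2 + (4 * m + 1) := by exact_mod_cast this
        omega
      · have : (q.2 : ℝ) < ((B q.1 + 1 + (6 * m + 3) : ℕ) : ℝ) := by
          push_cast
          linarith
        have : q.2 < B q.1 + 1 + (6 * m + 3) := by exact_mod_cast this
        omega
  have c1 : S1.card ≤ C.card * (10 * m + 4) := by
    apply hole_count C (10 * m + 4) (fun i => A i - (6 * m + 3)) (fun i => A i + 4 * m) S1
    · intro q hq
      exact (Finset.mem_filter.1 hq).2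
    · intro i
      show A i + 4 * m + 1 ≤ A i - (6 * m + 3) + (10 * m + 4)
      omega
  have c2 : S2.card ≤ C.card * (10 * m + 5) := by
    apply hole_count C (10 * m + 5) (fun i => B i - (4 * m + 1)) (fun i => B i + (6 * m + 3)) S2
    · intro q hq
      exact (Finset.mem_filter.1 hq).2
    · intro i
      show B i + (6 * m + 3) + 1 ≤ B i - (4 * m + 1) + (10 * m + 5)
      omega
  have c3 : S.card ≤ C.card * (20 * m + 9) := by
    have h1 : S.card ≤ S1.card + S2.card :=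
      (Finset.card_le_card hsub).trans (Finset.card_union_le _ _)
    have h2 : C.card * (20 * m + 9) = C.card * (10 * m + 4) + C.card * (10 * m + 5) := by ring
    omega
  have hlohi : W.lo k ≤ W.hi k := by
    have := W.two_le k hk
    omega
  have c4 : (C.card : ℝ) ≤ (W.mult k : ℝ) / d * P + 8 := by
    have e1 : (W.lo k : ℝ) / d * P ≤ (W.hi k : ℝ) / d * P := by
      apply mul_le_mul_of_nonneg_right _ hP0.le
      exact div_le_div_of_nonneg_right (by exact_mod_cast hlohi) hd'.le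
    have e2 : ⌊(W.lo k : ℝ) / d * P⌋₊ ≤ ⌊(W.hi k : ℝ) / d * P⌋₊ := Nat.floor_mono e1
    have e3 : C.card ≤ ⌊(W.hi k : ℝ) / d * P⌋₊ + 7 - ⌊(W.lo k : ℝ) / d * P⌋₊ := by
      rw [hC, Nat.card_Icc]
      omega
    have e4 : ((⌊(W.hi k : ℝ) / d * P⌋₊ : ℕ) : ℝ) ≤ (W.hi k : ℝ) / d * P :=
      Nat.floor_le (by positivity)
    have e5 : (W.lo k : ℝ) / d * P < (⌊(W.lo k : ℝ) / d * P⌋₊ : ℕ) + 1 := Nat.lt_floor_add_one _
    have e6 : (C.card : ℝ) ≤ (⌊(W.hi k : ℝ) / d * P⌋₊ : ℕ) + 7 - (⌊(W.lo k : ℝ) / d * P⌋₊ : ℕ) := by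
      have : ((C.card : ℕ) : ℝ) ≤
          ((⌊(W.hi k : ℝ) / d * P⌋₊ + 7 - ⌊(W.lo k : ℝ) / d * P⌋₊ : ℕ) : ℝ) := by
        exact_mod_cast e3
      rw [Nat.cast_sub (by omega)] at this
      push_cast at this
      exact this
    have e7 : (W.mult k : ℝ) / d * P = (W.hi k : ℝ) / d * P - (W.lo k : ℝ) / d * P := by
      unfold Wiring.mult
      rw [Nat.cast_sub hlohi]
      ring
    linarith
  have c5 : (S.card : ℝ) ≤ C.card * (20 * m + 9) := by
    have : ((S.card : ℕ) : ℝ) ≤ ((C.card * (20 * m + 9) : ℕ) : ℝ) := by exact_mod_cast c3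
    push_cast at this
    exact this
  have c6 : (0 : ℝ) ≤ (W.mult k : ℝ) / d * P + 8 := by positivity
  calc (S.card : ℝ) ≤ C.card * (20 * m + 9) := c5
    _ ≤ ((W.mult k : ℝ) / d * P + 8) * (20 * m + 9) := by
        apply mul_le_mul_of_nonneg_right c4
        positivity
    _ ≤ ((W.mult k : ℝ) / d * P + 8) * (40 * m) := by
        apply mul_le_mul_of_nonneg_left _ c6
        linarith
    _ = 40 * m * ((W.mult k : ℝ) / d * P + 8) := by ring

end Pool.Agent.Helper8.PL
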