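import Mathlib

/-! Project PL, piece PL-E: positivity of the kernel. -/

open MeasureTheory Set Filter
open scoped ENNReal NNReal Topology

namespace Pool.Agent.Helper8.PL

theorem ker_int_sin (m : ℤ) (hm : Odd m) :
    ∫ t in (0 : ℝ)..Real.pi, Real.sin (m * t) = 2 / m := by
  obtain ⟨j, rfl⟩ := hm
  have h0 : ((2 * j + 1 : ℤ) : ℝ) ≠ 0 := by
    exact_mod_cast (by omega : (2 * j + 1 : ℤ) ≠ 0)
  rw [intervalIntegral.integral_comp_mul_left (fun x => Real.sin x) h0, integral_sin]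
  have h1 : Real.cos (((2 * j + 1 : ℤ) : ℝ) * Real.pi) = -1 := by
    push_cast
    rw [show (2 * (j : ℝ) + 1) * Real.pi = j * (2 * Real.pi) + Real.pi by ring]
    exact Real.cos_int_mul_two_pi_add_pi j
  rw [h1, mul_zero, Real.cos_zero, smul_eq_mul]
  field_simp
  norm_num

theorem ker_main (n : ℤ) : ∫ t in (0 : ℝ)..Real.pi,
    Real.sin t * (Real.sin t ^ 2 - 2 / 3) * Real.cos (2 * n * t) =
    16 / 3 * (n : ℝ) ^ 2 / ((4 * (n : ℝ) ^ 2 - 1) * (4 * (n : ℝ) ^ 2 - 9)) := by
  have h : ∀ t : ℝ, Real.sin t * (Real.sin t ^ 2 - 2 / 3) * Real.cos (2 * n * t) =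
      1 / 24 * (Real.sin (((2 * n + 1 : ℤ) : ℝ) * t) - Real.sin (((2 * n - 1 : ℤ) : ℝ) * t)) -
      1 / 8 * (Real.sin (((2 * n + 3 : ℤ) : ℝ) * t) - Real.sin (((2 * n - 3 : ℤ) : ℝ) * t)) := by
    intro t
    have e1 : ((2 * n + 1 : ℤ) : ℝ) * t = 2 * n * t + t := by push_cast; ring
    have e2 : ((2 * n - 1 : ℤ) : ℝ) * t = 2 * n * t - t := by push_cast; ring
    have e3 : ((2 * n + 3 : ℤ) : ℝ) * t = 2 * n * t + 3 * t := by push_cast; ring
    have e4 : ((2 * n - 3 : ℤ) : ℝ) * t = 2 * n * t - 3 * t := by push_cast; ring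
    rw [e1, e2, e3, e4, Real.sin_add, Real.sin_sub, Real.sin_add, Real.sin_sub,
      Real.sin_three_mul]
    ring
  simp only [h]
  have hc : ∀ m : ℤ, IntervalIntegrable (fun t => Real.sin (m * t)) volume 0 Real.pi := by
    intro m
    apply Continuous.intervalIntegrable
    fun_prop
  have o1 : Odd (2 * n + 1) := ⟨n, by ring⟩
  have o2 : Odd (2 * n - 1) := ⟨n - 1, by ring⟩
  have o3 : Odd (2 * n + 3) := ⟨n + 1, by ring⟩
  have o4 : Odd (2 * n - 3) := ⟨n - 2, by ring⟩
  rw [intervalIntegral.integral_sub ((((hc _).sub (hc _))).const_mul _)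
      (((hc _).sub (hc _)).const_mul _), intervalIntegral.integral_const_mul,
    intervalIntegral.integral_const_mul, intervalIntegral.integral_sub (hc _) (hc _),
    intervalIntegral.integral_sub (hc _) (hc _), ker_int_sin _ o1, ker_int_sin _ o2,
    ker_int_sin _ o3, ker_int_sin _ o4]
  have z1 : (2 * (n : ℝ) + 1) ≠ 0 := by exact_mod_cast (by omega : (2 * n + 1 : ℤ) ≠ 0)
  have z2 : (2 * (n : ℝ) - 1) ≠ 0 := by exact_mod_cast (by omega : (2 * n - 1 : ℤ) ≠ 0)
  have z3 : (2 * (n : ℝ) + 3) ≠ 0 := by exact_mod_cast (by omega : (2 * n + 3 : ℤ) ≠ 0)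
  have z4 : (2 * (n : ℝ) - 3) ≠ 0 := by exact_mod_cast (by omega : (2 * n - 3 : ℤ) ≠ 0)
  have e5 : (4 * (n : ℝ) ^ 2 - 1) * (4 * (n : ℝ) ^ 2 - 9) =
      (2 * n + 1) * (2 * n - 1) * ((2 * n + 3) * (2 * n - 3)) := by ring
  rw [e5]
  push_cast
  field_simp
  ring

theorem ker_main_ge {n : ℤ} (hn : 2 ≤ |n|) : 1 / (3 * (n : ℝ) ^ 2) ≤
    16 / 3 * (n : ℝ) ^ 2 / ((4 * (n : ℝ) ^ 2 - 1) * (4 * (n : ℝ) ^ 2 - 9)) := by
  have h1 : (4 : ℝ) ≤ (n : ℝ) ^ 2 := by
    have h2 : (4 : ℤ) ≤ n ^ 2 := by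
      rw [← sq_abs]
      nlinarith
    exact_mod_cast h2
  rw [div_le_div_iff₀ (by positivity) (by nlinarith)]
  nlinarith

theorem ker_ibp (G : ℝ → ℝ) (hG : ContDiff ℝ 2 G) (h0 : G 0 = 0) (h1 : G Real.pi = 0) :
    ∃ C : ℝ, 0 ≤ C ∧ ∀ n : ℤ, n ≠ 0 →
      |∫ t in (0 : ℝ)..Real.pi, G t * Real.cos (2 * n * t)| ≤ C / (n : ℝ) ^ 2 := by
  have hG1 : ContDiff ℝ 1 (deriv G) := by
    have := (contDiff_succ_iff_deriv (n := 1) (f := G)).1 (by simpa [one_add_one_eq_two] using hG)
    exact this.2.2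
  have hd0 : ∀ t, HasDerivAt G (deriv G t) t := fun t =>
    ((hG.differentiable (by norm_num)) t).hasDerivAt
  have hd1 : ∀ t, HasDerivAt (deriv G) (deriv (deriv G) t) t := fun t =>
    ((hG1.differentiable (by norm_num)) t).hasDerivAt
  have hc1 : Continuous (deriv G) := hG1.continuous
  have hc2 : Continuous (deriv (deriv G)) := hG1.continuous_deriv (by norm_num)
  obtain ⟨M, hM⟩ := (isCompact_uIcc (a := (0 : ℝ)) (b := Real.pi)).exists_bound_of_continuousOn
    hc2.continuousOn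
  have hM0 : 0 ≤ M := (norm_nonneg _).trans (hM 0 left_mem_uIcc)
  have hpi := Real.pi_pos
  refine ⟨(|deriv G 0| + |deriv G Real.pi| + M * Real.pi) / 4, by positivity, fun n hn => ?_⟩
  have hn0 : (n : ℝ) ≠ 0 := by exact_mod_cast hn
  have hs : ∀ t : ℝ, HasDerivAt (fun t => Real.sin (2 * n * t) / (2 * n)) (Real.cos (2 * n * t)) t := by
    intro t
    have h2 : HasDerivAt (fun t : ℝ => 2 * (n : ℝ) * t) (2 * n * 1) t :=
      (hasDerivAt_id t).const_mul _
    have h3 := (h2.sin).div_const (2 * (n : ℝ))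
    refine h3.congr_deriv ?_
    field_simp
  have hcs : ∀ t : ℝ, HasDerivAt (fun t => -(Real.cos (2 * n * t) / (2 * n)))
      (Real.sin (2 * n * t)) t := by
    intro t
    have h2 : HasDerivAt (fun t : ℝ => 2 * (n : ℝ) * t) (2 * n * 1) t :=
      (hasDerivAt_id t).const_mul _
    have h3 := ((h2.cos).div_const (2 * (n : ℝ))).neg
    refine h3.congr_deriv ?_
    field_simp
  have e1 : ∫ t in (0 : ℝ)..Real.pi, G t * Real.cos (2 * n * t) =
      -(∫ t in (0 : ℝ)..Real.pi, deriv G t * Real.sin (2 * n * t)) / (2 * n) := by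
    rw [intervalIntegral.integral_mul_deriv_eq_deriv_mul (fun t _ => hd0 t) (fun t _ => hs t)
      (hc1.intervalIntegrable _ _) (Continuous.intervalIntegrable (by fun_prop) _ _), h0, h1]
    rw [zero_mul, zero_mul, sub_zero, zero_sub, neg_div, ← intervalIntegral.integral_div]
    congr 1
    refine intervalIntegral.integral_congr fun t _ => ?_
    ring
  have e2 : |∫ t in (0 : ℝ)..Real.pi, deriv G t * Real.sin (2 * n * t)| ≤
      (|deriv G 0| + |deriv G Real.pi| + M * Real.pi) / (2 * |(n : ℝ)|) := by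
    rw [intervalIntegral.integral_mul_deriv_eq_deriv_mul (fun t _ => hd1 t) (fun t _ => hcs t)
      (hc2.intervalIntegrable _ _) (Continuous.intervalIntegrable (by fun_prop) _ _)]
    have b1 : ∀ t : ℝ, |-(Real.cos (2 * n * t) / (2 * n))| ≤ 1 / (2 * |(n : ℝ)|) := by
      intro t
      rw [abs_neg, abs_div, abs_mul, abs_two]
      exact div_le_div_of_nonneg_right (Real.abs_cos_le_one _) (by positivity)
    have b2 : |deriv G Real.pi * -(Real.cos (2 * n * Real.pi) / (2 * n))| ≤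
        |deriv G Real.pi| * (1 / (2 * |(n : ℝ)|)) := by
      rw [abs_mul]
      exact mul_le_mul_of_nonneg_left (b1 _) (abs_nonneg _)
    have b3 : |deriv G 0 * -(Real.cos (2 * n * 0) / (2 * n))| ≤
        |deriv G 0| * (1 / (2 * |(n : ℝ)|)) := by
      rw [abs_mul]
      exact mul_le_mul_of_nonneg_left (b1 _) (abs_nonneg _)
    have b4 : |∫ t in (0 : ℝ)..Real.pi, deriv (deriv G) t * -(Real.cos (2 * n * t) / (2 * n))| ≤
        M * (1 / (2 * |(n : ℝ)|)) * Real.pi := by
      have := intervalIntegral.norm_integral_le_of_norm_le_const (a := 0) (b := Real.pi)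
        (f := fun t => deriv (deriv G) t * -(Real.cos (2 * n * t) / (2 * n)))
        (C := M * (1 / (2 * |(n : ℝ)|))) (fun t ht => by
          rw [norm_mul, Real.norm_eq_abs (-_)]
          exact mul_le_mul (hM t (uIoc_subset_uIcc ht)) (b1 t) (abs_nonneg _) hM0)
      rwa [sub_zero, abs_of_pos hpi, Real.norm_eq_abs] at this
    have b5 : (|deriv G 0| + |deriv G Real.pi| + M * Real.pi) / (2 * |(n : ℝ)|) =
        |deriv G Real.pi| * (1 / (2 * |(n : ℝ)|)) + |deriv G 0| * (1 / (2 * |(n : ℝ)|)) +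
          M * (1 / (2 * |(n : ℝ)|)) * Real.pi := by
      ring
    rw [b5]
    refine (abs_sub _ _).trans (add_le_add ((abs_sub _ _).trans (add_le_add b2 b3)) b4)
  rw [e1, abs_div, abs_neg, abs_mul, abs_two]
  have hna : 0 < |(n : ℝ)| := abs_pos.2 hn0
  calc |∫ t in (0 : ℝ)..Real.pi, deriv G t * Real.sin (2 * n * t)| / (2 * |(n : ℝ)|)
      ≤ ((|deriv G 0| + |deriv G Real.pi| + M * Real.pi) / (2 * |(n : ℝ)|)) /
        (2 * |(n : ℝ)|) := div_le_div_of_nonneg_right e2 (by positivity)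
    _ = (|deriv G 0| + |deriv G Real.pi| + M * Real.pi) / 4 / (n : ℝ) ^ 2 := by
        rw [← sq_abs (n : ℝ)]
        field_simp
        norm_num

theorem ker_fourier (k : ℝ → ℝ) (hc : Continuous k) (hp : ∀ t, k (t + Real.pi) = k t)
    (he : ∀ t, k (-t) = k t)
    (hs : Summable fun n : ℤ => ∫ t in (0 : ℝ)..Real.pi, k t * Real.cos (2 * n * t)) (x : ℝ) :
    HasSum (fun n : ℤ => (∫ t in (0 : ℝ)..Real.pi, k t * Real.cos (2 * n * t)) / Real.pi *
      Real.cos (2 * n * x)) (k x) := by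
  have hpi := Real.pi_pos
  haveI : Fact (0 < Real.pi) := ⟨hpi⟩
  have hper : Function.Periodic (fun t => (k t : ℂ)) Real.pi := fun t => by
    simp only [hp]
  have hcont : Continuous (hper.lift : AddCircle Real.pi → ℂ) :=
    continuous_coinduced_dom.mpr (Complex.continuous_ofReal.comp hc)
  obtain ⟨F, hF⟩ : ∃ F : C(AddCircle Real.pi, ℂ), ∀ t : ℝ, F (t : AddCircle Real.pi) = k t :=
    ⟨⟨hper.lift, hcont⟩, fun t => rfl⟩
  have hfe : ∀ (n : ℤ) (t : ℝ), fourier n (t : AddCircle Real.pi) =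
      Complex.exp ((2 * n * t : ℝ) * Complex.I) := by
    intro n t
    rw [fourier_coe_apply]
    congr 1
    have : (Real.pi : ℂ) ≠ 0 := by exact_mod_cast hpi.ne'
    push_cast
    field_simp
  have hcoef : ∀ n : ℤ, fourierCoeff F n =
      (((∫ t in (0 : ℝ)..Real.pi, k t * Real.cos (2 * n * t)) / Real.pi : ℝ) : ℂ) := by
    intro n
    rw [fourierCoeff_eq_intervalIntegral F n 0, zero_add]
    obtain ⟨E, hE⟩ : ∃ E : ℝ → ℂ, ∀ t, E t = Complex.exp (-((2 * n * t : ℝ) * Complex.I)) * k t :=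
      ⟨_, fun t => rfl⟩
    have hEc : Continuous E := by
      have : E = fun t => Complex.exp (-((2 * n * t : ℝ) * Complex.I)) * k t := funext hE
      rw [this]
      fun_prop
    have h1 : ∫ t in (0 : ℝ)..Real.pi, fourier (-n) (t : AddCircle Real.pi) • F t =
        ∫ t in (0 : ℝ)..Real.pi, E t := by
      refine intervalIntegral.integral_congr fun t _ => ?_
      rw [hfe, hF, hE, smul_eq_mul]
      congr 2
      push_cast
      ring
    have h2 : ∫ t in (0 : ℝ)..Real.pi, E (Real.pi - t) = ∫ t in (0 : ℝ)..Real.pi, E t := by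
      rw [intervalIntegral.integral_comp_sub_left E Real.pi, sub_self, sub_zero]
    have h3 : ∀ t : ℝ, E t + E (Real.pi - t) = ((2 * (k t * Real.cos (2 * n * t)) : ℝ) : ℂ) := by
      intro t
      have h4 : k (Real.pi - t) = k t := by
        rw [sub_eq_neg_add, hp, he]
      have h5 : Complex.exp (-((2 * n * (Real.pi - t) : ℝ) * Complex.I)) =
          Complex.exp ((2 * n * t : ℝ) * Complex.I) := by
        have : -((2 * n * (Real.pi - t) : ℝ) * Complex.I) =
            (2 * n * t : ℝ) * Complex.I + ((-n : ℤ) : ℂ) * (2 * Real.pi * Complex.I) := by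
          push_cast
          ring
        rw [this, Complex.exp_add, Complex.exp_int_mul_two_pi_mul_I, mul_one]
      rw [hE, hE, h4, h5, ← add_mul, add_comm, ← neg_mul]
      have h6 : Complex.exp ((2 * n * t : ℝ) * Complex.I) +
          Complex.exp (-((2 * n * t : ℝ) : ℂ) * Complex.I) = 2 * Complex.cos (2 * n * t : ℝ) := by
        rw [Complex.cos]
        ring
      rw [h6, ← Complex.ofReal_cos]
      push_cast
      ring
    have h7 : 2 * ∫ t in (0 : ℝ)..Real.pi, E t =
        ((2 * ∫ t in (0 : ℝ)..Real.pi, k t * Real.cos (2 * n * t) : ℝ) : ℂ) := by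
      have h8 : 2 * ∫ t in (0 : ℝ)..Real.pi, E t =
          ∫ t in (0 : ℝ)..Real.pi, (E t + E (Real.pi - t)) := by
        have hE2 : Continuous fun t : ℝ => E (Real.pi - t) := hEc.comp (by fun_prop)
        rw [intervalIntegral.integral_add (hEc.intervalIntegrable _ _)
          (hE2.intervalIntegrable _ _), h2]
        ring
      rw [h8]
      simp only [h3]
      rw [intervalIntegral.integral_ofReal, intervalIntegral.integral_const_mul]
    have h9 : ∫ t in (0 : ℝ)..Real.pi, E t =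
        ((∫ t in (0 : ℝ)..Real.pi, k t * Real.cos (2 * n * t) : ℝ) : ℂ) := by
      push_cast at h7 ⊢
      exact mul_left_cancel₀ two_ne_zero h7
    rw [h1, h9, Complex.real_smul]
    push_cast
    ring
  have hsum : Summable (fourierCoeff F) := by
    have h1 : fourierCoeff F = fun n : ℤ =>
      (((∫ t in (0 : ℝ)..Real.pi, k t * Real.cos (2 * n * t)) / Real.pi : ℝ) : ℂ) := funext hcoef
    rw [h1]
    exact Complex.summable_ofReal.2 (hs.div_const _)
  have h1 := has_pointwise_sum_fourier_series_of_summable hsum (x : AddCircle Real.pi)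
  have h2 := Complex.reCLM.hasSum h1
  rw [hF] at h2
  simp only [Complex.reCLM_apply, Complex.ofReal_re] at h2
  refine h2.congr_fun fun n => ?_
  rw [hcoef, hfe, smul_eq_mul, Complex.re_ofReal_mul, Complex.exp_ofReal_mul_I_re]

theorem ker_m0 (p : Polynomial ℝ) : ∫ t in (0 : ℝ)..Real.pi, Real.sin t * p.eval (Real.cos t ^ 2) =
    2 * ∫ x in (0 : ℝ)..1, p.eval (x ^ 2) := by
  have hc : Continuous fun x : ℝ => p.eval (x ^ 2) := by fun_prop
  have h1 := intervalIntegral.integral_comp_mul_deriv (a := 0) (b := Real.pi)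
    (f := Real.cos) (f' := fun t => -Real.sin t) (g := fun x : ℝ => p.eval (x ^ 2))
    (fun t _ => Real.hasDerivAt_cos t) (by fun_prop) hc
  rw [Real.cos_zero, Real.cos_pi] at h1
  have h2 : ∫ t in (0 : ℝ)..Real.pi, Real.sin t * p.eval (Real.cos t ^ 2) =
      -∫ t in (0 : ℝ)..Real.pi, ((fun x : ℝ => p.eval (x ^ 2)) ∘ Real.cos) t * -Real.sin t := by
    rw [← intervalIntegral.integral_neg]
    refine intervalIntegral.integral_congr fun t _ => ?_
    simp only [Function.comp_apply]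
    ring
  have h3 : ∫ x in (-1 : ℝ)..0, p.eval (x ^ 2) = ∫ x in (0 : ℝ)..1, p.eval (x ^ 2) := by
    have := intervalIntegral.integral_comp_neg (a := 0) (b := 1) (fun x : ℝ => p.eval (x ^ 2))
    rw [neg_zero] at this
    rw [← this]
    simp only [neg_sq]
  rw [h2, h1, intervalIntegral.integral_symm, neg_neg,
    ← intervalIntegral.integral_add_adjacent_intervals (hc.intervalIntegrable (-1) 0)
      (hc.intervalIntegrable 0 1), h3]
  ring

/-- PL-E. Positivity of the kernel. -/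
theorem kernel_psd (p : Polynomial ℝ) : ∃ a₀ : ℝ, 0 < a₀ ∧ ∀ a : ℝ, 0 ≤ a → a ≤ a₀ →
    ∀ (m : ℕ) (ρ α : Fin m → ℝ),
      ∑ c, ρ c * Real.cos (2 * α c) = 0 → ∑ c, ρ c * Real.sin (2 * α c) = 0 →
      0 ≤ ∑ c, ∑ c', ρ c * ρ c' * |Real.sin (α c - α c')| *
        (Real.sin (α c - α c') ^ 2 + a * p.eval (Real.cos (α c - α c') ^ 2) -
          (2 / 3 + a * ∫ x in (0 : ℝ)..1, p.eval (x ^ 2))) := by
  obtain ⟨m0, hm0⟩ : ∃ m0 : ℝ, m0 = ∫ x in (0 : ℝ)..1, p.eval (x ^ 2) := ⟨_, rfl⟩
  have hpi := Real.pi_pos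
  have hG : ∀ q : Polynomial ℝ, ContDiff ℝ 2 fun t : ℝ => Real.sin t * q.eval (Real.cos t ^ 2) := by
    intro q
    have h3 : ContDiff ℝ 2 fun x : ℝ => q.eval x := by
      simpa [Polynomial.coe_aeval_eq_eval] using q.contDiff_aeval (𝕜 := ℝ) (n := 2)
    exact Real.contDiff_sin.mul (h3.comp (Real.contDiff_cos.pow 2))
  have hB : ∀ q : Polynomial ℝ, ∃ C : ℝ, 0 ≤ C ∧ ∀ n : ℤ, n ≠ 0 →
      |∫ t in (0 : ℝ)..Real.pi, Real.sin t * q.eval (Real.cos t ^ 2) * Real.cos (2 * n * t)| ≤
        C / (n : ℝ) ^ 2 := by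
    intro q
    exact ker_ibp _ (hG q) (by simp) (by simp)
  obtain ⟨C, hC, hCn⟩ := hB (p - Polynomial.C m0)
  refine ⟨1 / (3 * C + 1), by positivity, fun a ha ha0 m ρ α h1 h2 => ?_⟩
  rw [← hm0]
  obtain ⟨k, hk⟩ : ∃ k : ℝ → ℝ, ∀ t, k t = |Real.sin t| *
    (Real.sin t ^ 2 + a * p.eval (Real.cos t ^ 2) - (2 / 3 + a * m0)) := ⟨_, fun t => rfl⟩
  have hkc : Continuous k := by
    have : k = fun t => |Real.sin t| *
      (Real.sin t ^ 2 + a * p.eval (Real.cos t ^ 2) - (2 / 3 + a * m0)) := funext hk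
    rw [this]
    fun_prop
  -- the coefficients
  have hcoef : ∀ n : ℤ, ∫ t in (0 : ℝ)..Real.pi, k t * Real.cos (2 * n * t) =
      16 / 3 * (n : ℝ) ^ 2 / ((4 * (n : ℝ) ^ 2 - 1) * (4 * (n : ℝ) ^ 2 - 9)) +
      a * ∫ t in (0 : ℝ)..Real.pi, Real.sin t * (p - Polynomial.C m0).eval (Real.cos t ^ 2) *
        Real.cos (2 * n * t) := by
    intro n
    rw [← ker_main n, ← intervalIntegral.integral_const_mul, ← intervalIntegral.integral_add
      (Continuous.intervalIntegrable (by fun_prop) _ _)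
      (Continuous.intervalIntegrable (by fun_prop) _ _)]
    refine intervalIntegral.integral_congr fun t ht => ?_
    rw [uIcc_of_le hpi.le] at ht
    have hs : 0 ≤ Real.sin t := Real.sin_nonneg_of_mem_Icc ht
    simp only [hk, Polynomial.eval_sub, Polynomial.eval_C]
    rw [abs_of_nonneg hs]
    ring
  have hc0 : ∫ t in (0 : ℝ)..Real.pi, k t * Real.cos (2 * (0 : ℤ) * t) = 0 := by
    rw [hcoef 0]
    have h3 : ∫ t in (0 : ℝ)..Real.pi, Real.sin t * (p - Polynomial.C m0).eval (Real.cos t ^ 2) *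
        Real.cos (2 * (0 : ℤ) * t) = 0 := by
      have h4 : ∀ t : ℝ, Real.sin t * (p - Polynomial.C m0).eval (Real.cos t ^ 2) *
        Real.cos (2 * (0 : ℤ) * t) = Real.sin t * p.eval (Real.cos t ^ 2) - m0 * Real.sin t := by
        intro t
        simp only [Int.cast_zero, mul_zero, zero_mul, Real.cos_zero, Polynomial.eval_sub,
          Polynomial.eval_C, mul_one]
        ring
      simp only [h4]
      rw [intervalIntegral.integral_sub (Continuous.intervalIntegrable (by fun_prop) _ _)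
        (Continuous.intervalIntegrable (by fun_prop) _ _), ker_m0, ← hm0,
        intervalIntegral.integral_const_mul, integral_sin, Real.cos_zero, Real.cos_pi]
      ring
    rw [h3]
    simp
  have hcn : ∀ n : ℤ, 2 ≤ |n| → 0 ≤ ∫ t in (0 : ℝ)..Real.pi, k t * Real.cos (2 * n * t) := by
    intro n hn
    have hn0 : n ≠ 0 := by
      rintro rfl
      simp at hn
    have hnr : (0 : ℝ) < (n : ℝ) ^ 2 := by
      have : (n : ℝ) ≠ 0 := by exact_mod_cast hn0
      positivity
    rw [hcoef n]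
    have h3 := ker_main_ge hn
    have h4 := (abs_le.1 (hCn n hn0)).1
    have h5 : a * C ≤ 1 / 3 := by
      have : a * (3 * C + 1) ≤ 1 := by
        rwa [le_div_iff₀ (by positivity)] at ha0
      nlinarith
    have h6 : a * (-(C / (n : ℝ) ^ 2)) ≤ a * ∫ t in (0 : ℝ)..Real.pi, Real.sin t *
        (p - Polynomial.C m0).eval (Real.cos t ^ 2) * Real.cos (2 * n * t) :=
      mul_le_mul_of_nonneg_left h4 ha
    have h7 : a * (C / (n : ℝ) ^ 2) ≤ 1 / (3 * (n : ℝ) ^ 2) := by
      rw [← mul_div_assoc, div_le_div_iff₀ hnr (by positivity)]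
      nlinarith
    linarith
  have hsum : Summable fun n : ℤ => ∫ t in (0 : ℝ)..Real.pi, k t * Real.cos (2 * n * t) := by
    obtain ⟨C', hC', hCn'⟩ := hB ((1 - Polynomial.X) + Polynomial.C a * p -
      Polynomial.C (2 / 3 + a * m0))
    have h3 : ∀ n : ℤ, n ≠ 0 → |∫ t in (0 : ℝ)..Real.pi, k t * Real.cos (2 * n * t)| ≤
        C' / (n : ℝ) ^ 2 := by
      intro n hn
      have h4 : ∫ t in (0 : ℝ)..Real.pi, k t * Real.cos (2 * n * t) =
          ∫ t in (0 : ℝ)..Real.pi, Real.sin t * ((1 - Polynomial.X) + Polynomial.C a * p -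
            Polynomial.C (2 / 3 + a * m0)).eval (Real.cos t ^ 2) * Real.cos (2 * n * t) := by
        refine intervalIntegral.integral_congr fun t ht => ?_
        rw [uIcc_of_le hpi.le] at ht
        have hs : 0 ≤ Real.sin t := Real.sin_nonneg_of_mem_Icc ht
        have h5 := Real.sin_sq_add_cos_sq t
        have h6 : Real.sin t ^ 2 = 1 - Real.cos t ^ 2 := by linarith
        simp only [hk, Polynomial.eval_sub, Polynomial.eval_add, Polynomial.eval_mul,
          Polynomial.eval_C, Polynomial.eval_X, Polynomial.eval_one]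
        rw [abs_of_nonneg hs, h6]
      rw [h4]
      exact hCn' n hn
    have h7 : Summable fun n : ℤ => C' / (n : ℝ) ^ 2 := by
      have := (Real.summable_one_div_int_pow (p := 2)).2 (by norm_num)
      refine (this.mul_left C').congr fun n => ?_
      ring
    refine Summable.of_norm_bounded_eventually h7 ?_
    rw [Filter.eventually_cofinite]
    refine (Set.finite_singleton (0 : ℤ)).subset fun n hn => ?_
    by_contra h8
    exact hn (h3 n h8)
  have hfs := ker_fourier k hkc (fun t => by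
      rw [hk, hk, Real.sin_add_pi, Real.cos_add_pi, abs_neg, neg_sq, neg_sq])
    (fun t => by rw [hk, hk, Real.sin_neg, Real.cos_neg, abs_neg, neg_sq]) hsum
  have hfin : HasSum (fun n : ℤ => (∫ t in (0 : ℝ)..Real.pi, k t * Real.cos (2 * n * t)) /
      Real.pi * ((∑ c, ρ c * Real.cos (2 * n * α c)) ^ 2 +
        (∑ c, ρ c * Real.sin (2 * n * α c)) ^ 2))
      (∑ c, ∑ c', ρ c * ρ c' * k (α c - α c')) := by
    have h3 := hasSum_sum (s := Finset.univ) (f := fun (c : Fin m) (n : ℤ) =>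
      ∑ c', ρ c * ρ c' * ((∫ t in (0 : ℝ)..Real.pi, k t * Real.cos (2 * n * t)) / Real.pi *
        Real.cos (2 * n * (α c - α c')))) (a := fun c => ∑ c', ρ c * ρ c' * k (α c - α c'))
      (fun c _ => hasSum_sum fun c' _ => (hfs (α c - α c')).mul_left (ρ c * ρ c'))
    refine h3.congr_fun fun n => ?_
    have h4 : ∀ c c' : Fin m, Real.cos (2 * n * (α c - α c')) =
        Real.cos (2 * n * α c) * Real.cos (2 * n * α c') +
          Real.sin (2 * n * α c) * Real.sin (2 * n * α c') := by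
      intro c c'
      rw [mul_sub, Real.cos_sub]
    simp only [h4]
    rw [sq, sq, Finset.sum_mul_sum, Finset.sum_mul_sum, ← Finset.sum_add_distrib,
      Finset.mul_sum]
    refine Finset.sum_congr rfl fun c _ => ?_
    rw [← Finset.sum_add_distrib, Finset.mul_sum]
    refine Finset.sum_congr rfl fun c' _ => ?_
    ring
  have hpos : 0 ≤ ∑ c, ∑ c', ρ c * ρ c' * k (α c - α c') := by
    refine hfin.nonneg fun n => ?_
    rcases lt_or_ge 1 |n| with hn | hn
    · exact mul_nonneg (div_nonneg (hcn n (by omega)) hpi.le) (by positivity)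
    · have h3 : n = 0 ∨ n = 1 ∨ n = -1 := by
        rcases abs_le.1 hn with ⟨h4, h5⟩
        omega
      rcases h3 with rfl | rfl | rfl
      · rw [hc0, zero_div, zero_mul]
      · have e1 : ∑ c, ρ c * Real.cos (2 * (1 : ℤ) * α c) = 0 := by
          simpa using h1
        have e2 : ∑ c, ρ c * Real.sin (2 * (1 : ℤ) * α c) = 0 := by
          simpa using h2
        rw [e1, e2]
        simp
      · have e1 : ∑ c, ρ c * Real.cos (2 * (-1 : ℤ) * α c) = 0 := by
          simpa using h1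
        have e2 : ∑ c, ρ c * Real.sin (2 * (-1 : ℤ) * α c) = 0 := by
          simpa using h2
        rw [e1, e2]
        simp
  refine hpos.trans_eq ?_
  refine Finset.sum_congr rfl fun c _ => Finset.sum_congr rfl fun c' _ => ?_
  rw [hk]
  ring

end Pool.Agent.Helper8.PL
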