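import Mathlib

/-! Project PL, piece PL-F: the polynomial and the vertex inequality. -/

open MeasureTheory Set Filter
open scoped ENNReal NNReal Topology

namespace Pool.Agent.Helper8.PL

/-- PL-F1. The polynomial. -/
theorem exists_poly : ∃ p : Polynomial ℝ, p.eval 0 < -2 ∧ p.eval (1 / 4) < -(1 / 2) ∧
    (∀ y : ℝ, 0 ≤ y → y ≤ 1 → p.eval y ≤ 1 / 4) ∧ 0 < ∫ x in (0 : ℝ)..1, p.eval (x ^ 2) := by
  set F : ℕ → ℝ → ℝ := fun N x =>
    (9 / 4) * (1 - x ^ 2) ^ N + (3 / 4) * (1 - (x ^ 2 - 1 / 4) ^ 2) ^ N with hF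
  have hcont : ∀ N, Continuous (F N) := by
    intro N
    simp only [hF]
    fun_prop
  have hlim : Tendsto (fun N => ∫ x in (0 : ℝ)..1, F N x) atTop
      (𝓝 (∫ x in (0 : ℝ)..1, (0 : ℝ))) := by
    refine intervalIntegral.tendsto_integral_filter_of_dominated_convergence (fun _ => (3 : ℝ))
      ?_ ?_ ?_ ?_
    · exact Eventually.of_forall fun N => (hcont N).aestronglyMeasurable
    · refine Eventually.of_forall fun N => Eventually.of_forall fun x hx => ?_
      rw [uIoc_of_le (zero_le_one' ℝ)] at hx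
      obtain ⟨h0, h1⟩ := hx
      have ha : 0 ≤ 1 - x ^ 2 := by nlinarith
      have ha' : 1 - x ^ 2 ≤ 1 := by nlinarith
      have hb : 0 ≤ 1 - (x ^ 2 - 1 / 4) ^ 2 := by nlinarith
      have hb' : 1 - (x ^ 2 - 1 / 4) ^ 2 ≤ 1 := by nlinarith [sq_nonneg (x ^ 2 - 1 / 4)]
      have e1 := pow_le_one₀ (n := N) ha ha'
      have e2 := pow_le_one₀ (n := N) hb hb'
      have e3 := pow_nonneg ha N
      have e4 := pow_nonneg hb N
      rw [Real.norm_eq_abs, abs_of_nonneg (by positivity)]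
      simp only [hF]
      linarith
    · exact intervalIntegrable_const
    · have hae : ∀ᵐ x : ℝ, x ≠ 1 / 2 ∧ x ≠ 1 := by
        have h1 : ∀ᵐ x : ℝ, x ≠ 1 / 2 := by
          simp [ae_iff, measure_singleton]
        have h2 : ∀ᵐ x : ℝ, x ≠ 1 := by
          simp [ae_iff, measure_singleton]
        filter_upwards [h1, h2] with x hx hx' using ⟨hx, hx'⟩
      filter_upwards [hae] with x hx hmem
      rw [uIoc_of_le (zero_le_one' ℝ)] at hmem
      obtain ⟨h0, h1⟩ := hmem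
      have ha : 0 ≤ 1 - x ^ 2 := by nlinarith
      have ha' : 1 - x ^ 2 < 1 := by nlinarith
      have hb : 0 ≤ 1 - (x ^ 2 - 1 / 4) ^ 2 := by nlinarith
      have hne : x ^ 2 - 1 / 4 ≠ 0 := by
        intro h
        have h2 : (x - 1 / 2) * (x + 1 / 2) = 0 := by linarith
        rcases mul_eq_zero.1 h2 with h3 | h3
        · exact hx.1 (by linarith)
        · linarith
      have hb' : 1 - (x ^ 2 - 1 / 4) ^ 2 < 1 := by
        have := sq_pos_of_ne_zero hne
        linarith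
      have e1 := tendsto_pow_atTop_nhds_zero_of_lt_one ha ha'
      have e2 := tendsto_pow_atTop_nhds_zero_of_lt_one hb hb'
      have e3 := (e1.const_mul (9 / 4)).add (e2.const_mul (3 / 4))
      simpa [hF] using e3
  rw [intervalIntegral.integral_zero] at hlim
  obtain ⟨N, hN⟩ := (hlim.eventually (gt_mem_nhds (show (0 : ℝ) < 1 / 4 by norm_num))).exists
  set p : Polynomial ℝ := Polynomial.C (1 / 4) -
    (Polynomial.C (9 / 4) * (1 - Polynomial.X) ^ N +
      Polynomial.C (3 / 4) * (1 - (Polynomial.X - Polynomial.C (1 / 4)) ^ 2) ^ N) with hp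
  have hev : ∀ y, p.eval y = 1 / 4 - ((9 / 4) * (1 - y) ^ N +
      (3 / 4) * (1 - (y - 1 / 4) ^ 2) ^ N) := by
    intro y
    simp [hp]
  refine ⟨p, ?_, ?_, ?_, ?_⟩
  · rw [hev]
    have h1 : (0 : ℝ) < (1 - (0 - 1 / 4) ^ 2) ^ N := by positivity
    have h2 : ((1 : ℝ) - 0) ^ N = 1 := by simp
    rw [h2]
    linarith
  · rw [hev]
    have h1 : (0 : ℝ) < (1 - 1 / 4) ^ N := by positivity
    have h2 : ((1 : ℝ) - (1 / 4 - 1 / 4) ^ 2) ^ N = 1 := by simp
    rw [h2]
    linarith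
  · intro y h0 h1
    rw [hev]
    have ha : 0 ≤ 1 - y := by linarith
    have hb : 0 ≤ 1 - (y - 1 / 4) ^ 2 := by nlinarith
    have e3 := pow_nonneg ha N
    have e4 := pow_nonneg hb N
    linarith
  · have h1 : ∀ x : ℝ, p.eval (x ^ 2) = 1 / 4 - F N x := fun x => hev _
    simp only [h1]
    rw [intervalIntegral.integral_sub intervalIntegrable_const
      ((hcont N).intervalIntegrable _ _)]
    simp only [intervalIntegral.integral_const, sub_zero, smul_eq_mul, one_mul]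
    linarith

theorem vert_compact {X : Type*} [TopologicalSpace X] {K : Set X} (hK : IsCompact K)
    (G F : X → ℝ) (hG : Continuous G) (hF : Continuous F) (hF0 : ∀ u ∈ K, 0 ≤ F u)
    (h : ∀ u ∈ K, F u = 0 → G u < 0) :
    ∃ a₀ : ℝ, 0 < a₀ ∧ ∀ a, 0 ≤ a → a ≤ a₀ → ∀ u ∈ K, a * G u ≤ F u := by
  have hK' : IsCompact (K ∩ {u | 0 ≤ G u}) :=
    hK.inter_right (isClosed_le continuous_const hG)
  by_cases hne : (K ∩ {u | 0 ≤ G u}).Nonempty
  · obtain ⟨u₀, hu₀, hmin⟩ := hK'.exists_isMinOn hne hF.continuousOn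
    obtain ⟨u₁, hu₁, hmax⟩ := hK'.exists_isMaxOn hne hG.continuousOn
    have hpos : 0 < F u₀ := by
      rcases (hF0 u₀ hu₀.1).lt_or_eq with h1 | h1
      · exact h1
      · exact absurd (h u₀ hu₀.1 h1.symm) (not_lt.2 hu₀.2)
    have hG1 : 0 ≤ G u₁ := hu₁.2
    refine ⟨F u₀ / (G u₁ + 1), by positivity, ?_⟩
    intro a ha ha1 u hu
    by_cases hu2 : 0 ≤ G u
    · have h1 : F u₀ ≤ F u := hmin ⟨hu, hu2⟩
      have h2 : G u ≤ G u₁ := hmax ⟨hu, hu2⟩
      have h3 : a * (G u₁ + 1) ≤ F u₀ := by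
        rwa [le_div_iff₀ (by positivity)] at ha1
      have h4 : a * G u ≤ a * (G u₁ + 1) := mul_le_mul_of_nonneg_left (by linarith) ha
      linarith
    · have h1 : a * G u ≤ 0 := mul_nonpos_of_nonneg_of_nonpos ha (not_le.1 hu2).le
      linarith [hF0 u hu]
  · refine ⟨1, one_pos, ?_⟩
    intro a ha _ u hu
    have hu2 : ¬ 0 ≤ G u := fun h' => hne ⟨u, hu, h'⟩
    have h1 : a * G u ≤ 0 := mul_nonpos_of_nonneg_of_nonpos ha (not_le.1 hu2).le
    linarith [hF0 u hu]

/-- The double sum over all ordered pairs. -/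
noncomputable def vert_G (p : Polynomial ℝ) (r : ℕ) (u : Fin r → ℂ) : ℝ :=
  ∑ i, ∑ j, p.eval ((1 + ((u i).re * (u j).re + (u i).im * (u j).im)) / 2) - r * p.eval 1 -
    r * (r - 4)

theorem vert_case (p : Polynomial ℝ) (r : ℕ)
    (hneg : ∀ u : Fin r → ℂ, (∀ i, (u i).re ^ 2 + (u i).im ^ 2 = 1) → (∑ i, (u i).re) = 0 →
      (∑ i, (u i).im) = 0 → vert_G p r u < 0) :
    ∃ a₀ : ℝ, 0 < a₀ ∧ ∀ a : ℝ, 0 ≤ a → a ≤ a₀ →
      ∀ {ι : Type} [DecidableEq ι] (S : Finset ι) (θ : ι → ℝ), S.card = r →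
      ∑ i ∈ S, ∑ j ∈ S.erase i,
        (Real.sin (θ i - θ j) ^ 2 + a * p.eval (Real.cos (θ i - θ j) ^ 2)) ≤
          (S.card : ℝ) ^ 2 / 2 + a * ((S.card : ℝ) * ((S.card : ℝ) - 4)) := by
  have hK : IsCompact {u : Fin r → ℂ | ∀ i, u i ∈ Metric.sphere (0 : ℂ) 1} := by
    have h1 := isCompact_univ_pi (s := fun _ : Fin r => Metric.sphere (0 : ℂ) 1)
      (fun _ => isCompact_sphere 0 1)
    have h2 : {u : Fin r → ℂ | ∀ i, u i ∈ Metric.sphere (0 : ℂ) 1} =
        Set.pi Set.univ (fun _ : Fin r => Metric.sphere (0 : ℂ) 1) := by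
      ext u
      simp
    rw [h2]
    exact h1
  have hsq : ∀ z : ℂ, z ∈ Metric.sphere (0 : ℂ) 1 ↔ z.re ^ 2 + z.im ^ 2 = 1 := by
    intro z
    rw [mem_sphere_zero_iff_norm]
    have h1 : ‖z‖ ^ 2 = z.re ^ 2 + z.im ^ 2 := by
      rw [Complex.sq_norm, Complex.normSq_apply]
      ring
    constructor
    · intro h
      rw [← h1, h]
      norm_num
    · intro h
      rw [← h1] at h
      have h2 : 0 ≤ ‖z‖ := norm_nonneg z
      nlinarith
  have hGc : Continuous (vert_G p r) := by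
    unfold vert_G
    fun_prop
  have hFc : Continuous (fun u : Fin r → ℂ =>
      ((∑ i, (u i).re) ^ 2 + (∑ i, (u i).im) ^ 2) / 2) := by
    fun_prop
  obtain ⟨a₀, ha₀, H⟩ := vert_compact hK (vert_G p r)
    (fun u => ((∑ i, (u i).re) ^ 2 + (∑ i, (u i).im) ^ 2) / 2) hGc hFc
    (fun u _ => by positivity)
    (by
      intro u hu h0
      have h1 : (∑ i, (u i).re) ^ 2 + (∑ i, (u i).im) ^ 2 = 0 := by
        simpa using h0
      have h2 := sq_nonneg (∑ i, (u i).re)
      have h3 := sq_nonneg (∑ i, (u i).im)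
      refine hneg u (fun i => (hsq _).1 (hu i)) ?_ ?_
      · exact pow_eq_zero_iff (two_ne_zero) |>.1 (by linarith)
      · exact pow_eq_zero_iff (two_ne_zero) |>.1 (by linarith))
  refine ⟨a₀, ha₀, ?_⟩
  intro a ha ha1 ι _ S θ hS
  have e : Fin r ≃ S := (Finset.equivFinOfCardEq hS).symm
  have hsum : ∀ f : ι → ℝ, ∑ i ∈ S, f i = ∑ k : Fin r, f (e k) := by
    intro f
    rw [← Finset.sum_coe_sort S f]
    exact (Equiv.sum_comp e (fun x : S => f x)).symm
  have hpair : ∀ i j : ι, Real.sin (θ i - θ j) ^ 2 + a * p.eval (Real.cos (θ i - θ j) ^ 2) =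
      (1 - (Real.cos (2 * θ i) * Real.cos (2 * θ j) +
        Real.sin (2 * θ i) * Real.sin (2 * θ j))) / 2 +
      a * p.eval ((1 + (Real.cos (2 * θ i) * Real.cos (2 * θ j) +
        Real.sin (2 * θ i) * Real.sin (2 * θ j))) / 2) := by
    intro i j
    have h1 : Real.cos (2 * θ i) * Real.cos (2 * θ j) + Real.sin (2 * θ i) * Real.sin (2 * θ j) =
        2 * Real.cos (θ i - θ j) ^ 2 - 1 := by
      rw [← Real.cos_sub, ← Real.cos_two_mul]
      congr 1
      ring
    have h2 := Real.sin_sq_add_cos_sq (θ i - θ j)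
    rw [h1]
    have h3 : (1 + (2 * Real.cos (θ i - θ j) ^ 2 - 1)) / 2 = Real.cos (θ i - θ j) ^ 2 := by ring
    rw [h3]
    linarith
  have herase : ∀ i ∈ S, ∑ j ∈ S.erase i,
      (Real.sin (θ i - θ j) ^ 2 + a * p.eval (Real.cos (θ i - θ j) ^ 2)) =
      ∑ j ∈ S, (Real.sin (θ i - θ j) ^ 2 + a * p.eval (Real.cos (θ i - θ j) ^ 2)) -
        a * p.eval 1 := by
    intro i hi
    rw [← Finset.sum_erase_add S _ hi]
    simp
  rw [Finset.sum_congr rfl herase, Finset.sum_sub_distrib, Finset.sum_const, nsmul_eq_mul, hS]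
  have hmain := H a ha ha1 (fun k => ⟨Real.cos (2 * θ (e k)), Real.sin (2 * θ (e k))⟩)
    (fun k => (hsq _).2 (by
      have := Real.cos_sq_add_sin_sq (2 * θ (e k))
      exact this))
  simp only [vert_G] at hmain
  have hC : ∑ i ∈ S, ∑ j ∈ S,
      (Real.sin (θ i - θ j) ^ 2 + a * p.eval (Real.cos (θ i - θ j) ^ 2)) =
      ((r : ℝ) ^ 2 - ((∑ k : Fin r, Real.cos (2 * θ (e k))) ^ 2 +
        (∑ k : Fin r, Real.sin (2 * θ (e k))) ^ 2)) / 2 +
      a * ∑ i : Fin r, ∑ j : Fin r,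
        p.eval ((1 + (Real.cos (2 * θ (e i)) * Real.cos (2 * θ (e j)) +
        Real.sin (2 * θ (e i)) * Real.sin (2 * θ (e j)))) / 2) := by
    rw [hsum]
    have h1 : ∀ k : Fin r, ∑ j ∈ S, (Real.sin (θ (e k) - θ j) ^ 2 +
        a * p.eval (Real.cos (θ (e k) - θ j) ^ 2)) =
        ∑ l : Fin r, ((1 - (Real.cos (2 * θ (e k)) * Real.cos (2 * θ (e l)) +
        Real.sin (2 * θ (e k)) * Real.sin (2 * θ (e l)))) / 2 +
      a * p.eval ((1 + (Real.cos (2 * θ (e k)) * Real.cos (2 * θ (e l)) +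
        Real.sin (2 * θ (e k)) * Real.sin (2 * θ (e l)))) / 2)) := by
      intro k
      rw [hsum]
      exact Finset.sum_congr rfl fun l _ => hpair _ _
    rw [Finset.sum_congr rfl fun k _ => h1 k]
    simp only [Finset.sum_add_distrib, Finset.mul_sum]
    congr 1
    simp only [← Finset.sum_div, Finset.sum_sub_distrib, Finset.sum_add_distrib, pow_two,
      Finset.sum_mul_sum]
    simp
  rw [hC]
  nlinarith [hmain]

theorem vert_two {p : Polynomial ℝ} (h0 : p.eval 0 < -2) (u : Fin 2 → ℂ)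
    (hu : ∀ i, (u i).re ^ 2 + (u i).im ^ 2 = 1) (hr : (∑ i, (u i).re) = 0)
    (hi : (∑ i, (u i).im) = 0) : vert_G p 2 u < 0 := by
  rw [Fin.sum_univ_two] at hr hi
  have e0 := hu 0
  have e1 := hu 1
  have d0 : (u 0).re * (u 0).re + (u 0).im * (u 0).im = 1 := by linarith
  have d1 : (u 1).re * (u 1).re + (u 1).im * (u 1).im = 1 := by linarith
  have x1 : (u 1).re = -(u 0).re := by linarith
  have y1 : (u 1).im = -(u 0).im := by linarith
  have c01 : (u 0).re * (u 1).re + (u 0).im * (u 1).im = -1 := by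
    rw [x1, y1]
    linarith
  have c10 : (u 1).re * (u 0).re + (u 1).im * (u 0).im = -1 := by linarith
  simp only [vert_G, Fin.sum_univ_two, d0, d1, c01, c10]
  norm_num
  linarith

theorem vert_three {p : Polynomial ℝ} (h1 : p.eval (1 / 4) < -(1 / 2)) (u : Fin 3 → ℂ)
    (hu : ∀ i, (u i).re ^ 2 + (u i).im ^ 2 = 1) (hr : (∑ i, (u i).re) = 0)
    (hi : (∑ i, (u i).im) = 0) : vert_G p 3 u < 0 := by
  rw [Fin.sum_univ_three] at hr hi
  have e0 := hu 0
  have e1 := hu 1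
  have e2 := hu 2
  have d0 : (u 0).re * (u 0).re + (u 0).im * (u 0).im = 1 := by linarith
  have d1 : (u 1).re * (u 1).re + (u 1).im * (u 1).im = 1 := by linarith
  have d2 : (u 2).re * (u 2).re + (u 2).im * (u 2).im = 1 := by linarith
  have x2 : (u 2).re = -(u 0).re - (u 1).re := by linarith
  have y2 : (u 2).im = -(u 0).im - (u 1).im := by linarith
  have c01 : (u 0).re * (u 1).re + (u 0).im * (u 1).im = -(1 / 2) := by
    rw [x2, y2] at e2
    linarith
  have c02 : (u 0).re * (u 2).re + (u 0).im * (u 2).im = -(1 / 2) := by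
    rw [x2, y2]
    linarith
  have c12 : (u 1).re * (u 2).re + (u 1).im * (u 2).im = -(1 / 2) := by
    rw [x2, y2]
    linarith
  have c10 : (u 1).re * (u 0).re + (u 1).im * (u 0).im = -(1 / 2) := by linarith
  have c20 : (u 2).re * (u 0).re + (u 2).im * (u 0).im = -(1 / 2) := by linarith
  have c21 : (u 2).re * (u 1).re + (u 2).im * (u 1).im = -(1 / 2) := by linarith
  have hq : ((1 : ℝ) + -(1 / 2)) / 2 = 1 / 4 := by norm_num
  have ho : ((1 : ℝ) + 1) / 2 = 1 := by norm_num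
  simp only [vert_G, Fin.sum_univ_three, d0, d1, d2, c01, c10, c02, c20, c12, c21, hq, ho]
  norm_num
  norm_num at h1
  linarith

theorem vert_gram {a b c d e f : ℝ} (e0 : a ^ 2 + b ^ 2 = 1) (e1 : c ^ 2 + d ^ 2 = 1)
    (e2 : e ^ 2 + f ^ 2 = 1) (hs : (a * c + b * d) + (a * e + b * f) + (c * e + d * f) = -1) :
    (1 + (a * c + b * d)) * (1 + (a * e + b * f)) * (1 + (c * e + d * f)) = 0 := by
  have hid : (a ^ 2 + b ^ 2) * (c ^ 2 + d ^ 2) * (e ^ 2 + f ^ 2) -
      (a * c + b * d) ^ 2 * (e ^ 2 + f ^ 2) - (a * e + b * f) ^ 2 * (c ^ 2 + d ^ 2) -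
      (c * e + d * f) ^ 2 * (a ^ 2 + b ^ 2) +
      2 * (a * c + b * d) * (a * e + b * f) * (c * e + d * f) = 0 := by ring
  rw [e0, e1, e2] at hid
  generalize (a * c + b * d) = X at *
  generalize (a * e + b * f) = Y at *
  generalize (c * e + d * f) = Z at *
  have hX : X = -1 - Y - Z := by linarith
  subst hX
  linear_combination (1 / 2) * hid

theorem vert_four {p : Polynomial ℝ} (h0 : p.eval 0 < -2)
    (h2 : ∀ y : ℝ, 0 ≤ y → y ≤ 1 → p.eval y ≤ 1 / 4) (u : Fin 4 → ℂ)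
    (hu : ∀ i, (u i).re ^ 2 + (u i).im ^ 2 = 1) (hr : (∑ i, (u i).re) = 0)
    (hi : (∑ i, (u i).im) = 0) : vert_G p 4 u < 0 := by
  rw [Fin.sum_univ_four] at hr hi
  have e0 := hu 0
  have e1 := hu 1
  have e2 := hu 2
  have e3 := hu 3
  have hb : ∀ i j, p.eval ((1 + ((u i).re * (u j).re + (u i).im * (u j).im)) / 2) ≤ 1 / 4 := by
    intro i j
    have ei := hu i
    have ej := hu j
    apply h2
    · nlinarith [sq_nonneg ((u i).re + (u j).re), sq_nonneg ((u i).im + (u j).im)]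
    · nlinarith [sq_nonneg ((u i).re - (u j).re), sq_nonneg ((u i).im - (u j).im)]
  have d0 : (u 0).re * (u 0).re + (u 0).im * (u 0).im = 1 := by linarith
  have d1 : (u 1).re * (u 1).re + (u 1).im * (u 1).im = 1 := by linarith
  have d2 : (u 2).re * (u 2).re + (u 2).im * (u 2).im = 1 := by linarith
  have d3 : (u 3).re * (u 3).re + (u 3).im * (u 3).im = 1 := by linarith
  have ho : ((1 : ℝ) + 1) / 2 = 1 := by norm_num
  have hz : ((1 : ℝ) + -1) / 2 = 0 := by norm_num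
  have x3 : (u 3).re = -(u 0).re - (u 1).re - (u 2).re := by linarith
  have y3 : (u 3).im = -(u 0).im - (u 1).im - (u 2).im := by linarith
  -- the three inner products
  have e3' := e3
  rw [x3, y3] at e3'
  have hs : ((u 0).re * (u 1).re + (u 0).im * (u 1).im) +
      ((u 0).re * (u 2).re + (u 0).im * (u 2).im) +
      ((u 1).re * (u 2).re + (u 1).im * (u 2).im) = -1 := by
    linear_combination (1 / 2) * (e3' - e0 - e1 - e2)
  have hG := vert_gram e0 e1 e2 hs
  have k01 := hb 0 1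
  have k02 := hb 0 2
  have k03 := hb 0 3
  have k10 := hb 1 0
  have k12 := hb 1 2
  have k13 := hb 1 3
  have k20 := hb 2 0
  have k21 := hb 2 1
  have k23 := hb 2 3
  have k30 := hb 3 0
  have k31 := hb 3 1
  have k32 := hb 3 2
  rcases mul_eq_zero.1 hG with hG' | hG'
  · rcases mul_eq_zero.1 hG' with hG'' | hG''
    · have c01 : (u 0).re * (u 1).re + (u 0).im * (u 1).im = -1 := by linarith
      have c10 : (u 1).re * (u 0).re + (u 1).im * (u 0).im = -1 := by linarith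
      have c23 : (u 2).re * (u 3).re + (u 2).im * (u 3).im = -1 := by
        rw [x3, y3]
        linear_combination -hs + c01 - d2
      have c32 : (u 3).re * (u 2).re + (u 3).im * (u 2).im = -1 := by linarith
      simp only [vert_G, Fin.sum_univ_four, d0, d1, d2, d3, c01, c10, c23, c32, ho, hz]
      push_cast
      linarith
    · have c02 : (u 0).re * (u 2).re + (u 0).im * (u 2).im = -1 := by linarith
      have c20 : (u 2).re * (u 0).re + (u 2).im * (u 0).im = -1 := by linarith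
      have c13 : (u 1).re * (u 3).re + (u 1).im * (u 3).im = -1 := by
        rw [x3, y3]
        linear_combination -hs + c02 - d1
      have c31 : (u 3).re * (u 1).re + (u 3).im * (u 1).im = -1 := by linarith
      simp only [vert_G, Fin.sum_univ_four, d0, d1, d2, d3, c02, c20, c13, c31, ho, hz]
      push_cast
      linarith
  · have c12 : (u 1).re * (u 2).re + (u 1).im * (u 2).im = -1 := by linarith
    have c21 : (u 2).re * (u 1).re + (u 2).im * (u 1).im = -1 := by linarith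
    have c03 : (u 0).re * (u 3).re + (u 0).im * (u 3).im = -1 := by
      rw [x3, y3]
      linear_combination -hs + c12 - d0
    have c30 : (u 3).re * (u 0).re + (u 3).im * (u 0).im = -1 := by linarith
    simp only [vert_G, Fin.sum_univ_four, d0, d1, d2, d3, c12, c21, c03, c30, ho, hz]
    push_cast
    linarith

theorem vert_sin {ι : Type} [DecidableEq ι] (S : Finset ι) (θ : ι → ℝ) :
    ∑ i ∈ S, ∑ j ∈ S.erase i, Real.sin (θ i - θ j) ^ 2 ≤ (S.card : ℝ) ^ 2 / 2 := by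
  have herase : ∀ i ∈ S, ∑ j ∈ S.erase i, Real.sin (θ i - θ j) ^ 2 =
      ∑ j ∈ S, (1 - (Real.cos (2 * θ i) * Real.cos (2 * θ j) +
        Real.sin (2 * θ i) * Real.sin (2 * θ j))) / 2 := by
    intro i hi
    have h1 : ∑ j ∈ S.erase i, Real.sin (θ i - θ j) ^ 2 = ∑ j ∈ S, Real.sin (θ i - θ j) ^ 2 := by
      rw [← Finset.sum_erase_add S _ hi]
      simp
    rw [h1]
    refine Finset.sum_congr rfl fun j _ => ?_
    rw [← Real.cos_sub, ← mul_sub, Real.cos_two_mul]
    have := Real.sin_sq_add_cos_sq (θ i - θ j)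
    linarith
  rw [Finset.sum_congr rfl herase]
  simp only [← Finset.sum_div, Finset.sum_sub_distrib, Finset.sum_add_distrib,
    ← Finset.mul_sum, ← Finset.sum_mul]
  simp only [Finset.sum_const, nsmul_eq_mul, mul_one]
  have e1 := sq_nonneg (∑ i ∈ S, Real.cos (2 * θ i))
  have e2 := sq_nonneg (∑ i ∈ S, Real.sin (2 * θ i))
  nlinarith

/-- PL-F2. The vertex inequality. -/
theorem vertex_ineq {p : Polynomial ℝ} (h0 : p.eval 0 < -2) (h1 : p.eval (1 / 4) < -(1 / 2))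
    (h2 : ∀ y : ℝ, 0 ≤ y → y ≤ 1 → p.eval y ≤ 1 / 4) : ∃ a₀ : ℝ, 0 < a₀ ∧
    ∀ a : ℝ, 0 ≤ a → a ≤ a₀ → ∀ {ι : Type} [DecidableEq ι] (S : Finset ι) (θ : ι → ℝ),
      2 ≤ S.card → ∑ i ∈ S, ∑ j ∈ S.erase i,
        (Real.sin (θ i - θ j) ^ 2 + a * p.eval (Real.cos (θ i - θ j) ^ 2)) ≤
          (S.card : ℝ) ^ 2 / 2 + a * ((S.card : ℝ) * ((S.card : ℝ) - 4)) := by
  obtain ⟨a₂, ha₂, H₂⟩ := vert_case p 2 (vert_two h0)
  obtain ⟨a₃, ha₃, H₃⟩ := vert_case p 3 (vert_three h1)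
  obtain ⟨a₄, ha₄, H₄⟩ := vert_case p 4 (vert_four h0 h2)
  refine ⟨min a₂ (min a₃ a₄), lt_min ha₂ (lt_min ha₃ ha₄), ?_⟩
  intro a ha ha1 ι _ S θ hS
  have g2 : a ≤ a₂ := ha1.trans (min_le_left _ _)
  have g3 : a ≤ a₃ := ha1.trans ((min_le_right _ _).trans (min_le_left _ _))
  have g4 : a ≤ a₄ := ha1.trans ((min_le_right _ _).trans (min_le_right _ _))
  rcases Nat.lt_or_ge S.card 5 with h5 | h5
  · have hc : S.card = 2 ∨ S.card = 3 ∨ S.card = 4 := by omega
    rcases hc with hc | hc | hc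
    · exact H₂ a ha g2 S θ hc
    · exact H₃ a ha g3 S θ hc
    · exact H₄ a ha g4 S θ hc
  · have hb : ∀ i j, a * p.eval (Real.cos (θ i - θ j) ^ 2) ≤ a * (1 / 4) := by
      intro i j
      refine mul_le_mul_of_nonneg_left (h2 _ (sq_nonneg _) ?_) ha
      exact Real.cos_sq_le_one _
    have e1 : ∑ i ∈ S, ∑ j ∈ S.erase i, a * p.eval (Real.cos (θ i - θ j) ^ 2) ≤
        ∑ i ∈ S, ∑ j ∈ S.erase i, a * (1 / 4) :=
      Finset.sum_le_sum fun i _ => Finset.sum_le_sum fun j _ => hb i j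
    have e2 : ∑ i ∈ S, ∑ j ∈ S.erase i, a * (1 / 4) =
        (S.card : ℝ) * (((S.card : ℝ) - 1) * (a * (1 / 4))) := by
      have h3 : ∀ i ∈ S, ∑ j ∈ S.erase i, a * (1 / 4) = ((S.card : ℝ) - 1) * (a * (1 / 4)) := by
        intro i hi
        rw [Finset.sum_const, Finset.card_erase_of_mem hi, nsmul_eq_mul,
          Nat.cast_sub (by omega)]
        simp
      rw [Finset.sum_congr rfl h3, Finset.sum_const, nsmul_eq_mul]
    have e3 := vert_sin S θ
    simp only [Finset.sum_add_distrib]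
    have h6 : (5 : ℝ) ≤ S.card := by exact_mod_cast h5
    have e4 : (S.card : ℝ) * (((S.card : ℝ) - 1) * (a * (1 / 4))) ≤
        a * ((S.card : ℝ) * ((S.card : ℝ) - 4)) := by
      have h7 : a * ((S.card : ℝ) * ((S.card : ℝ) - 4)) -
          (S.card : ℝ) * (((S.card : ℝ) - 1) * (a * (1 / 4))) =
          a * (S.card : ℝ) * (3 * ((S.card : ℝ) - 5)) / 4 := by ring
      have h8 : 0 ≤ a * (S.card : ℝ) * (3 * ((S.card : ℝ) - 5)) / 4 := by
        have : 0 ≤ (S.card : ℝ) - 5 := by linarith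
        positivity
      linarith
    linarith

end Pool.Agent.Helper8.PL
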