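import Pool.Agent.Helper8.PL.Main
import Pool.Agent.Helper8.PL.Frame
import Pool.Agent.Helper8.PL.Ker
import Pool.Agent.Helper8.PL.Vert
import Pool.Agent.Helper8.PL.Big

/-! Project PL: the inequality for the multiplicities. -/

open Finset MeasureTheory

namespace Pool.Agent.Helper8.PL

open Wiring

/-- the kernel inequality for plane vectors -/
theorem ineq_hK (p : Polynomial ℝ) : ∃ a₀ : ℝ, 0 < a₀ ∧ ∀ a : ℝ, 0 ≤ a → a ≤ a₀ →
    ∀ (m : ℕ) (v : ℕ → ℝ × ℝ), ∃ θ : ℕ → ℝ,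
      (2 / 3 + a * ∫ x in (0 : ℝ)..1, p.eval (x ^ 2)) *
        ∑ c ∈ range m, ∑ c' ∈ range m, |wd (v c) (v c')| ≤
        ∑ c ∈ range m, ∑ c' ∈ range m, |wd (v c) (v c')| *
          (Real.sin (θ c - θ c') ^ 2 + a * p.eval (Real.cos (θ c - θ c') ^ 2)) := by
  classical
  obtain ⟨a₀, ha₀, H⟩ := kernel_psd p
  refine ⟨a₀, ha₀, ?_⟩
  intro a ha1 ha2 m v
  obtain ⟨K₀, hK₀⟩ : ∃ K₀ : ℝ, K₀ = 2 / 3 + a * ∫ x in (0 : ℝ)..1, p.eval (x ^ 2) := ⟨_, rfl⟩
  rw [← hK₀]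
  by_cases h : ∃ c c' : Fin m, (v c).1 * (v c').2 - (v c).2 * (v c').1 ≠ 0
  · obtain ⟨ρ, α, hρ, h1, h2, h3⟩ := exists_frame (fun c : Fin m => v c) h
    have h4 := H a ha1 ha2 m ρ α h2 h3
    rw [← hK₀] at h4
    refine ⟨fun c => if hc : c < m then α ⟨c, hc⟩ else 0, ?_⟩
    rw [Finset.sum_range, Finset.sum_range]
    have h5 : ∀ c : Fin m, (fun c => if hc : c < m then α ⟨c, hc⟩ else 0) (c : ℕ) = α c := by
      intro c
      simp only [c.2, dif_pos]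
    have h6 : ∀ c : Fin m, ∑ c' ∈ range m, |wd (v c) (v c')| =
        ∑ c' : Fin m, ρ c * ρ c' * |Real.sin (α c - α c')| := by
      intro c
      rw [Finset.sum_range]
      exact Finset.sum_congr rfl fun c' _ => h1 c c'
    have h7 : ∀ c : Fin m, ∑ c' ∈ range m, |wd (v c) (v c')| *
          (Real.sin ((fun c => if hc : c < m then α ⟨c, hc⟩ else 0) (c : ℕ) -
            (fun c => if hc : c < m then α ⟨c, hc⟩ else 0) c') ^ 2 +
            a * p.eval (Real.cos ((fun c => if hc : c < m then α ⟨c, hc⟩ else 0) (c : ℕ) -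
            (fun c => if hc : c < m then α ⟨c, hc⟩ else 0) c') ^ 2)) =
        ∑ c' : Fin m, ρ c * ρ c' * |Real.sin (α c - α c')| *
          (Real.sin (α c - α c') ^ 2 + a * p.eval (Real.cos (α c - α c') ^ 2)) := by
      intro c
      rw [Finset.sum_range]
      refine Finset.sum_congr rfl fun c' _ => ?_
      rw [h5, h5]
      have := h1 c c'
      rw [wd, this]
    rw [Finset.sum_congr rfl fun c _ => h6 c, Finset.sum_congr rfl fun c _ => h7 c, ← sub_nonneg]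
    refine h4.trans (le_of_eq ?_)
    rw [mul_sum, ← sum_sub_distrib]
    refine Finset.sum_congr rfl fun c _ => ?_
    rw [mul_sum, ← sum_sub_distrib]
    refine Finset.sum_congr rfl fun c' _ => ?_
    ring
  · push Not at h
    refine ⟨fun _ => 0, ?_⟩
    have h1 : ∀ c ∈ range m, ∀ c' ∈ range m, |wd (v c) (v c')| = 0 := by
      intro c hc c' hc'
      rw [mem_range] at hc hc'
      have := h ⟨c, hc⟩ ⟨c', hc'⟩
      simp only at this
      rw [wd, this, abs_zero]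
    have h2 : ∑ c ∈ range m, ∑ c' ∈ range m, |wd (v c) (v c')| = 0 :=
      Finset.sum_eq_zero fun c hc => Finset.sum_eq_zero fun c' hc' => h1 c hc c' hc'
    rw [h2, mul_zero]
    refine le_of_eq (Finset.sum_eq_zero fun c hc => Finset.sum_eq_zero fun c' hc' => ?_).symm
    rw [h1 c hc c' hc', zero_mul]

/-- the kernel is bounded -/
theorem ineq_bdd (p : Polynomial ℝ) (a : ℝ) : ∃ C : ℝ, ∀ x : ℝ,
    |Real.sin x ^ 2 + a * p.eval (Real.cos x ^ 2)| ≤ C := by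
  have h1 : ContinuousOn (fun y : ℝ => |p.eval y|) (Set.Icc 0 1) := by fun_prop
  obtain ⟨C, hC⟩ := (isCompact_Icc.image_of_continuousOn h1).bddAbove
  refine ⟨1 + |a| * C, ?_⟩
  intro x
  have h2 : |p.eval (Real.cos x ^ 2)| ≤ C := by
    refine hC ⟨Real.cos x ^ 2, ⟨sq_nonneg _, Real.cos_sq_le_one x⟩, rfl⟩
  have h3 : |Real.sin x ^ 2| ≤ 1 := by
    rw [abs_of_nonneg (sq_nonneg _)]
    exact Real.sin_sq_le_one x
  have h4 : |a * p.eval (Real.cos x ^ 2)| ≤ |a| * C := by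
    rw [abs_mul]
    exact mul_le_mul_of_nonneg_left h2 (abs_nonneg _)
  exact (abs_add_le _ _).trans (add_le_add h3 h4)

open Classical in
/-- The inequality for the multiplicities. -/
theorem ineq_main {ε : ℝ} (hε : 0 < ε) : ∃ κ : ℝ, 0 < κ ∧ ∀ {d : ℕ} (W : Wiring d),
    1 ≤ κ * d → (∀ k < W.M, (W.mult k : ℝ) ≤ (1 - ε) * d) →
      (1 + κ) * (d : ℝ) ^ 2 ≤ 3 * ∑ k ∈ range W.M, (W.mult k : ℝ) +
        ∑ k ∈ (range W.M).filter (fun k => κ * d < W.mult k), (W.mult k : ℝ) ^ 2 := by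
  obtain ⟨p, hp0, hp1, hp2, hp3⟩ := exists_poly
  obtain ⟨m0, hm0⟩ : ∃ m0 : ℝ, m0 = ∫ x in (0 : ℝ)..1, p.eval (x ^ 2) := ⟨_, rfl⟩
  obtain ⟨a₁, ha₁, H1⟩ := ineq_hK p
  obtain ⟨a₂, ha₂, H2⟩ := vertex_ineq hp0 hp1 hp2
  obtain ⟨a, ha⟩ : ∃ a : ℝ, a = min (min a₁ a₂) (1 / 12) := ⟨_, rfl⟩
  have ha0 : 0 < a := by
    rw [ha]
    exact lt_min (lt_min ha₁ ha₂) (by norm_num)
  have haa1 : a ≤ a₁ := by
    rw [ha]
    exact (min_le_left _ _).trans (min_le_left _ _)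
  have haa2 : a ≤ a₂ := by
    rw [ha]
    exact (min_le_left _ _).trans (min_le_right _ _)
  have haa3 : a ≤ 1 / 12 := by
    rw [ha]
    exact min_le_right _ _
  rw [← hm0] at hp3
  obtain ⟨ε', hε'⟩ : ∃ ε' : ℝ, ε' = min ε (1 / 2) := ⟨_, rfl⟩
  have hε'0 : 0 < ε' := by
    rw [hε']
    exact lt_min hε (by norm_num)
  have hε'1 : ε' < 1 := by
    rw [hε']
    exact lt_of_le_of_lt (min_le_right _ _) (by norm_num)
  have hε'2 : ε' ≤ ε := by
    rw [hε']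
    exact min_le_left _ _
  obtain ⟨C, hC⟩ := ineq_bdd p a
  obtain ⟨b, hb⟩ : ∃ b : ℝ, b = a * m0 * ε' := ⟨_, rfl⟩
  have hb0 : 0 < b := by
    rw [hb]
    positivity
  have hK := H1 a ha0.le haa1
  rw [← hm0] at hK
  obtain ⟨δ₀, hδ₀, H3⟩ := main_asym (φ := fun x => Real.sin x ^ 2 + a * p.eval (Real.cos x ^ 2))
    hC hK (ε := b / 12) (κ := 1) (by positivity) one_pos
  obtain ⟨d₀, H4⟩ := few_big hε'0 hε'1 hδ₀
  obtain ⟨κ, hκ⟩ : ∃ κ : ℝ, κ = min (min δ₀ (1 / (d₀ + 1))) (b / (1 + 6 * a * m0)) := ⟨_, rfl⟩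
  have hκ0 : 0 < κ := by
    rw [hκ]
    exact lt_min (lt_min hδ₀ (by positivity)) (by positivity)
  have hκ1 : κ ≤ δ₀ := by
    rw [hκ]
    exact (min_le_left _ _).trans (min_le_left _ _)
  have hκ2 : κ ≤ 1 / (d₀ + 1) := by
    rw [hκ]
    exact (min_le_left _ _).trans (min_le_right _ _)
  have hκ3 : κ ≤ b / (1 + 6 * a * m0) := by
    rw [hκ]
    exact min_le_right _ _
  refine ⟨κ, hκ0, ?_⟩
  intro d W hd hmult
  have hd' : (0 : ℝ) < d := by
    by_contra hcon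
    have h1 : (d : ℝ) = 0 := le_antisymm (not_lt.1 hcon) (by positivity)
    rw [h1, mul_zero] at hd
    linarith
  have hd0 : 0 < d := by exact_mod_cast hd'
  have hdd₀ : d₀ ≤ d := by
    have h1 : (1 : ℝ) ≤ 1 / (d₀ + 1) * d := hd.trans (mul_le_mul_of_nonneg_right hκ2 hd'.le)
    have h2 : (d₀ : ℝ) + 1 ≤ d := by
      rw [one_div, ← div_eq_inv_mul, le_div_iff₀ (by positivity)] at h1
      linarith
    have h3 : (d₀ : ℝ) ≤ d := by linarith
    exact_mod_cast h3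
  have hmult' : ∀ k < W.M, (W.mult k : ℝ) ≤ (1 - ε') * d := fun k hk =>
    (hmult k hk).trans (mul_le_mul_of_nonneg_right (by linarith) hd'.le)
  obtain ⟨δ, hδ1, _, θ, hθ⟩ := H3 W (hd.trans (mul_le_mul_of_nonneg_right hκ1 hd'.le))
  have h4 := H4 W hdd₀ hmult'
  -- the sums
  obtain ⟨P, hP⟩ : ∃ P : ℝ, P = ∑ k ∈ SM W δ, (W.mult k : ℝ) * (W.mult k - 1) := ⟨_, rfl⟩
  obtain ⟨f, hf⟩ : ∃ f : ℝ, f = ∑ k ∈ SM W δ, (W.mult k : ℝ) := ⟨_, rfl⟩
  obtain ⟨Bδ, hBδ⟩ : ∃ Bδ : Finset ℕ, Bδ = (range W.M).filter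
    fun k => ¬ ((W.mult k : ℝ) ≤ δ * d) := ⟨_, rfl⟩
  have hSM : SM W δ = (range W.M).filter fun k => (W.mult k : ℝ) ≤ δ * d := by
    ext k
    simp only [SM, mem_filter]
  have hsplit : ∀ g : ℕ → ℝ, ∑ k ∈ SM W δ, g k + ∑ k ∈ Bδ, g k = ∑ k ∈ range W.M, g k := by
    intro g
    rw [hSM, hBδ]
    exact Finset.sum_filter_add_sum_filter_not _ _ _
  have hr : ∀ k ∈ range W.M, (2 : ℝ) ≤ W.mult k := by
    intro k hk
    exact_mod_cast main_two_le W (mem_range.1 hk)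
  have hSMr : ∀ k ∈ SM W δ, k < W.M := by
    intro k hk
    rw [hSM, mem_filter, mem_range] at hk
    exact hk.1
  -- the vertex inequality
  have h5 : ∑ k ∈ SM W δ, ∑ i ∈ W.B k, ∑ j ∈ (W.B k).erase i,
      (Real.sin (θ k i - θ k j) ^ 2 + a * p.eval (Real.cos (θ k i - θ k j) ^ 2)) ≤
      (1 / 2 + a) * P + (1 / 2 - 3 * a) * f := by
    rw [hP, hf, mul_sum, mul_sum, ← sum_add_distrib]
    refine Finset.sum_le_sum fun k hk => ?_
    have hkM := hSMr k hk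
    have h6 := H2 a ha0.le haa2 (W.B k) (θ k) (by rw [card_B W hkM]; exact main_two_le W hkM)
    rw [card_B W hkM] at h6
    refine le_trans (le_of_eq ?_) (h6.trans (le_of_eq (by ring)))
    refine Finset.sum_congr rfl fun i _ => ?_
    exact Finset.sum_congr (by congr) fun j _ => rfl
  have h6 : (2 / 3 + a * m0) * P - b / 12 * (d : ℝ) ^ 2 ≤
      (1 / 2 + a) * P + (1 / 2 - 3 * a) * f := by
    rw [← hP] at hθ
    refine hθ.trans (le_trans (le_of_eq ?_) h5)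
    refine Finset.sum_congr rfl fun k _ => Finset.sum_congr rfl fun i _ => ?_
    exact Finset.sum_congr (by congr) fun j _ => rfl
  -- the total number of pairs
  have h7 := main_pairs W hd0
  have h8 : P + ∑ k ∈ Bδ, (W.mult k : ℝ) * (W.mult k - 1) = d * (d - 1) := by
    rw [hP, hsplit (fun k => (W.mult k : ℝ) * (W.mult k - 1)), h7]
  have hnn : ∀ k ∈ range W.M, 0 ≤ (W.mult k : ℝ) * (W.mult k - 1) := by
    intro k hk
    have := hr k hk
    exact mul_nonneg (by linarith) (by linarith)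
  have h9 : ∑ k ∈ Bδ, (W.mult k : ℝ) * (W.mult k - 1) ≤ (1 - ε' / 2) * (d : ℝ) ^ 2 := by
    refine le_trans ?_ h4
    refine Finset.sum_le_sum_of_subset_of_nonneg ?_ ?_
    · intro k hk
      rw [hBδ, mem_filter, not_le] at hk
      rw [mem_filter]
      exact ⟨hk.1, lt_of_le_of_lt (mul_le_mul_of_nonneg_right hδ1 hd'.le) hk.2⟩
    · intro k hk _
      rw [mem_filter] at hk
      exact hnn k hk.1
  have h10 : ε' / 2 * (d : ℝ) ^ 2 - d ≤ P := by
    have : (d : ℝ) * (d - 1) = (d : ℝ) ^ 2 - d := by ring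
    linarith
  have h11 : ∑ k ∈ Bδ, (W.mult k : ℝ) * (W.mult k - 1) ≤
      ∑ k ∈ (range W.M).filter (fun k => κ * d < W.mult k), (W.mult k : ℝ) ^ 2 := by
    calc ∑ k ∈ Bδ, (W.mult k : ℝ) * (W.mult k - 1) ≤ ∑ k ∈ Bδ, (W.mult k : ℝ) ^ 2 := by
          refine Finset.sum_le_sum fun k hk => ?_
          rw [hBδ, mem_filter] at hk
          have := hr k hk.1
          nlinarith
      _ ≤ _ := by
          refine Finset.sum_le_sum_of_subset_of_nonneg ?_ (fun k _ _ => by positivity)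
          intro k hk
          rw [hBδ, mem_filter, not_le] at hk
          rw [mem_filter]
          exact ⟨hk.1, lt_of_le_of_lt
            (mul_le_mul_of_nonneg_right (hκ1.trans hδ1) hd'.le) hk.2⟩
  have h12 : f ≤ ∑ k ∈ range W.M, (W.mult k : ℝ) := by
    rw [hf]
    refine Finset.sum_le_sum_of_subset_of_nonneg ?_ (fun k _ _ => by positivity)
    intro k hk
    exact mem_range.2 (hSMr k hk)
  -- conclusion
  have hP0 : 0 ≤ P := by
    rw [hP]
    exact Finset.sum_nonneg fun k hk => hnn k (mem_range.2 (hSMr k hk))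
  have h13 : 1 / 3 * P + 2 * (a * m0) * P - b / 3 * (d : ℝ) ^ 2 ≤ f := by
    have e1 : (1 / 2 - 3 * a) * (1 / 3 * P + 2 * (a * m0) * P - b / 3 * (d : ℝ) ^ 2) ≤
        (1 / 2 - 3 * a) * f := by
      have e2 : 0 ≤ (a * m0) * P := by positivity
      have e3 : 0 ≤ b * (d : ℝ) ^ 2 := by positivity
      have e4 : 3 * a * ((a * m0) * P) ≥ 0 := by positivity
      have e5 : (3 * a) * (b * (d : ℝ) ^ 2) ≤ 1 / 4 * (b * (d : ℝ) ^ 2) :=
        mul_le_mul_of_nonneg_right (by linarith) e3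
      nlinarith
    exact le_of_mul_le_mul_left e1 (by linarith)
  have h14 : (1 + 6 * a * m0) * d ≤ b * (d : ℝ) ^ 2 := by
    have e1 : (1 : ℝ) ≤ b / (1 + 6 * a * m0) * d :=
      hd.trans (mul_le_mul_of_nonneg_right hκ3 hd'.le)
    have e2 : 0 < 1 + 6 * a * m0 := by positivity
    have e3 : 1 + 6 * a * m0 ≤ b * d := by
      rw [div_mul_eq_mul_div, le_div_iff₀ e2] at e1
      linarith
    have e4 := mul_le_mul_of_nonneg_right e3 hd'.le
    nlinarith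
  have h15 : κ ≤ b := by
    refine hκ3.trans (div_le_self hb0.le ?_)
    have : 0 ≤ 6 * a * m0 := by positivity
    linarith
  have h16 : κ * (d : ℝ) ^ 2 ≤ b * (d : ℝ) ^ 2 := mul_le_mul_of_nonneg_right h15 (by positivity)
  have h17 : 6 * (a * m0) * (ε' / 2 * (d : ℝ) ^ 2 - d) ≤ 6 * (a * m0) * P :=
    mul_le_mul_of_nonneg_left h10 (by positivity)
  have h18 : 6 * (a * m0) * (ε' / 2 * (d : ℝ) ^ 2 - d) =
      3 * (b * (d : ℝ) ^ 2) - 6 * a * m0 * d := by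
    rw [hb]
    ring
  rw [h18] at h17
  have h19 : (d : ℝ) * (d - 1) = (d : ℝ) ^ 2 - d := by ring
  have h20 : (1 + κ) * (d : ℝ) ^ 2 = (d : ℝ) ^ 2 + κ * (d : ℝ) ^ 2 := by ring
  have h21 : (1 + 6 * a * m0) * d = d + 6 * a * m0 * d := by ring
  rw [h20]
  rw [h21] at h14
  linarith

end Pool.Agent.Helper8.PL
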