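import Pool.Agent.Helper8.PL.Basic

/-! Project PL, piece PL-H: Lipschitz properties of the counting functions. -/

open Finset

namespace Pool.Agent.Helper8.PL

open Wiring

variable {d : ℕ} (W : Wiring d)

private theorem lip_core_aux {m : ℕ} (w : ℕ → ℝ) (A B : ℝ)
    (hA : ∑ e ∈ range m, w e = A) (hB : ∑ e ∈ range m, (e : ℝ) * w e = B)
    (hs : ∀ c c', c < c' → w c ≤ 0 ∨ 0 ≤ w c') (c : ℕ) (hcm : c < m) (hc : 0 < w c) :
    ∃ h : ℝ, |h| ≤ m ∧ ∑ e ∈ range m, |w e| ≤ 2 * (B - h * A) := by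
  classical
  have hex : ∃ c, c < m ∧ 0 < w c := ⟨c, hcm, hc⟩
  obtain ⟨h1, h2⟩ := Nat.find_spec hex
  have h3 : ∀ e, e < Nat.find hex → w e ≤ 0 := by
    intro e he
    by_contra h
    push Not at h
    exact Nat.find_min hex he ⟨he.trans h1, h⟩
  generalize Nat.find hex = q at h1 h2 h3
  refine ⟨(q : ℝ) - 1 / 2, ?_, ?_⟩
  · have h4 : (q : ℝ) + 1 ≤ m := by exact_mod_cast h1
    have h5 : (0 : ℝ) ≤ q := by positivity
    rw [abs_le]
    constructor <;> linarith
  · rw [← hA, ← hB, mul_sum, ← sum_sub_distrib, mul_sum]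
    apply sum_le_sum
    intro e _
    rcases lt_or_ge e q with he | he
    · have h6 := h3 e he
      have h7 : (e : ℝ) + 1 ≤ q := by exact_mod_cast he
      rw [abs_of_nonpos h6]
      nlinarith
    · have h6 : 0 ≤ w e := by
        rcases he.eq_or_lt with h | h
        · rw [← h]; exact h2.le
        · rcases hs q e h with h' | h'
          · linarith
          · exact h'
      have h7 : (q : ℝ) ≤ e := by exact_mod_cast he
      rw [abs_of_nonneg h6]
      nlinarith

private theorem lip_core {m : ℕ} (w : ℕ → ℝ) (A B : ℝ)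
    (hA : ∑ e ∈ range m, w e = A) (hB : ∑ e ∈ range m, (e : ℝ) * w e = B)
    (hs : ∀ c c', c < c' → w c ≤ 0 ∨ 0 ≤ w c') :
    ∑ e ∈ range m, |w e| ≤ 2 * (|B| + m * |A|) := by
  by_cases hex : ∃ c, c < m ∧ 0 < w c
  · obtain ⟨c, hcm, hc⟩ := hex
    obtain ⟨h, h1, h2⟩ := lip_core_aux w A B hA hB hs c hcm hc
    refine h2.trans ?_
    have h3 : -(h * A) ≤ |h| * |A| := by
      rw [← abs_mul]; exact neg_le_abs _
    have h4 : |h| * |A| ≤ m * |A| := mul_le_mul_of_nonneg_right h1 (abs_nonneg _)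
    have h5 := le_abs_self B
    linarith
  · push Not at hex
    rcases Nat.eq_zero_or_pos m with rfl | hm
    · simp
    · have h1 : ∑ e ∈ range m, |w e| = -A := by
        rw [← hA, ← sum_neg_distrib]
        apply sum_congr rfl
        intro e he
        exact abs_of_nonpos (hex e (mem_range.1 he))
      rw [h1]
      have h2 : (1 : ℝ) ≤ m := by exact_mod_cast hm
      have h3 := neg_le_abs A
      have h4 := abs_nonneg A
      have h5 := abs_nonneg B
      nlinarith

private theorem lip_core_mono {m : ℕ} (w : ℕ → ℝ) (B : ℝ)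
    (hA : ∑ e ∈ range m, w e = 0) (hB : ∑ e ∈ range m, (e : ℝ) * w e = B)
    (hs : ∀ c c', c < c' → w c ≤ 0 ∨ 0 ≤ w c') : 0 ≤ B := by
  by_cases hex : ∃ c, c < m ∧ 0 < w c
  · obtain ⟨c, hcm, hc⟩ := hex
    obtain ⟨h, h1, h2⟩ := lip_core_aux w 0 B hA hB hs c hcm hc
    have h3 : 0 ≤ ∑ e ∈ range m, |w e| := sum_nonneg fun _ _ => abs_nonneg _
    linarith
  · push Not at hex
    have h1 : ∀ e ∈ range m, w e = 0 := by
      have := (sum_eq_zero_iff_of_nonpos (s := range m) (f := w)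
        (fun e he => hex e (mem_range.1 he))).1 hA
      exact this
    rw [← hB]
    apply sum_nonneg
    intro e he
    rw [h1 e he, mul_zero]

private theorem lip_sum_cnt {N m k l x y : ℕ} (hN : 0 < N) (hm : d ≤ m * N) (hk : k ≤ W.M)
    (hl : l ≤ W.M) (hx : x ≤ d) (hy : y ≤ d) :
    ∑ e ∈ range m, ((W.cnt N e l y : ℝ) - W.cnt N e k x) = (y : ℝ) - x := by
  rw [sum_sub_distrib]
  have h1 := sum_cnt W hN hm hk hx
  have h2 := sum_cnt W hN hm hl hy
  have h1' : ∑ e ∈ range m, (W.cnt N e k x : ℝ) = x := by exact_mod_cast h1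
  have h2' : ∑ e ∈ range m, (W.cnt N e l y : ℝ) = y := by exact_mod_cast h2
  rw [h1', h2']

private theorem lip_sum_mul_cnt {N m k l x y : ℕ} (hN : 0 < N) (hm : d ≤ m * N) :
    ∑ e ∈ range m, (e : ℝ) * ((W.cnt N e l y : ℝ) - W.cnt N e k x) =
      (W.T N l y : ℝ) - W.T N k x := by
  have h1 := sum_mul_cnt W hN hm k x
  have h2 := sum_mul_cnt W hN hm l y
  have h1' : ∑ e ∈ range m, (e : ℝ) * (W.cnt N e k x : ℝ) = W.T N k x := by exact_mod_cast h1
  have h2' : ∑ e ∈ range m, (e : ℝ) * (W.cnt N e l y : ℝ) = W.T N l y := by exact_mod_cast h2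
  rw [← h1', ← h2', ← sum_sub_distrib]
  apply sum_congr rfl
  intro e _
  ring

private theorem lip_sign {N k l x y : ℕ} (hkl : k ≤ l) (hl : l ≤ W.M) (c c' : ℕ) (hc : c < c') :
    (W.cnt N c l y : ℝ) - W.cnt N c k x ≤ 0 ∨ 0 ≤ (W.cnt N c' l y : ℝ) - W.cnt N c' k x := by
  rcases cnt_sign W (N := N) (x := x) (y := y) hkl hl hc with h | h
  · left
    have : (W.cnt N c l y : ℝ) ≤ W.cnt N c k x := by exact_mod_cast h
    linarith
  · right
    have : (W.cnt N c' k x : ℝ) ≤ W.cnt N c' l y := by exact_mod_cast h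
    linarith

/-- the counting functions are Lipschitz functions of `x` and `T` -/
theorem cnt_lip {N m k l x y : ℕ} (hN : 0 < N) (hm : d ≤ m * N) (hk : k ≤ W.M) (hl : l ≤ W.M)
    (hx : x ≤ d) (hy : y ≤ d) :
    ∑ e ∈ range m, |(W.cnt N e l y : ℝ) - W.cnt N e k x| ≤
      2 * (|(W.T N l y : ℝ) - W.T N k x| + m * |(y : ℝ) - x|) := by
  rcases le_total k l with hkl | hkl
  · exact lip_core _ _ _ (lip_sum_cnt W hN hm hk hl hx hy) (lip_sum_mul_cnt W hN hm)
      (fun c c' hc => lip_sign W hkl hl c c' hc)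
  · have h := lip_core _ _ _ (lip_sum_cnt W hN hm hl hk hy hx) (lip_sum_mul_cnt W hN hm)
      (fun c c' hc => lip_sign W hkl hk c c' hc)
    rw [abs_sub_comm (W.T N l y : ℝ), abs_sub_comm (y : ℝ)]
    refine le_trans (le_of_eq ?_) h
    apply sum_congr rfl
    intro e _
    rw [abs_sub_comm]

theorem T_mono {N k l x : ℕ} (hkl : k ≤ l) (hl : l ≤ W.M) (hx : x ≤ d) :
    W.T N k x ≤ W.T N l x := by
  rcases Nat.eq_zero_or_pos N with rfl | hN
  · unfold Wiring.T
    simp
  · have hm : d ≤ d * N := Nat.le_mul_of_pos_right d hN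
    have h0 : ∑ e ∈ range d, ((W.cnt N e l x : ℝ) - W.cnt N e k x) = 0 := by
      rw [lip_sum_cnt W hN hm (hkl.trans hl) hl hx hx, sub_self]
    have h := lip_core_mono _ _ h0 (lip_sum_mul_cnt W hN hm)
      (fun c c' hc => lip_sign W hkl hl c c' hc)
    have h' : (W.T N k x : ℝ) ≤ W.T N l x := by linarith
    exact_mod_cast h'

theorem T_mono_right {N k x y : ℕ} (hxy : x ≤ y) : W.T N k x ≤ W.T N k y := by
  unfold Wiring.T
  apply sum_le_sum_of_subset
  intro i hi
  rw [mem_filter] at hi ⊢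
  exact ⟨hi.1, hi.2.trans_le hxy⟩

private theorem lip_class_lt {N m : ℕ} (hm : d ≤ m * N) (i : Fin d) : (i : ℕ) / N < m := by
  apply Nat.div_lt_of_lt_mul
  have := i.2
  rw [Nat.mul_comm]
  omega

private theorem lip_sum_union (s t r : Finset (Fin d)) (f : Fin d → ℕ) (m : ℕ)
    (hr : r ⊆ s ∪ t) (hf : ∀ i, f i ≤ m) :
    ∑ i ∈ r, f i ≤ ∑ i ∈ s, f i + m * t.card := by
  have h1 : ∑ i ∈ s ∪ t, f i ≤ ∑ i ∈ s, f i + ∑ i ∈ t, f i := by
    rw [← sum_union_inter]
    exact Nat.le_add_right _ _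
  have h2 : ∑ i ∈ t, f i ≤ m * t.card := by
    have h := sum_le_card_nsmul t f m (fun i _ => hf i)
    rw [smul_eq_mul, Nat.mul_comm] at h
    exact h
  have h3 : ∑ i ∈ r, f i ≤ ∑ i ∈ s ∪ t, f i := sum_le_sum_of_subset hr
  omega

theorem T_lip_right {N m k x y : ℕ} (hN : 0 < N) (hm : d ≤ m * N) (hk : k ≤ W.M) (hxy : x ≤ y) :
    W.T N k y ≤ W.T N k x + m * (y - x) := by
  classical
  have hcard : (univ.filter fun i : Fin d => x ≤ W.pos k i ∧ W.pos k i < y).card ≤ y - x := by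
    rw [← Nat.card_Ico x y]
    refine card_le_card_of_injOn (fun i => W.pos k i) ?_ ?_
    · intro i hi
      have hi' := (mem_filter.1 (Finset.mem_coe.1 hi)).2
      exact Finset.mem_coe.2 (mem_Ico.2 hi')
    · intro i _ j _ h
      exact pos_inj W hk h
  unfold Wiring.T
  refine (lip_sum_union (univ.filter fun i : Fin d => W.pos k i < x)
    (univ.filter fun i : Fin d => x ≤ W.pos k i ∧ W.pos k i < y) _ _ m ?_
    (fun i => (lip_class_lt hm i).le)).trans ?_
  · intro i hi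
    simp only [mem_union, mem_filter, mem_univ, true_and] at hi ⊢
    omega
  · exact Nat.add_le_add_left (Nat.mul_le_mul_left m hcard) _

theorem T_step {N m k x : ℕ} (hN : 0 < N) (hm : d ≤ m * N) (hk : k < W.M) (hx : x ≤ d) :
    W.T N (k + 1) x ≤ W.T N k x + m * W.mult k := by
  classical
  rw [← card_B W hk]
  unfold Wiring.T
  refine lip_sum_union (univ.filter fun i : Fin d => W.pos k i < x) (W.B k) _ _ m ?_
    (fun i => (lip_class_lt hm i).le)
  intro i hi
  simp only [Wiring.B, mem_union, mem_filter, mem_univ, true_and] at hi ⊢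
  by_cases h : W.lo k ≤ W.pos k i ∧ W.pos k i < W.hi k
  · exact Or.inr h
  · left
    rw [← W.fixed k hk i (by omega)]
    exact hi

theorem T_eq {N k x : ℕ} (hk : k < W.M) (hx : x ≤ W.lo k ∨ W.hi k ≤ x) :
    W.T N (k + 1) x = W.T N k x := by
  unfold Wiring.T
  have h : (univ.filter fun i : Fin d => W.pos (k + 1) i < x) =
      univ.filter fun i : Fin d => W.pos k i < x := by
    apply filter_congr
    intro i _
    by_cases h : W.lo k ≤ W.pos k i ∧ W.pos k i < W.hi k
    · have h1 := W.flip k hk i h.1 h.2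
      omega
    · rw [W.fixed k hk i (by omega)]
  rw [h]

end Pool.Agent.Helper8.PL
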