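import Pool.Agent.Helper8.PL.Rows

/-! Project PL: the sum rules. -/

open Finset MeasureTheory

namespace Pool.Agent.Helper8.PL

open Wiring

theorem wsum_anti (m : ℕ) (w : ℕ → ℕ → ℝ) (hw : ∀ a b, w b a = -w a b) :
    ∑ c ∈ range m, ∑ c' ∈ range m, (if c < c' then ((c' : ℝ) - c) * w c c' else 0) =
      ∑ c ∈ range m, ∑ c' ∈ range m, (c' : ℝ) * w c c' := by
  have h1 : ∑ c ∈ range m, ∑ c' ∈ range m, (if c < c' then ((c' : ℝ) - c) * w c c' else 0) =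
      ∑ c ∈ range m, ∑ c' ∈ range m, (if c' < c then ((c : ℝ) - c') * w c' c else 0) :=
    Finset.sum_comm
  have h2 : ∑ c ∈ range m, ∑ c' ∈ range m, (c' : ℝ) * w c c' =
      ∑ c ∈ range m, ∑ c' ∈ range m, (c : ℝ) * w c' c := Finset.sum_comm
  have h3 : ∑ c ∈ range m, ∑ c' ∈ range m, (if c < c' then ((c' : ℝ) - c) * w c c' else 0) +
      ∑ c ∈ range m, ∑ c' ∈ range m, (if c' < c then ((c : ℝ) - c') * w c' c else 0) =
      ∑ c ∈ range m, ∑ c' ∈ range m, (c' : ℝ) * w c c' +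
      ∑ c ∈ range m, ∑ c' ∈ range m, (c : ℝ) * w c' c := by
    simp only [← Finset.sum_add_distrib]
    refine Finset.sum_congr rfl fun c _ => Finset.sum_congr rfl fun c' _ => ?_
    have h4 := hw c c'
    rcases lt_trichotomy c c' with h | h | h
    · rw [if_pos h, if_neg (not_lt.mpr h.le), h4]
      ring
    · subst h
      have h5 : w c c = 0 := by linarith
      rw [if_neg (lt_irrefl c), h5]
      ring
    · rw [if_neg (not_lt.mpr h.le), if_pos h, h4]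
      ring
  linarith

theorem wsum_wd (m : ℕ) (v : ℕ → ℝ × ℝ) :
    ∑ c ∈ range m, ∑ c' ∈ range m, (if c < c' then ((c' : ℝ) - c) * wd (v c) (v c') else 0) =
      (∑ e ∈ range m, (v e).1) * (∑ e ∈ range m, (e : ℝ) * (v e).2) -
        (∑ e ∈ range m, (v e).2) * (∑ e ∈ range m, (e : ℝ) * (v e).1) := by
  rw [wsum_anti m (fun c c' => wd (v c) (v c')) (fun a b => by simp only [wd]; ring),
    Finset.sum_mul_sum, Finset.sum_mul_sum, ← Finset.sum_sub_distrib]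
  refine Finset.sum_congr rfl fun c _ => ?_
  rw [← Finset.sum_sub_distrib]
  refine Finset.sum_congr rfl fun c' _ => ?_
  simp only [wd]
  ring

theorem wsum_div {x y l c : ℝ} (hl : 0 < l) (hx : l / 2 ≤ x) (h : |x * y| ≤ c * l) :
    |y| ≤ 2 * c := by
  have hx0 : 0 < x := by linarith
  rw [abs_mul, abs_of_pos hx0] at h
  have h1 : l / 2 * |y| ≤ c * l := le_trans (mul_le_mul_of_nonneg_right hx (abs_nonneg y)) h
  have h2 : l * |y| ≤ l * (2 * c) := by linarith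
  exact le_of_mul_le_mul_left h2 hl

theorem wsum_real {M ε l Δ Δ' Δ'' a1 a2 b1 b2 : ℝ} (hM : 1 ≤ M) (hε : 0 ≤ ε)
    (hε' : 4 * M ^ 2 * ε ≤ 1) (hl : 0 < l) (hΔ : l / 2 ≤ Δ) (hΔ' : l / 2 ≤ Δ')
    (hΔ'' : |Δ''| ≤ l) (h1 : |Δ * a2| ≤ 2 * M * ε * l) (h2 : |Δ * b2 - Δ| ≤ 2 * M ^ 2 * ε * l)
    (h3 : |Δ' * a1 + Δ'' * a2 - Δ'| ≤ 2 * M * ε * l)
    (h4 : |Δ' * b1 + Δ'' * b2 - Δ''| ≤ 2 * M ^ 2 * ε * l) :
    |a1 * b2 - a2 * b1 - 1| ≤ 40 * M ^ 2 * ε := by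
  have k1 : |a2| ≤ 2 * (2 * M * ε) := wsum_div hl hΔ h1
  have k2 : |b2 - 1| ≤ 2 * (2 * M ^ 2 * ε) := wsum_div hl hΔ (by rwa [mul_sub, mul_one])
  have k3 : |a1 - 1| ≤ 2 * (6 * M * ε) := by
    refine wsum_div hl hΔ' ?_
    have e : Δ' * (a1 - 1) = (Δ' * a1 + Δ'' * a2 - Δ') - Δ'' * a2 := by ring
    rw [e]
    have e2 : |Δ'' * a2| ≤ l * (2 * (2 * M * ε)) := by
      rw [abs_mul]
      exact mul_le_mul hΔ'' k1 (abs_nonneg _) hl.le
    calc |(Δ' * a1 + Δ'' * a2 - Δ') - Δ'' * a2| ≤ |Δ' * a1 + Δ'' * a2 - Δ'| + |Δ'' * a2| :=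
          abs_sub _ _
      _ ≤ 2 * M * ε * l + l * (2 * (2 * M * ε)) := add_le_add h3 e2
      _ = 6 * M * ε * l := by ring
  have k4 : |b1| ≤ 2 * (6 * M ^ 2 * ε) := by
    refine wsum_div hl hΔ' ?_
    have e : Δ' * b1 = (Δ' * b1 + Δ'' * b2 - Δ'') - Δ'' * (b2 - 1) := by ring
    rw [e]
    have e2 : |Δ'' * (b2 - 1)| ≤ l * (2 * (2 * M ^ 2 * ε)) := by
      rw [abs_mul]
      exact mul_le_mul hΔ'' k2 (abs_nonneg _) hl.le
    calc |(Δ' * b1 + Δ'' * b2 - Δ'') - Δ'' * (b2 - 1)| ≤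
          |Δ' * b1 + Δ'' * b2 - Δ''| + |Δ'' * (b2 - 1)| := abs_sub _ _
      _ ≤ 2 * M ^ 2 * ε * l + l * (2 * (2 * M ^ 2 * ε)) := add_le_add h4 e2
      _ = 6 * M ^ 2 * ε * l := by ring
  have hMM : M ≤ M ^ 2 := by nlinarith
  have hME : M * ε ≤ M ^ 2 * ε := mul_le_mul_of_nonneg_right hMM hε
  have hME0 : 0 ≤ M * ε := by positivity
  have p1 : |(a1 - 1) * (b2 - 1)| ≤ 12 * (M ^ 2 * ε) := by
    rw [abs_mul]
    calc |a1 - 1| * |b2 - 1| ≤ (2 * (6 * M * ε)) * 1 :=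
          mul_le_mul k3 (by linarith) (abs_nonneg _) (by positivity)
      _ ≤ 12 * (M ^ 2 * ε) := by linarith
  have p2 : |a2 * b1| ≤ 12 * (M ^ 2 * ε) := by
    rw [abs_mul]
    calc |a2| * |b1| ≤ 1 * (2 * (6 * M ^ 2 * ε)) :=
          mul_le_mul (by linarith) k4 (abs_nonneg _) (by norm_num)
      _ = 12 * (M ^ 2 * ε) := by ring
  have e : a1 * b2 - a2 * b1 - 1 = (a1 - 1) * (b2 - 1) + (a1 - 1) + (b2 - 1) - a2 * b1 := by ring
  rw [e]
  have t1 := abs_sub ((a1 - 1) * (b2 - 1) + (a1 - 1) + (b2 - 1)) (a2 * b1)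
  have t2 := abs_add_le ((a1 - 1) * (b2 - 1) + (a1 - 1)) (b2 - 1)
  have t3 := abs_add_le ((a1 - 1) * (b2 - 1)) (a1 - 1)
  linarith

theorem wsum_sum (m : ℕ) (f g : ℕ → ℝ) {c : ℝ} (_hc : 0 ≤ c)
    (h : ∀ e < m, |f e - g e| ≤ c) : |∑ e ∈ range m, f e - ∑ e ∈ range m, g e| ≤ m * c := by
  rw [← Finset.sum_sub_distrib]
  refine le_trans (Finset.abs_sum_le_sum_abs _ _) ?_
  refine le_trans (Finset.sum_le_sum fun e he => h e (Finset.mem_range.mp he)) ?_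
  simp

theorem wsum_sum' (m : ℕ) (f g : ℕ → ℝ) {c : ℝ} (hc : 0 ≤ c)
    (h : ∀ e < m, |f e - g e| ≤ c) :
    |∑ e ∈ range m, (e : ℝ) * f e - ∑ e ∈ range m, (e : ℝ) * g e| ≤ (m : ℝ) ^ 2 * c := by
  have h1 := wsum_sum m (fun e => (e : ℝ) * f e) (fun e => (e : ℝ) * g e) (c := m * c)
    (by positivity) (fun e he => by
      rw [← mul_sub, abs_mul, abs_of_nonneg (Nat.cast_nonneg e)]
      exact mul_le_mul (by exact_mod_cast he.le) (h e he) (abs_nonneg _) (by positivity))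
  calc _ ≤ (m : ℝ) * (m * c) := h1
    _ = (m : ℝ) ^ 2 * c := by ring

theorem sum_wd (m : ℕ) {η : ℝ} (hη : 0 < η) : ∃ ε γ : ℝ, 0 < ε ∧ 0 < γ ∧
    ∀ {d : ℕ} (W : Wiring d) {N : ℕ} {s t l δ : ℝ} {v : ℕ → ℝ × ℝ} {b : ℕ → ℝ},
      W.Loc N m s t l δ ε v b → δ ≤ γ * l →
        |∑ c ∈ range m, ∑ c' ∈ range m,
          (if c < c' then ((c' : ℝ) - c) * wd (v c) (v c') else 0) - 1| ≤ η := by
  refine ⟨min η 1 / (40 * ((m : ℝ) + 1) ^ 2), 1 / (4 * ((m : ℝ) + 1)), by positivity,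
    by positivity, ?_⟩
  intro d W N s t l δ v b h hδγ
  set ε : ℝ := min η 1 / (40 * ((m : ℝ) + 1) ^ 2) with hε
  set γ : ℝ := 1 / (4 * ((m : ℝ) + 1)) with hγ
  have hm0 : (0 : ℝ) ≤ m := Nat.cast_nonneg m
  have hε0 : 0 < ε := by positivity
  have hγ0 : 0 < γ := by positivity
  have hεe : ε * (40 * ((m : ℝ) + 1) ^ 2) = min η 1 := by
    rw [hε]
    field_simp
  have hγe : γ * (4 * ((m : ℝ) + 1)) = 1 := by
    rw [hγ]
    field_simp
  have hm1 : 1 ≤ m := by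
    rcases Nat.eq_zero_or_pos m with h0 | h0
    · have h1 := h.hm
      have h2 := h.hd
      rw [h0, zero_mul] at h1
      omega
    · exact h0
  have hm1' : (1 : ℝ) ≤ m := by exact_mod_cast hm1
  have hγ1 : γ ≤ 1 / 4 := by nlinarith
  have hγm : m * γ ≤ 1 / 4 := by nlinarith
  have hl := h.hl
  have hd : (0 : ℝ) < d := by exact_mod_cast h.hd
  have hδ0 : 0 < δ := by
    by_contra hcon
    have h1 := h.one
    have h2 : δ * d ≤ 0 := mul_nonpos_of_nonpos_of_nonneg (not_lt.mp hcon) hd.le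
    linarith
  have hδl : δ ≤ l / 4 := by
    refine le_trans hδγ ?_
    nlinarith
  have hmδ : m * δ ≤ l / 4 := by
    have h1 : (m : ℝ) * δ ≤ m * (γ * l) := mul_le_mul_of_nonneg_left hδγ hm0
    nlinarith
  have hinv : 1 / (d : ℝ) ≤ l / 4 := by
    have h1 : 1 / (d : ℝ) ≤ δ := by
      rw [div_le_iff₀ hd]
      exact h.one
    linarith
  have hin := h.inner
  have hs0 : 0 ≤ s := by
    have := hin.left
    linarith
  have hs1 : s + 3 * l ≤ 1 := hin.right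
  -- the rows
  set x0 : ℕ := ⌈s * d⌉₊ with hx0
  set x1 : ℕ := x0 + ⌊l * d⌋₊ with hx1
  have hsd : 0 ≤ s * d := by positivity
  have a0 : s * d ≤ x0 := Nat.le_ceil _
  have a1 : (x0 : ℝ) < s * d + 1 := Nat.ceil_lt_add_one hsd
  have hld : 0 ≤ l * d := by positivity
  have a2 : ((⌊l * d⌋₊ : ℕ) : ℝ) ≤ l * d := Nat.floor_le hld
  have a3 : l * d < (⌊l * d⌋₊ : ℕ) + 1 := Nat.lt_floor_add_one _
  have c0 : s ≤ (x0 : ℝ) / d := by
    rw [le_div_iff₀ hd]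
    exact a0
  have hdd : 1 / (d : ℝ) * d = 1 := by field_simp
  have c1 : (x0 : ℝ) / d ≤ s + l / 4 := by
    rw [div_le_iff₀ hd]
    nlinarith
  have hΔ'eq : ((x1 : ℝ) / d - (x0 : ℝ) / d) = ((⌊l * d⌋₊ : ℕ) : ℝ) / d := by
    rw [hx1, Nat.cast_add]
    ring
  have c2 : (x1 : ℝ) / d - (x0 : ℝ) / d ≤ l := by
    rw [hΔ'eq, div_le_iff₀ hd]
    exact a2
  have c3 : l / 2 ≤ (x1 : ℝ) / d - (x0 : ℝ) / d := by
    rw [hΔ'eq, le_div_iff₀ hd]
    nlinarith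
  have hx0d : x0 ≤ d := by
    have h1 : (x0 : ℝ) / d ≤ 1 := by linarith
    rw [div_le_one hd] at h1
    exact_mod_cast h1
  have hx1d : x1 ≤ d := by
    have h1 : (x1 : ℝ) / d ≤ 1 := by linarith
    rw [div_le_one hd] at h1
    exact_mod_cast h1
  have n0 : |(x0 : ℝ) / d - s| ≤ 3 * l := by
    rw [abs_le]
    constructor <;> linarith
  have n1 : |(x1 : ℝ) / d - s| ≤ 3 * l := by
    rw [abs_le]
    constructor <;> linarith
  have n0' : |(x0 : ℝ) / d - s| ≤ 4 * l := by linarith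
  have n1' : |(x1 : ℝ) / d - s| ≤ 4 * l := by linarith
  have bot0 := hin.bot x0 hx0d n0
  have bot1 := hin.bot x1 hx1d n1
  have top0 := hin.top x0 hx0d n0
  have top1 := hin.top x1 hx1d n1
  obtain ⟨k0, -, hk0, e0, e0'⟩ := row_dense_loc W h (τ := t) hδ0.le
    (Nat.zero_le _) hx0d n0 (by linarith) (by linarith) (by linarith)
  obtain ⟨k1, -, hk1, e1, e1'⟩ := row_dense_loc W h (τ := t + l) hδ0.le
    (Nat.zero_le _) hx0d n0 (by linarith) (by linarith) (by linarith)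
  obtain ⟨k2, -, hk2, e2, e2'⟩ := row_dense_loc W h (τ := t) hδ0.le
    (Nat.zero_le _) hx1d n1 (by linarith) (by linarith) (by linarith)
  -- the affine approximations
  have f0 := h.aff k0 hk0 x0 hx0d n0' (by rw [abs_le]; constructor <;> linarith)
  have f1 := h.aff k1 hk1 x0 hx0d n0' (by rw [abs_le]; constructor <;> linarith)
  have f2 := h.aff k2 hk2 x1 hx1d n1' (by rw [abs_le]; constructor <;> linarith)
  have sF : ∀ k ≤ W.M, ∀ x ≤ d, ∑ e ∈ range m, W.F N e k x = (x : ℝ) / d := by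
    intro k hk x hx
    have h1 := sum_cnt W h.hN h.hm hk hx
    simp only [Wiring.F]
    rw [← Finset.sum_div, ← Nat.cast_sum, h1]
  have sT : ∀ k x, ∑ e ∈ range m, (e : ℝ) * W.F N e k x = W.tt N k x := by
    intro k x
    have h1 := sum_mul_cnt W h.hN h.hm k x
    simp only [Wiring.F, Wiring.tt]
    rw [← h1, Nat.cast_sum, Finset.sum_div]
    refine Finset.sum_congr rfl fun e _ => ?_
    rw [Nat.cast_mul]
    ring
  have hc : 0 ≤ 2 * (ε * l) := by positivity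
  have g1 : ∀ e < m, |(W.F N e k1 x0 - W.F N e k0 x0) -
      (W.tt N k1 x0 - W.tt N k0 x0) * (v e).2| ≤ 2 * (ε * l) := by
    intro e he
    have h1 := f1 e he
    have h0 := f0 e he
    have e1 : (W.F N e k1 x0 - W.F N e k0 x0) - (W.tt N k1 x0 - W.tt N k0 x0) * (v e).2 =
        (W.F N e k1 x0 - ((v e).1 * ((x0 : ℝ) / d) + (v e).2 * W.tt N k1 x0 + b e)) -
        (W.F N e k0 x0 - ((v e).1 * ((x0 : ℝ) / d) + (v e).2 * W.tt N k0 x0 + b e)) := by ring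
    rw [e1]
    refine le_trans (abs_sub _ _) ?_
    linarith
  have g2 : ∀ e < m, |(W.F N e k2 x1 - W.F N e k0 x0) -
      (((x1 : ℝ) / d - (x0 : ℝ) / d) * (v e).1 + (W.tt N k2 x1 - W.tt N k0 x0) * (v e).2)| ≤
      2 * (ε * l) := by
    intro e he
    have h1 := f2 e he
    have h0 := f0 e he
    have e1 : (W.F N e k2 x1 - W.F N e k0 x0) -
        (((x1 : ℝ) / d - (x0 : ℝ) / d) * (v e).1 + (W.tt N k2 x1 - W.tt N k0 x0) * (v e).2) =
        (W.F N e k2 x1 - ((v e).1 * ((x1 : ℝ) / d) + (v e).2 * W.tt N k2 x1 + b e)) -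
        (W.F N e k0 x0 - ((v e).1 * ((x0 : ℝ) / d) + (v e).2 * W.tt N k0 x0 + b e)) := by ring
    rw [e1]
    refine le_trans (abs_sub _ _) ?_
    linarith
  have s1 := wsum_sum m _ _ hc g1
  have s2 := wsum_sum' m _ _ hc g1
  have s3 := wsum_sum m _ _ hc g2
  have s4 := wsum_sum' m _ _ hc g2
  simp only [mul_sub, mul_add, Finset.sum_sub_distrib, Finset.sum_add_distrib] at s1 s2 s3 s4
  rw [sF k1 hk1 x0 hx0d, sF k0 hk0 x0 hx0d] at s1
  rw [sF k2 hk2 x1 hx1d, sF k0 hk0 x0 hx0d] at s3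
  rw [sT, sT] at s2 s4
  have m1 : ∀ (r : ℝ) (f : ℕ → ℝ), ∑ e ∈ range m, r * f e = r * ∑ e ∈ range m, f e :=
    fun r f => (Finset.mul_sum _ _ _).symm
  have m2 : ∀ (r : ℝ) (f : ℕ → ℝ), ∑ e ∈ range m, (e : ℝ) * (r * f e) =
      r * ∑ e ∈ range m, (e : ℝ) * f e := by
    intro r f
    rw [Finset.mul_sum]
    exact Finset.sum_congr rfl fun e _ => by ring
  rw [m1] at s1
  rw [m2] at s2
  rw [m1, m1] at s3
  rw [m2, m2] at s4
  rw [wsum_wd]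
  have hfin := wsum_real (M := m) (ε := ε) (l := l) (Δ := W.tt N k1 x0 - W.tt N k0 x0)
    (Δ' := (x1 : ℝ) / d - (x0 : ℝ) / d) (Δ'' := W.tt N k2 x1 - W.tt N k0 x0)
    (a1 := ∑ e ∈ range m, (v e).1) (a2 := ∑ e ∈ range m, (v e).2)
    (b1 := ∑ e ∈ range m, (e : ℝ) * (v e).1) (b2 := ∑ e ∈ range m, (e : ℝ) * (v e).2)
    hm1' hε0.le (by
      have h1 : min η 1 ≤ 1 := min_le_right _ _
      have h2 : (m : ℝ) ^ 2 ≤ ((m : ℝ) + 1) ^ 2 := by nlinarith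
      have h3 : (m : ℝ) ^ 2 * ε ≤ ((m : ℝ) + 1) ^ 2 * ε := mul_le_mul_of_nonneg_right h2 hε0.le
      nlinarith) hl (by linarith) c3 (by rw [abs_le]; constructor <;> linarith)
    (by
      rw [abs_le] at s1 ⊢
      constructor <;> nlinarith [s1.1, s1.2])
    (by
      rw [abs_le] at s2 ⊢
      constructor <;> nlinarith [s2.1, s2.2])
    (by
      rw [abs_le] at s3 ⊢
      constructor <;> nlinarith [s3.1, s3.2])
    (by
      rw [abs_le] at s4 ⊢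
      constructor <;> nlinarith [s4.1, s4.2])
  refine le_trans hfin ?_
  have h1 : min η 1 ≤ η := min_le_left _ _
  have h2 : (m : ℝ) ^ 2 ≤ ((m : ℝ) + 1) ^ 2 := by nlinarith
  have h3 : (m : ℝ) ^ 2 * ε ≤ ((m : ℝ) + 1) ^ 2 * ε := mul_le_mul_of_nonneg_right h2 hε0.le
  nlinarith

end Pool.Agent.Helper8.PL
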