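import Pool.Agent.Helper8.PL.Lip
import Pool.Agent.Helper8.PL.Rect
import Pool.Agent.Helper8.PL.Defs2

/-! Project PL, piece PL-Q: a crude upper bound of the mass of a square. -/

namespace Pool.Agent.Helper8.PL

open Wiring Finset MeasureTheory

private theorem mle_u_le {d : ℕ} (W : Wiring d) {N e k : ℕ} {δ : ℝ} (hk : k < W.M)
    (hmult : (W.mult k : ℝ) ≤ δ * d) : (W.u N e k : ℝ) ≤ δ * d := by
  refine le_trans ?_ hmult
  have h : W.u N e k ≤ W.mult k := by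
    rw [← card_B W hk]
    exact Finset.card_filter_le _ _
  exact_mod_cast h

private theorem mle_F {d : ℕ} (W : Wiring d) {N m e k l x y : ℕ} {r : ℝ} (hd : 0 < d)
    (hN : 0 < N) (hm : d ≤ m * N) (hk : k ≤ W.M) (hl : l ≤ W.M) (hx : x ≤ d) (hy : y ≤ d)
    (he : e < m) (h1 : |(y : ℝ) / d - (x : ℝ) / d| ≤ r)
    (h2 : |W.tt N l y - W.tt N k x| ≤ r) :
    |W.F N e l y - W.F N e k x| ≤ (2 * m + 2) * r := by
  have hd' : (0 : ℝ) < d := by exact_mod_cast hd
  have h3 := cnt_lip W hN hm hk hl hx hy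
  have h4 : |(W.cnt N e l y : ℝ) - W.cnt N e k x| ≤
      ∑ e ∈ range m, |(W.cnt N e l y : ℝ) - W.cnt N e k x| :=
    Finset.single_le_sum (f := fun e => |(W.cnt N e l y : ℝ) - W.cnt N e k x|)
      (fun _ _ => abs_nonneg _) (Finset.mem_range.2 he)
  have h5 : |(y : ℝ) - x| ≤ r * d := by
    rw [← sub_div, abs_div, abs_of_pos hd', div_le_iff₀ hd'] at h1
    exact h1
  have h6 : |(W.T N l y : ℝ) - W.T N k x| ≤ r * d := by
    unfold Wiring.tt at h2
    rw [← sub_div, abs_div, abs_of_pos hd', div_le_iff₀ hd'] at h2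
    exact h2
  unfold Wiring.F
  rw [← sub_div, abs_div, abs_of_pos hd', div_le_iff₀ hd']
  have h7 : (m : ℝ) * |(y : ℝ) - x| ≤ m * (r * d) :=
    mul_le_mul_of_nonneg_left h5 (Nat.cast_nonneg m)
  calc |(W.cnt N e l y : ℝ) - W.cnt N e k x|
      ≤ 2 * (|(W.T N l y : ℝ) - W.T N k x| + m * |(y : ℝ) - x|) := h4.trans h3
    _ ≤ 2 * (r * d + m * (r * d)) := by linarith
    _ = (2 * m + 2) * r * d := by ring

theorem mass_le {d : ℕ} (W : Wiring d) {N m c c' : ℕ} {s t l δ : ℝ} (hd : 0 < d) (hN : 0 < N)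
    (hm : d ≤ m * N) (hc : c < c') (hc' : c' < m) (hl : 0 < l) (hδ : δ ≤ l) (K : Finset ℕ)
    (hK : K ⊆ W.VQ N s t l) (hmult : ∀ k ∈ K, (W.mult k : ℝ) ≤ δ * d) :
    W.mass N c c' K ≤ 9 * (2 * m + 2) ^ 2 * l ^ 2 := by
  have hd' : (0 : ℝ) < d := by exact_mod_cast hd
  rcases K.eq_empty_or_nonempty with hE | ⟨k0, hk0⟩
  · rw [hE]
    unfold Wiring.mass
    rw [Finset.sum_empty, zero_div]
    positivity
  have hmem : ∀ k ∈ K, k < W.M ∧
      (s ≤ (W.lo k : ℝ) / d ∧ (W.lo k : ℝ) / d < s + l) ∧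
      (t ≤ W.tt N k (W.lo k) ∧ W.tt N k (W.lo k) < t + l) := by
    intro k hk
    replace hk := hK hk
    unfold Wiring.VQ at hk
    rw [Finset.mem_filter, Finset.mem_range] at hk
    exact hk
  obtain ⟨hk0M, ⟨ha1, ha2⟩, ha3, ha4⟩ := hmem k0 hk0
  have hlo : ∀ k < W.M, W.lo k ≤ d := by
    intro k hk
    have := W.two_le k hk
    have := W.le_d k hk
    omega
  -- the coordinates of the points of the rectangles
  have key : ∀ k ∈ K, ∀ e < m, ∀ y : ℝ, (W.cnt N e k (W.lo k) : ℝ) / d ≤ y →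
      y < (W.cnt N e k (W.hi k) : ℝ) / d →
      y ∈ Set.Icc (W.F N e k0 (W.lo k0) - (2 * m + 2) * l)
        (W.F N e k0 (W.lo k0) + 2 * ((2 * m + 2) * l)) := by
    intro k hk e he y hy1 hy2
    obtain ⟨hkM, ⟨hb1, hb2⟩, hb3, hb4⟩ := hmem k hk
    have h1 : |(W.lo k : ℝ) / d - (W.lo k0 : ℝ) / d| ≤ l := by
      rw [abs_le]; constructor <;> linarith
    have h2 : |W.tt N k (W.lo k) - W.tt N k0 (W.lo k0)| ≤ l := by
      rw [abs_le]; constructor <;> linarith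
    have h3 := mle_F W hd hN hm hk0M.le hkM.le (hlo k0 hk0M) (hlo k hkM) he h1 h2
    rw [abs_le] at h3
    have h4 : (W.cnt N e k (W.hi k) : ℝ) / d ≤ W.F N e k (W.lo k) + l := by
      rw [cnt_hi W N e hkM]
      unfold Wiring.F
      push_cast
      rw [add_div]
      have h5 : (W.u N e k : ℝ) / d ≤ l := by
        rw [div_le_iff₀ hd']
        exact (mle_u_le W hkM (hmult k hk)).trans (mul_le_mul_of_nonneg_right hδ hd'.le)
      linarith
    have h6 : W.F N e k (W.lo k) ≤ y := hy1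
    have h7 : l ≤ (2 * m + 2) * l := by
      have : (0 : ℝ) ≤ m := Nat.cast_nonneg m
      nlinarith
    constructor <;> linarith [h3.1, h3.2]
  set V : Set (ℝ × ℝ) :=
    Set.Icc (W.F N c k0 (W.lo k0) - (2 * m + 2) * l)
      (W.F N c k0 (W.lo k0) + 2 * ((2 * m + 2) * l)) ×ˢ
    Set.Icc (W.F N c' k0 (W.lo k0) - (2 * m + 2) * l)
      (W.F N c' k0 (W.lo k0) + 2 * ((2 * m + 2) * l)) with hV
  have h1 := rect_area W (N := N) hc hd K (fun k hk => (hmem k hk).1) V (by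
    intro k hk y hy1 hy2 hy3 hy4
    exact ⟨key k hk c (hc.trans hc') y.1 hy1 hy2, key k hk c' hc' y.2 hy3 hy4⟩)
  have hL : (0 : ℝ) ≤ (2 * m + 2) * l := by positivity
  have h2 : volume V = ENNReal.ofReal (9 * (2 * m + 2) ^ 2 * l ^ 2) := by
    rw [hV, Measure.volume_eq_prod, Measure.prod_prod, Real.volume_Icc, Real.volume_Icc,
      ← ENNReal.ofReal_mul (by linarith)]
    congr 1
    ring
  rw [h2] at h1
  exact (ENNReal.ofReal_le_ofReal_iff (by positivity)).1 h1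

end Pool.Agent.Helper8.PL
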