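import Pool.Agent.Helper8.PL.Aff
import Pool.Agent.Helper8.PL.Defs2

/-! Project PL, PL-V: a pigeonhole over several scales. -/

namespace Pool.Agent.Helper8.PL

open Wiring Finset MeasureTheory
open scoped ENNReal NNReal

/-- the sequence of the starting scales -/
private def scale_a (N₀ : ℕ → ℕ) (n₁ g : ℕ) : ℕ → ℕ
  | 0 => n₁
  | j + 1 => max (N₀ (scale_a N₀ n₁ g j)) (scale_a N₀ n₁ g j) + g + 1

private theorem scale_a_le (N₀ : ℕ → ℕ) (n₁ g : ℕ) {i j : ℕ} (h : i ≤ j) :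
    scale_a N₀ n₁ g i ≤ scale_a N₀ n₁ g j := by
  have hs : ∀ j, scale_a N₀ n₁ g j ≤ scale_a N₀ n₁ g (j + 1) := by
    intro j
    have h1 : scale_a N₀ n₁ g (j + 1) =
      max (N₀ (scale_a N₀ n₁ g j)) (scale_a N₀ n₁ g j) + g + 1 := rfl
    have h2 := le_max_right (N₀ (scale_a N₀ n₁ g j)) (scale_a N₀ n₁ g j)
    omega
  exact monotone_nat_of_le_succ hs h

private theorem scale_N_lt (N₀ : ℕ → ℕ) (n₁ g : ℕ) (j : ℕ) :
    N₀ (scale_a N₀ n₁ g j) + g < scale_a N₀ n₁ g (j + 1) := by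
  have h1 : scale_a N₀ n₁ g (j + 1) =
    max (N₀ (scale_a N₀ n₁ g j)) (scale_a N₀ n₁ g j) + g + 1 := rfl
  have h2 := le_max_left (N₀ (scale_a N₀ n₁ g j)) (scale_a N₀ n₁ g j)
  omega

theorem scale_select (m : ℕ) (L : ℝ≥0) (B n₁ : ℕ) {ε γ K ε' : ℝ} (hε : 0 < ε) (hγ : 0 < γ)
    (hK : 0 < K) (hε' : 0 < ε') :
    ∃ n₀ : ℕ, ∀ φ : ℝ × ℝ → (Fin m → ℝ), LipschitzWith L φ → ∀ (U : Finset ℕ) (ρ : ℕ → ℝ),
      ∑ k ∈ U, ρ k ^ 2 ≤ 2 → ∃ n, n₁ ≤ n ∧ n ≤ n₀ ∧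
      (∀ S : Finset (ℕ × ℕ), S ⊆ Finset.range (B * 2 ^ n) ×ˢ Finset.range (B * 2 ^ n) →
        (∀ q ∈ S, ¬ ∃ (A : (ℝ × ℝ) →L[ℝ] (Fin m → ℝ)) (b : Fin m → ℝ), ‖A‖ ≤ L ∧
          ∀ z : ℝ × ℝ, dist z ((q.1 : ℝ) / 2 ^ n, (q.2 : ℝ) / 2 ^ n) ≤ 4 / 2 ^ n →
            ‖φ z - A z - b‖ ≤ ε / 2 ^ n) →
        (S.card : ℝ) ≤ ε * 4 ^ n) ∧
      ∑ k ∈ U.filter (fun k => γ / 2 ^ n < ρ k ∧ ρ k ≤ K / 2 ^ n), ρ k ^ 2 ≤ ε' := by
  classical
  choose N₀ hN₀ using fun a : ℕ => affine_scale m L B a hε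
  obtain ⟨g, hg⟩ : ∃ g : ℕ, K < γ * 2 ^ g := by
    obtain ⟨g, hg⟩ := pow_unbounded_of_one_lt (K / γ) (one_lt_two)
    exact ⟨g, by rwa [div_lt_iff₀' hγ] at hg⟩
  obtain ⟨J, hJ⟩ : ∃ J : ℕ, 2 < (J : ℝ) * ε' := by
    obtain ⟨J, hJ⟩ := exists_nat_gt (2 / ε')
    exact ⟨J, by rwa [div_lt_iff₀ hε'] at hJ⟩
  refine ⟨scale_a N₀ n₁ g J, ?_⟩
  intro φ hφ U ρ hU
  choose n hn1 hn2 hn3 using fun j : ℕ => hN₀ (scale_a N₀ n₁ g j) φ hφ
  have hlt : ∀ j, n j + g < scale_a N₀ n₁ g (j + 1) := fun j =>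
    lt_of_le_of_lt (Nat.add_le_add_right (hn2 j) g) (scale_N_lt N₀ n₁ g j)
  have hnn : ∀ i j, i < j → n i + g < n j := by
    intro i j hij
    exact lt_of_lt_of_le (hlt i) ((scale_a_le N₀ n₁ g hij).trans (hn1 j))
  by_contra hcon
  have hbig : ∀ j ∈ range J,
      ε' < ∑ k ∈ U.filter (fun k => γ / 2 ^ n j < ρ k ∧ ρ k ≤ K / 2 ^ n j), ρ k ^ 2 := by
    intro j hj
    rw [mem_range] at hj
    by_contra hc
    refine hcon ⟨n j, ?_, ?_, ?_, ?_⟩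
    · exact (scale_a_le N₀ n₁ g (Nat.zero_le j)).trans (hn1 j)
    · have h1 := hlt j
      have h2 := scale_a_le N₀ n₁ g hj
      have h3 : scale_a N₀ n₁ g (j + 1) ≤ scale_a N₀ n₁ g J := h2
      omega
    · exact hn3 j
    · exact not_lt.1 hc
  have hdisj : ((range J : Finset ℕ) : Set ℕ).PairwiseDisjoint
      (fun j => U.filter (fun k => γ / 2 ^ n j < ρ k ∧ ρ k ≤ K / 2 ^ n j)) := by
    have key : ∀ i j k, i < j → γ / 2 ^ n i < ρ k → ρ k ≤ K / 2 ^ n j → False := by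
      intro i j k hij h1 h2
      have h3 := hnn i j hij
      have h4 : K / 2 ^ n j ≤ K / 2 ^ (n i + g) := by
        apply div_le_div_of_nonneg_left hK.le (by positivity)
        exact pow_le_pow_right₀ one_le_two h3.le
      have h5 : K / 2 ^ (n i + g) < γ / 2 ^ n i := by
        rw [pow_add, div_lt_div_iff₀ (by positivity) (by positivity)]
        have h6 : (0 : ℝ) < 2 ^ n i := by positivity
        have h7 := mul_lt_mul_of_pos_right hg h6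
        linarith
      linarith
    intro i _ j _ hij
    rw [Function.onFun, Finset.disjoint_left]
    intro k hk1 hk2
    rw [mem_filter] at hk1 hk2
    rcases lt_or_gt_of_ne hij with h | h
    · exact key i j k h hk1.2.1 hk2.2.2
    · exact key j i k h hk2.2.1 hk1.2.2
  have hsum : ∑ j ∈ range J,
      ∑ k ∈ U.filter (fun k => γ / 2 ^ n j < ρ k ∧ ρ k ≤ K / 2 ^ n j), ρ k ^ 2 ≤ 2 := by
    rw [← Finset.sum_biUnion hdisj]
    refine le_trans ?_ hU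
    apply Finset.sum_le_sum_of_subset_of_nonneg
    · intro k hk
      rw [mem_biUnion] at hk
      obtain ⟨j, _, hk⟩ := hk
      exact (mem_filter.1 hk).1
    · intro k _ _
      positivity
  have hle : (J : ℝ) * ε' ≤ ∑ j ∈ range J,
      ∑ k ∈ U.filter (fun k => γ / 2 ^ n j < ρ k ∧ ρ k ≤ K / 2 ^ n j), ρ k ^ 2 := by
    have h1 : ∑ j ∈ range J, ε' = (J : ℝ) * ε' := by simp
    rw [← h1]
    exact Finset.sum_le_sum (fun j hj => (hbig j hj).le)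
  linarith

end Pool.Agent.Helper8.PL
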