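import Pool.Agent.Helper8.PL.Pair
import Pool.Agent.Helper8.PL.Defs2

/-! Project PL: splitting of the sums by classes and by squares. -/

open Finset MeasureTheory
open scoped ENNReal NNReal

namespace Pool.Agent.Helper8.PL

open Wiring

private theorem split_class_lt {d N m : ℕ} (hm : d ≤ m * N) (i : Fin d) : (i : ℕ) / N < m := by
  apply Nat.div_lt_of_lt_mul
  have := i.isLt
  rw [Nat.mul_comm] at hm
  omega

/-- Proof. `pair_sum`; every class has at most `N` lines. -/
theorem same_class {d : ℕ} (W : Wiring d) {N : ℕ} (hN : 0 < N) :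
    ∑ k ∈ range W.M, ∑ i ∈ W.B k, ∑ j ∈ (W.B k).erase i,
      (if (i : ℕ) / N = (j : ℕ) / N then (1 : ℝ) else 0) ≤ N * d := by
  rw [pair_sum W (fun i j => if (i : ℕ) / N = (j : ℕ) / N then (1 : ℝ) else 0)]
  have h1 : ∀ i ∈ (univ : Finset (Fin d)), ∑ j ∈ univ.erase i,
      (if (i : ℕ) / N = (j : ℕ) / N then (1 : ℝ) else 0) ≤ N := by
    intro i _
    rw [Finset.sum_boole]
    have h2 : ((univ.erase i).filter fun j : Fin d => (i : ℕ) / N = (j : ℕ) / N).card ≤ N := by
      have h3 : (((univ.erase i).filter fun j : Fin d => (i : ℕ) / N = (j : ℕ) / N).image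
          fun j : Fin d => (j : ℕ)) ⊆ Finset.Ico ((i : ℕ) / N * N) ((i : ℕ) / N * N + N) := by
        intro x hx
        rw [Finset.mem_image] at hx
        obtain ⟨j, hj, rfl⟩ := hx
        rw [Finset.mem_filter] at hj
        rw [Finset.mem_Ico, hj.2]
        have h4 := Nat.div_add_mod (j : ℕ) N
        have h5 := Nat.mod_lt (j : ℕ) hN
        rw [Nat.mul_comm] at h4
        omega
      have h6 := Finset.card_le_card h3
      rw [Finset.card_image_of_injective _ Fin.val_injective, Nat.card_Ico] at h6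
      omega
    exact_mod_cast h2
  calc ∑ i : Fin d, ∑ j ∈ univ.erase i, (if (i : ℕ) / N = (j : ℕ) / N then (1 : ℝ) else 0)
      ≤ ∑ _i : Fin d, (N : ℝ) := Finset.sum_le_sum h1
    _ = N * d := by
      rw [Finset.sum_const, Finset.card_univ, Fintype.card_fin, nsmul_eq_mul, mul_comm]

/-- the sum over the pairs of lines in a vertex, by classes -/
theorem vertex_split {d : ℕ} (W : Wiring d) {N m : ℕ} (hN : 0 < N) (hm : d ≤ m * N) (k : ℕ)
    (g : ℕ → ℕ → ℝ) :
    ∑ i ∈ W.B k, ∑ j ∈ (W.B k).erase i, g ((i : ℕ) / N) ((j : ℕ) / N) =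
      (∑ c ∈ range m, ∑ c' ∈ range m,
        if c = c' then 0 else (W.u N c k : ℝ) * W.u N c' k * g c c') +
      ∑ i ∈ W.B k, ∑ j ∈ (W.B k).erase i,
        (if (i : ℕ) / N = (j : ℕ) / N then g ((i : ℕ) / N) ((j : ℕ) / N) else 0) := by
  have hsum : ∀ h : ℕ → ℝ, ∑ i ∈ W.B k, h ((i : ℕ) / N) =
      ∑ c ∈ range m, (W.u N c k : ℝ) * h c := by
    intro h
    rw [← Finset.sum_fiberwise_of_maps_to (s := W.B k) (t := range m)
      (g := fun i : Fin d => (i : ℕ) / N)
      (fun i _ => Finset.mem_range.mpr (split_class_lt hm i))]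
    refine Finset.sum_congr rfl fun c _ => ?_
    have h1 : ∀ i ∈ (W.B k).filter (fun i : Fin d => (i : ℕ) / N = c), h ((i : ℕ) / N) = h c := by
      intro i hi
      rw [(Finset.mem_filter.mp hi).2]
    rw [Finset.sum_congr rfl h1, Finset.sum_const, nsmul_eq_mul]
    rfl
  have h2 : ∀ i ∈ W.B k, ∑ j ∈ (W.B k).erase i, g ((i : ℕ) / N) ((j : ℕ) / N) =
      ∑ j ∈ W.B k, (if (i : ℕ) / N = (j : ℕ) / N then 0 else g ((i : ℕ) / N) ((j : ℕ) / N)) +
      ∑ j ∈ (W.B k).erase i,
        (if (i : ℕ) / N = (j : ℕ) / N then g ((i : ℕ) / N) ((j : ℕ) / N) else 0) := by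
    intro i hi
    have h3 : ∑ j ∈ W.B k,
        (if (i : ℕ) / N = (j : ℕ) / N then 0 else g ((i : ℕ) / N) ((j : ℕ) / N)) =
        ∑ j ∈ (W.B k).erase i,
        (if (i : ℕ) / N = (j : ℕ) / N then 0 else g ((i : ℕ) / N) ((j : ℕ) / N)) := by
      rw [← Finset.add_sum_erase _ _ hi, if_pos rfl, zero_add]
    rw [h3, ← Finset.sum_add_distrib]
    refine Finset.sum_congr rfl fun j _ => ?_
    by_cases h : (i : ℕ) / N = (j : ℕ) / N
    · rw [if_pos h, if_pos h, zero_add]
    · rw [if_neg h, if_neg h, add_zero]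
  rw [Finset.sum_congr rfl h2, Finset.sum_add_distrib]
  congr 1
  have h4 : ∀ i ∈ W.B k, ∑ j ∈ W.B k,
      (if (i : ℕ) / N = (j : ℕ) / N then 0 else g ((i : ℕ) / N) ((j : ℕ) / N)) =
      ∑ c' ∈ range m, (W.u N c' k : ℝ) *
        (if (i : ℕ) / N = c' then 0 else g ((i : ℕ) / N) c') := by
    intro i _
    exact hsum (fun c' => if (i : ℕ) / N = c' then 0 else g ((i : ℕ) / N) c')
  rw [Finset.sum_congr rfl h4]
  rw [hsum (fun c => ∑ c' ∈ range m, (W.u N c' k : ℝ) * (if c = c' then 0 else g c c'))]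
  refine Finset.sum_congr rfl fun c _ => ?_
  rw [Finset.mul_sum]
  refine Finset.sum_congr rfl fun c' _ => ?_
  by_cases h : c = c'
  · rw [if_pos h, if_pos h, mul_zero, mul_zero]
  · rw [if_neg h, if_neg h, mul_assoc]

/-- Proof. `k < M` is in `VQ` of the square `q` if and only if `q = sq k`
(`Nat.floor_eq_iff`); `lo k / d < 1 ≤ m` and `tt k (lo k) < m` (there are `lo k < d` lines below
the cut, of classes `≤ m - 1`), so `sq k` is in the range. -/
theorem sum_squares {d : ℕ} (W : Wiring d) {N m n : ℕ} (hd : 0 < d) (hN : 0 < N)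
    (hm : d ≤ m * N) (g : ℕ × ℕ → ℕ → ℝ) :
    ∑ k ∈ range W.M, g (W.sq N n k) k =
      ∑ q ∈ range (m * 2 ^ n) ×ˢ range (m * 2 ^ n),
        ∑ k ∈ W.VQ N ((q.1 : ℝ) / 2 ^ n) ((q.2 : ℝ) / 2 ^ n) (1 / 2 ^ n), g q k := by
  have h2n : (0 : ℝ) < 2 ^ n := by positivity
  have hdR : (0 : ℝ) < d := by exact_mod_cast hd
  have hm1 : 1 ≤ m := by
    rcases Nat.eq_zero_or_pos m with h | h
    · rw [h, zero_mul] at hm
      omega
    · exact h
  have hmR : (1 : ℝ) ≤ m := by exact_mod_cast hm1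
  have hflo : ∀ (a : ℝ) (q : ℕ), 0 ≤ a → (⌊a * 2 ^ n⌋₊ = q ↔
      ((q : ℝ) / 2 ^ n ≤ a ∧ a < (q : ℝ) / 2 ^ n + 1 / 2 ^ n)) := by
    intro a q ha
    rw [Nat.floor_eq_iff (by positivity), div_le_iff₀ h2n, ← add_div, lt_div_iff₀ h2n]
  have hlo0 : ∀ k, 0 ≤ (W.lo k : ℝ) / d := fun k => by positivity
  have htt0 : ∀ k x, 0 ≤ W.tt N k x := fun k x => by
    unfold Wiring.tt
    positivity
  have hmaps : ∀ k ∈ range W.M, W.sq N n k ∈ range (m * 2 ^ n) ×ˢ range (m * 2 ^ n) := by
    intro k hk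
    rw [Finset.mem_range] at hk
    rw [Finset.mem_product, Finset.mem_range, Finset.mem_range]
    unfold Wiring.sq
    have h1 : (W.lo k : ℝ) / d < m := by
      have h3 : W.lo k < d := by
        have := W.two_le k hk
        have := W.le_d k hk
        omega
      have h4 : (W.lo k : ℝ) / d < 1 := by
        rw [div_lt_one hdR]
        exact_mod_cast h3
      linarith
    have h2 : W.tt N k (W.lo k) < m := by
      unfold Wiring.tt
      rw [div_lt_iff₀ hdR]
      have h5 : W.T N k (W.lo k) ≤ d * (m - 1) := by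
        unfold Wiring.T
        calc ∑ i ∈ Finset.univ.filter (fun i : Fin d => W.pos k i < W.lo k), (i : ℕ) / N
            ≤ ∑ _i ∈ Finset.univ.filter (fun i : Fin d => W.pos k i < W.lo k), (m - 1) := by
              refine Finset.sum_le_sum fun i _ => ?_
              have := split_class_lt hm i
              omega
          _ = (Finset.univ.filter (fun i : Fin d => W.pos k i < W.lo k)).card * (m - 1) := by
              rw [Finset.sum_const, smul_eq_mul]
          _ ≤ d * (m - 1) := by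
              apply Nat.mul_le_mul_right
              calc (Finset.univ.filter (fun i : Fin d => W.pos k i < W.lo k)).card
                  ≤ (Finset.univ : Finset (Fin d)).card := Finset.card_filter_le _ _
                _ = d := by rw [Finset.card_univ, Fintype.card_fin]
      have h6 : d * (m - 1) < m * d := by
        rw [Nat.mul_comm m d]
        exact Nat.mul_lt_mul_of_pos_left (by omega) hd
      exact_mod_cast lt_of_le_of_lt h5 h6
    constructor
    · rw [Nat.floor_lt (by positivity)]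
      push_cast
      exact mul_lt_mul_of_pos_right h1 h2n
    · rw [Nat.floor_lt (mul_nonneg (htt0 _ _) h2n.le)]
      push_cast
      exact mul_lt_mul_of_pos_right h2 h2n
  rw [← Finset.sum_fiberwise_of_maps_to hmaps]
  refine Finset.sum_congr rfl fun q _ => ?_
  have hV : (range W.M).filter (fun k => W.sq N n k = q) =
      W.VQ N ((q.1 : ℝ) / 2 ^ n) ((q.2 : ℝ) / 2 ^ n) (1 / 2 ^ n) := by
    unfold Wiring.VQ
    refine Finset.filter_congr fun k _ => ?_
    rw [← hflo _ _ (hlo0 k), ← hflo _ _ (htt0 k (W.lo k))]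
    unfold Wiring.sq
    rw [Prod.ext_iff]
  rw [hV.symm]
  refine Finset.sum_congr rfl fun k hk => ?_
  rw [(Finset.mem_filter.mp hk).2]

end Pool.Agent.Helper8.PL
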