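import Mathlib

/-! Project PL, piece PL-C: the sign lemma. -/

namespace Pool.Agent.Helper8.PL

private theorem sign_core {L s ν k e M V W A A' : ℝ} (hν : 0 < ν) (hνL : ν * L = s)
    (hk : 0 < k) (he0 : 0 < e) (he1 : e < ν * k) (he2 : e < s) (hW : |W| ≤ L) (hVL : V ≤ L)
    (hV : k ≤ V) (hAM : |A| ≤ M) (hM : M / k + ν ≤ 1) (hA' : 2 * s < A')
    (hD : A * W - V * A' < -(4 * s * L)) :
    ∃ μ, 0 ≤ μ ∧ μ ≤ 1 ∧ e < μ * V - A ∧ μ * W - A' < -e := by
  have hV0 : 0 < V := lt_of_lt_of_le hk hV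
  have hL0 : 0 < L := lt_of_lt_of_le hV0 hVL
  have hs : 0 < s := by rw [← hνL]; positivity
  have hW2 : W ≤ L := le_trans (le_abs_self _) hW
  have hνW : ν * W ≤ s := by rw [← hνL]; exact mul_le_mul_of_nonneg_left hW2 hν.le
  have hM0 : 0 ≤ M := le_trans (abs_nonneg _) hAM
  have hνV : e < ν * V := lt_of_lt_of_le he1 (mul_le_mul_of_nonneg_left hV hν.le)
  by_cases hA : 0 ≤ A
  · refine ⟨A / V + ν, by positivity, ?_, ?_, ?_⟩
    · have h1 : A / V ≤ M / k := by
        apply div_le_div₀ hM0 (le_trans (le_abs_self _) hAM) hk hV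
      linarith
    · have h1 : (A / V + ν) * V = A + ν * V := by
        field_simp
      rw [h1]
      linarith
    · have h1 : (A / V + ν) * W - A' = (A * W - V * A') / V + ν * W := by
        field_simp
        ring
      have h2 : (A * W - V * A') / V < -(4 * s) := by
        rw [div_lt_iff₀ hV0]
        have : 4 * s * V ≤ 4 * s * L := by
          apply mul_le_mul_of_nonneg_left hVL (by positivity)
        linarith
      rw [h1]
      linarith
  · have hA0 : A < 0 := not_le.mp hA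
    refine ⟨ν, hν.le, ?_, ?_, ?_⟩
    · have : 0 ≤ M / k := by positivity
      linarith
    · linarith
    · linarith

/-- PL-C. The sign lemma. -/
theorem sign_lemma {L η : ℝ} (hL : 1 ≤ L) (hη : 0 < η) (hη1 : η ≤ 1) : ∃ σ₀ e : ℝ, 0 < σ₀ ∧
    L * σ₀ ≤ 1 ∧ 0 < e ∧ ∀ σ τ v1 v2 w1 w2 : ℝ, σ₀ / 2 ≤ σ → σ ≤ σ₀ → 0 ≤ τ → τ ≤ L * σ →
      |v1| ≤ L → |v2| ≤ L → |w1| ≤ L → |w2| ≤ L →
      -e ≤ v1 * σ + v2 * τ → -e ≤ w1 * σ + w2 * τ →
      (∀ μ, 0 ≤ μ → μ ≤ 1 → μ * v2 - (v1 * σ + v2 * τ) ≤ e ∨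
        -e ≤ μ * w2 - (w1 * σ + w2 * τ)) →
      (∀ μ, 0 ≤ μ → μ ≤ 1 → (v1 * σ + v2 * τ) + μ * v2 ≤ e ∨
        -e ≤ (w1 * σ + w2 * τ) + μ * w2) →
      -η ≤ v1 * w2 - v2 * w1 := by
  have hL0 : 0 < L := lt_of_lt_of_le one_pos hL
  have hL4 : L ≤ L ^ 4 := le_self_pow₀ hL (by norm_num)
  refine ⟨η / (16 * L ^ 4), η ^ 3 / (2048 * L ^ 8), by positivity, ?_, by positivity, ?_⟩
  · rw [← mul_div_assoc, div_le_one (by positivity)]
    nlinarith
  intro σ τ v1 v2 w1 w2 h1 h2 hτ0 hτ hv1 hv2 hw1 hw2 ha ha' H1 H2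
  by_contra hcon
  have hcon' : v1 * w2 - v2 * w1 < -η := not_le.mp hcon
  have hσ : 0 < σ := lt_of_lt_of_le (by positivity) h1
  set e : ℝ := η ^ 3 / (2048 * L ^ 8) with he
  have he0 : 0 < e := by positivity
  obtain ⟨a, haa⟩ : ∃ a, a = v1 * σ + v2 * τ := ⟨_, rfl⟩
  obtain ⟨b, hbb⟩ : ∃ b, b = w1 * σ + w2 * τ := ⟨_, rfl⟩
  rw [← haa] at ha H1 H2
  rw [← hbb] at ha' H1 H2
  have hD : a * w2 - v2 * b < -(η * σ) := by
    have : a * w2 - v2 * b = σ * (v1 * w2 - v2 * w1) := by rw [haa, hbb]; ring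
    rw [this]
    nlinarith
  have hσe : σ * (32 * L ^ 4) ≥ η := by
    have : η / (16 * L ^ 4) / 2 = η / (32 * L ^ 4) := by
      field_simp; norm_num
    rw [this, div_le_iff₀ (by positivity)] at h1
    exact h1
  have hσ16 : σ * (16 * L ^ 4) ≤ η := by
    rw [le_div_iff₀ (by positivity)] at h2
    exact h2
  -- bounds for `a`, `b`
  have habs : ∀ x y : ℝ, |x| ≤ L → |y| ≤ L → |x * σ + y * τ| ≤ 2 * L ^ 2 * σ := by
    intro x y hx hy
    have h3 : |x * σ + y * τ| ≤ |x * σ| + |y * τ| := abs_add_le _ _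
    rw [abs_mul, abs_mul, abs_of_pos hσ, abs_of_nonneg hτ0] at h3
    have h4 : |x| * σ ≤ L * σ := mul_le_mul_of_nonneg_right hx hσ.le
    have h5 : |y| * τ ≤ L * (L * σ) := mul_le_mul hy hτ hτ0 hL0.le
    have h6 : L * σ ≤ L * (L * σ) := by
      have : L * σ * 1 ≤ L * σ * L := mul_le_mul_of_nonneg_left hL (by positivity)
      nlinarith
    nlinarith
  have hab : |a| ≤ 2 * L ^ 2 * σ := by rw [haa]; exact habs _ _ hv1 hv2
  have hbb' : |b| ≤ 2 * L ^ 2 * σ := by rw [hbb]; exact habs _ _ hw1 hw2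
  -- the parameters
  obtain ⟨ν, hν⟩ : ∃ ν, ν = η * σ / (4 * L ^ 2) := ⟨_, rfl⟩
  obtain ⟨k, hk⟩ : ∃ k, k = η / (4 * L ^ 2) := ⟨_, rfl⟩
  obtain ⟨s, hs⟩ : ∃ s, s = η * σ / (4 * L) := ⟨_, rfl⟩
  have hν0 : 0 < ν := by rw [hν]; positivity
  have hk0 : 0 < k := by rw [hk]; positivity
  have hs0 : 0 < s := by rw [hs]; positivity
  have hνL : ν * L = s := by rw [hν, hs]; field_simp
  have hsL : 4 * s * L = η * σ := by rw [hs]; field_simp
  have hνk : e < ν * k := by
    have h3 : ν * k = (η ^ 2 * (σ * (128 * L ^ 4))) / (2048 * L ^ 8) := by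
      rw [hν, hk]; field_simp; norm_num
    rw [h3, he]
    apply div_lt_div_of_pos_right _ (by positivity)
    have h4 : η ^ 3 = η ^ 2 * η := by ring
    rw [h4]
    apply mul_lt_mul_of_pos_left _ (by positivity)
    nlinarith
  have hk1 : k ≤ L := by
    rw [hk, div_le_iff₀ (by positivity)]
    nlinarith [pow_le_pow_left₀ (by norm_num : (0:ℝ) ≤ 1) hL 3]
  have hes : e < s := by
    have : ν * k ≤ ν * L := mul_le_mul_of_nonneg_left hk1 hν0.le
    linarith
  have hMk : 2 * L ^ 2 * σ / k + ν ≤ 1 := by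
    have h3 : 2 * L ^ 2 * σ / k ≤ 1 / 2 := by
      rw [hk, div_le_iff₀ (by positivity)]
      rw [← mul_div_assoc, le_div_iff₀ (by positivity)]
      nlinarith
    have h4 : ν ≤ 1 / 2 := by
      rw [hν, div_le_iff₀ (by positivity)]
      have h5 : σ ≤ 1 := by
        have : (1:ℝ) ≤ L ^ 4 := one_le_pow₀ hL
        nlinarith
      have h6 : (1:ℝ) ≤ L ^ 2 := one_le_pow₀ hL
      nlinarith
    linarith
  have hLe : L * e < 2 * s * L := by nlinarith
  by_cases hc : 2 * s * L < v2 * b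
  · -- first case
    have hv2pos : 0 < v2 := by
      by_contra hneg
      have h3 : v2 ≤ 0 := not_lt.mp hneg
      have h4 : v2 * b ≤ L * e := by
        have h5 : -L ≤ v2 := (abs_le.mp hv2).1
        nlinarith
      linarith
    have hb : 2 * s < b := by
      have h4 : v2 ≤ L := (abs_le.mp hv2).2
      have hb0 : 0 < b := by
        by_contra hneg
        have h3 : b ≤ 0 := not_lt.mp hneg
        have : v2 * b ≤ 0 := mul_nonpos_of_nonneg_of_nonpos hv2pos.le h3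
        have : 0 < 2 * s * L := by positivity
        linarith
      have h5 : v2 * b ≤ L * b := mul_le_mul_of_nonneg_right h4 hb0.le
      by_contra hneg
      have h3 : b ≤ 2 * s := not_lt.mp hneg
      have : L * b ≤ L * (2 * s) := mul_le_mul_of_nonneg_left h3 hL0.le
      linarith
    have hkv : k ≤ v2 := by
      by_contra hneg
      have h3 : v2 < k := not_le.mp hneg
      have h4 : b ≤ 2 * L ^ 2 * σ := le_trans (le_abs_self _) hbb'
      have h5 : v2 * b ≤ k * (2 * L ^ 2 * σ) := mul_le_mul h3.le h4 (by linarith) hk0.le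
      have h6 : k * (2 * L ^ 2 * σ) = 2 * s * L := by
        rw [hk, hs]; field_simp
      linarith
    obtain ⟨μ, hμ0, hμ1, hμ2, hμ3⟩ := sign_core (M := 2 * L ^ 2 * σ) (A := a) (A' := b) hν0 hνL
      hk0 he0 hνk hes hw2 (abs_le.mp hv2).2 hkv hab hMk hb (by rw [hsL]; exact hD)
    rcases H1 μ hμ0 hμ1 with h | h <;> linarith
  · have hc' : v2 * b ≤ 2 * s * L := not_lt.mp hc
    have haw : a * w2 < -(2 * s * L) := by
      have : a * w2 < -(4 * s * L) + 2 * s * L := by rw [hsL]; linarith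
      linarith
    have hw2neg : w2 < 0 := by
      by_contra hneg
      have h3 : 0 ≤ w2 := not_lt.mp hneg
      have h5 : w2 ≤ L := (abs_le.mp hw2).2
      nlinarith
    have ha0 : 0 < a := by
      by_contra hneg
      have h3 : a ≤ 0 := not_lt.mp hneg
      have : 0 ≤ a * w2 := mul_nonneg_of_nonpos_of_nonpos h3 hw2neg.le
      have : 0 < 2 * s * L := by positivity
      linarith
    have ha2 : 2 * s < a := by
      by_contra hneg
      have h3 : a ≤ 2 * s := not_lt.mp hneg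
      have h4 : -w2 ≤ L := by have := (abs_le.mp hw2).1; linarith
      have h5 : a * (-w2) ≤ 2 * s * L := mul_le_mul h3 h4 (by linarith) (by positivity)
      linarith
    have hkw : k ≤ -w2 := by
      by_contra hneg
      have h3 : -w2 < k := not_le.mp hneg
      have h4 : a ≤ 2 * L ^ 2 * σ := le_trans (le_abs_self _) hab
      have h5 : (-w2) * a ≤ k * (2 * L ^ 2 * σ) := mul_le_mul h3.le h4 ha0.le hk0.le
      have h6 : k * (2 * L ^ 2 * σ) = 2 * s * L := by
        rw [hk, hs]; field_simp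
      linarith
    obtain ⟨μ, hμ0, hμ1, hμ2, hμ3⟩ := sign_core (M := 2 * L ^ 2 * σ) (V := -w2) (W := -v2)
      (A := b) (A' := a) hν0 hνL
      hk0 he0 hνk hes (by rw [abs_neg]; exact hv2)
      (by have := (abs_le.mp hw2).1; linarith) hkw hbb' hMk ha2 (by rw [hsL]; linarith)
    rcases H2 μ hμ0 hμ1 with h | h <;> linarith

end Pool.Agent.Helper8.PL
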